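import Mathlib

set_option autoImplicit false

namespace Pool.Agent.Helper58.BDimDefs

/-- A Boolean realizer of size `d` of the poset `X`: `d` linear orders on `X` and a Boolean
function `phi` of the comparison vector which decides the relation of `X`. -/
structure BooleanRealizer (X : Type) [PartialOrder X] (d : ℕ) where
  orders : Fin d → LinearOrder X
  phi : (Fin d → Prop) → Prop
  realizes : ∀ x y : X, x ≠ y → (x < y ↔ phi (fun i => (orders i).lt x y))

/-- The least size of a Boolean realizer, size `0` allowed. -/
noncomputable def bdim (X : Type) [PartialOrder X] : ℕ :=
  sInf {d | Nonempty (BooleanRealizer X d)}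

/-- The least positive size of a Boolean realizer. -/
noncomputable def bdimPos (X : Type) [PartialOrder X] : ℕ :=
  sInf {d | 1 ≤ d ∧ Nonempty (BooleanRealizer X d)}

end Pool.Agent.Helper58.BDimDefs
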