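import Mathlib
import Pool.Agent.Helper58.BDimDefs

set_option autoImplicit false

namespace Pool.Agent.Helper58.BDim

open Pool.Agent.Helper58.BDimDefs

/-- Adding one point to a linear order, on top or at the bottom. -/
theorem exists_extend {X : Type} (x : X) (L : LinearOrder {y : X // y ≠ x}) (top : Prop) :
    ∃ L' : LinearOrder X, (∀ y z : {y : X // y ≠ x}, L'.lt y z ↔ L.lt y z) ∧
      (∀ y : {y : X // y ≠ x}, L'.lt y x ↔ top) ∧ (∀ y : {y : X // y ≠ x}, L'.lt x y ↔ ¬ top) := by
  classical
  by_cases h : top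
  · let f : X → WithTop {y : X // y ≠ x} := fun y => if hy : y ≠ x then ((⟨y, hy⟩ : {y : X // y ≠ x}) : WithTop _) else ⊤
    have hf1 : ∀ y : {y : X // y ≠ x}, f y = (y : WithTop _) := fun y => dif_pos y.2
    have hfx : f x = ⊤ := dif_neg (by simp)
    have hinj : Function.Injective f := by
      intro a b hab
      by_cases ha : a = x
      · by_cases hb : b = x
        · rw [ha, hb]
        · exfalso
          rw [ha, hfx, hf1 ⟨b, hb⟩] at hab
          exact WithTop.coe_ne_top hab.symm
      · by_cases hb : b = x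
        · exfalso
          rw [hb, hfx, hf1 ⟨a, ha⟩] at hab
          exact WithTop.coe_ne_top hab
        · rw [hf1 ⟨a, ha⟩, hf1 ⟨b, hb⟩] at hab
          have := WithTop.coe_injective hab
          exact congrArg Subtype.val this
    refine ⟨LinearOrder.lift' f hinj, ?_, ?_, ?_⟩
    · intro y z
      change f y < f z ↔ _
      rw [hf1, hf1, WithTop.coe_lt_coe]
    · intro y
      change f y < f x ↔ _
      rw [hf1, hfx]
      exact ⟨fun _ => h, fun _ => WithTop.coe_lt_top _⟩
    · intro y
      change f x < f y ↔ _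
      rw [hf1, hfx]
      exact ⟨fun h' => absurd h' (not_top_lt), fun h' => absurd h h'⟩
  · let f : X → WithBot {y : X // y ≠ x} := fun y => if hy : y ≠ x then ((⟨y, hy⟩ : {y : X // y ≠ x}) : WithBot _) else ⊥
    have hf1 : ∀ y : {y : X // y ≠ x}, f y = (y : WithBot _) := fun y => dif_pos y.2
    have hfx : f x = ⊥ := dif_neg (by simp)
    have hinj : Function.Injective f := by
      intro a b hab
      by_cases ha : a = x
      · by_cases hb : b = x
        · rw [ha, hb]
        · exfalso
          rw [ha, hfx, hf1 ⟨b, hb⟩] at hab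
          exact WithBot.coe_ne_bot hab.symm
      · by_cases hb : b = x
        · exfalso
          rw [hb, hfx, hf1 ⟨a, ha⟩] at hab
          exact WithBot.coe_ne_bot hab
        · rw [hf1 ⟨a, ha⟩, hf1 ⟨b, hb⟩] at hab
          have := WithBot.coe_injective hab
          exact congrArg Subtype.val this
    refine ⟨LinearOrder.lift' f hinj, ?_, ?_, ?_⟩
    · intro y z
      change f y < f z ↔ _
      rw [hf1, hf1, WithBot.coe_lt_coe]
    · intro y
      change f y < f x ↔ _
      rw [hf1, hfx]
      exact ⟨fun h' => absurd h' (not_lt_bot), fun h' => absurd h' h⟩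
    · intro y
      change f x < f y ↔ _
      rw [hf1, hfx]
      exact ⟨fun _ => h, fun _ => WithBot.bot_lt_coe _⟩

/-- A linear order of a finite poset sorted first by a block function `b`, compatible with the
poset inside every block. -/
theorem exists_block {X : Type} [Finite X] [PartialOrder X] (b : X → ℕ) :
    ∃ L : LinearOrder X, (∀ y z, b y < b z → L.lt y z) ∧ (∀ y z, b y = b z → y < z → L.lt y z) := by
  classical
  have := Fintype.ofFinite X
  obtain ⟨e⟩ := Fintype.truncEquivFin X |>.nonempty
  let f : X → ℕ ×ₗ (ℕ ×ₗ ℕ) := fun y =>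
    toLex (b y, toLex ((Finset.univ.filter (fun z => z < y)).card, (e y : ℕ)))
  have hinj : Function.Injective f := by
    intro y z h
    have h1 := congrArg (fun p => (ofLex (ofLex p).2).2) h
    simp only [f, ofLex_toLex] at h1
    exact e.injective (Fin.ext h1)
  refine ⟨LinearOrder.lift' f hinj, ?_, ?_⟩
  · intro y z h
    change f y < f z
    rw [Prod.Lex.lt_iff]
    left
    exact h
  · intro y z h hyz
    change f y < f z
    rw [Prod.Lex.lt_iff]
    right
    refine ⟨h, ?_⟩
    rw [Prod.Lex.lt_iff]
    left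
    change (Finset.univ.filter (fun w => w < y)).card < (Finset.univ.filter (fun w => w < z)).card
    apply Finset.card_lt_card
    rw [Finset.ssubset_iff_of_subset]
    · exact ⟨y, by simp [hyz], by simp⟩
    · intro w hw
      simp only [Finset.mem_filter, Finset.mem_univ, true_and] at hw ⊢
      exact hw.trans hyz

theorem lt_asymm' {X : Type} (L : LinearOrder X) {y z : X} (h : L.lt y z) : ¬ L.lt z y :=
  @lt_asymm X L.toPreorder y z h

theorem lt_trichotomy' {X : Type} (L : LinearOrder X) {y z : X} (h : y ≠ z) :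
    L.lt y z ∨ L.lt z y :=
  @lt_or_gt_of_ne X L y z h

theorem vec_neg {X : Type} {d : ℕ} (L : Fin d → LinearOrder X) {y z : X} (h : y ≠ z) (i : Fin d) :
    (L i).lt z y ↔ ¬ (L i).lt y z := by
  constructor
  · exact lt_asymm' (L i)
  · intro h'
    rcases lt_trichotomy' (L i) h with h1 | h1
    · exact absurd h1 h'
    · exact h1

/-- Adding a point to a poset which is not an antichain costs at most two orders. -/
theorem add_two {X : Type} [Finite X] [PartialOrder X] (x : X) {d : ℕ}
    (R : BooleanRealizer {y : X // y ≠ x} d) (y₀ z₀ : {y : X // y ≠ x}) (h₀ : y₀ < z₀) :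
    Nonempty (BooleanRealizer X (d + 2)) := by
  classical
  set r : Fin d → Prop := fun i => (R.orders i).lt y₀ z₀ with hr
  have hne₀ : y₀ ≠ z₀ := h₀.ne
  have hφr : R.phi r := (R.realizes y₀ z₀ hne₀).mp h₀
  -- the extended old orders
  choose L' hL1 hL2 hL3 using fun i => exists_extend x (R.orders i) (r i)
  -- the two new orders
  set b1 : X → ℕ := fun y => if y < x then 0 else if y = x then 1 else if x < y then 3 else 2
    with hb1
  set b2 : X → ℕ := fun y => if y < x then 0 else if y = x then 2 else if x < y then 3 else 1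
    with hb2
  have hmono : ∀ y z : X, y ≠ x → z ≠ x → y < z → b1 y ≤ b1 z ∧ b2 y ≤ b2 z := by
    intro y z hy hz hyz
    simp only [hb1, hb2, if_neg hy, if_neg hz]
    by_cases h1 : y < x
    · simp [h1]
    · have h2 : ¬ z < x := fun h => h1 (hyz.trans h)
      by_cases h3 : x < y
      · have h4 : x < z := h3.trans hyz
        simp [h1, h2, h3, h4]
      · simp only [if_neg h1, if_neg h2, if_neg h3]
        by_cases h4 : x < z
        · simp [h4]
        · simp [h4]
  obtain ⟨M1, hM1a, hM1b⟩ := exists_block (X := X) b1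
  obtain ⟨M2, hM2a, hM2b⟩ := exists_block (X := X) b2
  have hM1 : ∀ y z : X, y ≠ x → z ≠ x → y < z → M1.lt y z := by
    intro y z hy hz hyz
    rcases (hmono y z hy hz hyz).1.lt_or_eq with h | h
    · exact hM1a y z h
    · exact hM1b y z h hyz
  have hM2 : ∀ y z : X, y ≠ x → z ≠ x → y < z → M2.lt y z := by
    intro y z hy hz hyz
    rcases (hmono y z hy hz hyz).2.lt_or_eq with h | h
    · exact hM2a y z h
    · exact hM2b y z h hyz
  refine ⟨⟨Fin.cons M1 (Fin.cons M2 L'), fun v => v 0 ∧ v 1 ∧
    (R.phi (fun i => v i.succ.succ) ∨ ∀ i, (v i.succ.succ ↔ ¬ r i)), ?_⟩⟩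
  intro y z hyz
  change y < z ↔ M1.lt y z ∧ M2.lt y z ∧
    (R.phi (fun i => (L' i).lt y z) ∨ ∀ i, ((L' i).lt y z ↔ ¬ r i))
  by_cases hy : y = x
  · -- `y = x`
    have hz : z ≠ x := fun h => hyz (hy.trans h.symm)
    rw [hy]
    have hq : ∀ i, ((L' i).lt x z ↔ ¬ r i) := fun i => hL3 i ⟨z, hz⟩
    constructor
    · intro hxz
      refine ⟨hM1a x z ?_, hM2a x z ?_, Or.inr hq⟩
      · simp [hb1, hxz, hz, hxz.not_gt]
      · simp [hb2, hxz, hz, hxz.not_gt]
    · rintro ⟨-, h2, -⟩
      by_contra hxz
      apply lt_asymm' M2 h2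
      apply hM2a
      simp only [hb2, if_neg hz, if_neg hxz, if_neg (lt_irrefl x)]
      split_ifs <;> omega
  · by_cases hz : z = x
    · rw [hz]
      have hq : ∀ i, ((L' i).lt y x ↔ r i) := fun i => hL2 i ⟨y, hy⟩
      have hq' : (fun i => (L' i).lt y x) = r := funext (fun i => propext (hq i))
      constructor
      · intro hxy
        refine ⟨hM1a y x ?_, hM2a y x ?_, Or.inl ?_⟩
        · simp [hb1, hxy]
        · simp [hb2, hxy]
        · rw [hq']
          exact hφr
      · rintro ⟨h1, -, -⟩
        by_contra hxy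
        apply lt_asymm' M1 h1
        apply hM1a
        simp only [hb1, if_neg hy, if_neg hxy, if_neg (lt_irrefl x)]
        split_ifs <;> omega
    · -- both different from `x`
      have hne : (⟨y, hy⟩ : {y : X // y ≠ x}) ≠ ⟨z, hz⟩ := fun h => hyz (congrArg Subtype.val h)
      have hq : (fun i => (L' i).lt y z) = fun i => (R.orders i).lt ⟨y, hy⟩ ⟨z, hz⟩ :=
        funext (fun i => propext (hL1 i ⟨y, hy⟩ ⟨z, hz⟩))
      have hreal := R.realizes ⟨y, hy⟩ ⟨z, hz⟩ hne
      rw [← hq] at hreal
      constructor
      · intro h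
        exact ⟨hM1 y z hy hz h, hM2 y z hy hz h, Or.inl (hreal.mp h)⟩
      · rintro ⟨h1, -, h3 | h3⟩
        · exact hreal.mpr h3
        · exfalso
          have hq2 : (fun i => (R.orders i).lt ⟨z, hz⟩ ⟨y, hy⟩) = r := by
            funext i
            apply propext
            rw [← hL1 i ⟨z, hz⟩ ⟨y, hy⟩]
            change (L' i).lt z y ↔ r i
            rw [vec_neg L' hyz i, h3 i, not_not]
          have h4 := (R.realizes ⟨z, hz⟩ ⟨y, hy⟩ hne.symm).mpr (by rw [hq2]; exact hφr)
          exact lt_asymm' M1 h1 (hM1 z y hz hy h4)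

/-- Adding a maximal point to a poset which is not an antichain costs at most one order. -/
theorem add_max {X : Type} [Finite X] [PartialOrder X] (x : X) (hx : ∀ y, ¬ x < y) {d : ℕ}
    (R : BooleanRealizer {y : X // y ≠ x} d) (y₀ z₀ : {y : X // y ≠ x}) (h₀ : y₀ < z₀) :
    Nonempty (BooleanRealizer X (d + 1)) := by
  classical
  set r : Fin d → Prop := fun i => (R.orders i).lt y₀ z₀ with hr
  have hne₀ : y₀ ≠ z₀ := h₀.ne
  have hφr : R.phi r := (R.realizes y₀ z₀ hne₀).mp h₀
  have hφr' : ¬ R.phi (fun i => ¬ r i) := by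
    intro h
    have h1 : (fun i => ¬ r i) = fun i => (R.orders i).lt z₀ y₀ := by
      funext i
      apply propext
      rw [vec_neg R.orders hne₀ i]
    rw [h1] at h
    exact lt_asymm h₀ ((R.realizes z₀ y₀ hne₀.symm).mpr h)
  choose L' hL1 hL2 hL3 using fun i => exists_extend x (R.orders i) (r i)
  set b1 : X → ℕ := fun y => if y < x then 0 else if y = x then 1 else 2 with hb1
  obtain ⟨M1, hM1a, hM1b⟩ := exists_block (X := X) b1
  have hM1 : ∀ y z : X, y ≠ x → z ≠ x → y < z → M1.lt y z := by
    intro y z hy hz hyz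
    have h : b1 y ≤ b1 z := by
      simp only [hb1, if_neg hy, if_neg hz]
      by_cases h1 : y < x
      · simp [h1]
      · have h2 : ¬ z < x := fun h => h1 (hyz.trans h)
        simp [h1, h2]
    rcases h.lt_or_eq with h | h
    · exact hM1a y z h
    · exact hM1b y z h hyz
  refine ⟨⟨Fin.cons M1 L', fun v => v 0 ∧ R.phi (fun i => v i.succ), ?_⟩⟩
  intro y z hyz
  change y < z ↔ M1.lt y z ∧ R.phi (fun i => (L' i).lt y z)
  by_cases hy : y = x
  · have hz : z ≠ x := fun h => hyz (hy.trans h.symm)
    rw [hy]
    have hq : (fun i => (L' i).lt x z) = fun i => ¬ r i :=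
      funext (fun i => propext (hL3 i ⟨z, hz⟩))
    rw [hq]
    exact ⟨fun h => absurd h (hx z), fun h => absurd h.2 hφr'⟩
  · by_cases hz : z = x
    · rw [hz]
      have hq' : (fun i => (L' i).lt y x) = r := funext (fun i => propext (hL2 i ⟨y, hy⟩))
      rw [hq']
      constructor
      · intro hxy
        refine ⟨hM1a y x ?_, hφr⟩
        simp [hb1, hxy]
      · rintro ⟨h1, -⟩
        by_contra hxy
        apply lt_asymm' M1 h1
        apply hM1a
        simp [hb1, hy, hxy]
    · have hne : (⟨y, hy⟩ : {y : X // y ≠ x}) ≠ ⟨z, hz⟩ := fun h => hyz (congrArg Subtype.val h)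
      have hq : (fun i => (L' i).lt y z) = fun i => (R.orders i).lt ⟨y, hy⟩ ⟨z, hz⟩ :=
        funext (fun i => propext (hL1 i ⟨y, hy⟩ ⟨z, hz⟩))
      have hreal := R.realizes ⟨y, hy⟩ ⟨z, hz⟩ hne
      rw [← hq] at hreal
      constructor
      · intro h
        exact ⟨hM1 y z hy hz h, hreal.mp h⟩
      · rintro ⟨-, h3⟩
        exact hreal.mpr h3

/-- Adding a minimal point to a poset which is not an antichain costs at most one order. -/
theorem add_min {X : Type} [Finite X] [PartialOrder X] (x : X) (hx : ∀ y, ¬ y < x) {d : ℕ}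
    (R : BooleanRealizer {y : X // y ≠ x} d) (y₀ z₀ : {y : X // y ≠ x}) (h₀ : y₀ < z₀) :
    Nonempty (BooleanRealizer X (d + 1)) := by
  classical
  set r : Fin d → Prop := fun i => (R.orders i).lt y₀ z₀ with hr
  have hne₀ : y₀ ≠ z₀ := h₀.ne
  have hφr : R.phi r := (R.realizes y₀ z₀ hne₀).mp h₀
  have hφr' : ¬ R.phi (fun i => ¬ r i) := by
    intro h
    have h1 : (fun i => ¬ r i) = fun i => (R.orders i).lt z₀ y₀ := by
      funext i
      apply propext
      rw [vec_neg R.orders hne₀ i]
    rw [h1] at h
    exact lt_asymm h₀ ((R.realizes z₀ y₀ hne₀.symm).mpr h)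
  choose L' hL1 hL2 hL3 using fun i => exists_extend x (R.orders i) (¬ r i)
  set b1 : X → ℕ := fun y => if x < y then 2 else if y = x then 1 else 0 with hb1
  obtain ⟨M1, hM1a, hM1b⟩ := exists_block (X := X) b1
  have hM1 : ∀ y z : X, y ≠ x → z ≠ x → y < z → M1.lt y z := by
    intro y z hy hz hyz
    have h : b1 y ≤ b1 z := by
      simp only [hb1, if_neg hy, if_neg hz]
      by_cases h1 : x < y
      · simp [h1, h1.trans hyz]
      · simp [h1]
    rcases h.lt_or_eq with h | h
    · exact hM1a y z h
    · exact hM1b y z h hyz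
  refine ⟨⟨Fin.cons M1 L', fun v => v 0 ∧ R.phi (fun i => v i.succ), ?_⟩⟩
  intro y z hyz
  change y < z ↔ M1.lt y z ∧ R.phi (fun i => (L' i).lt y z)
  by_cases hz : z = x
  · have hy : y ≠ x := fun h => hyz (h.trans hz.symm)
    rw [hz]
    have hq : (fun i => (L' i).lt y x) = fun i => ¬ r i :=
      funext (fun i => propext (hL2 i ⟨y, hy⟩))
    rw [hq]
    exact ⟨fun h => absurd h (hx y), fun h => absurd h.2 hφr'⟩
  · by_cases hy : y = x
    · rw [hy]
      have hq' : (fun i => (L' i).lt x z) = r := by
        funext i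
        apply propext
        rw [hL3 i ⟨z, hz⟩, not_not]
      rw [hq']
      constructor
      · intro hxz
        refine ⟨hM1a x z ?_, hφr⟩
        simp [hb1, hxz]
      · rintro ⟨h1, -⟩
        by_contra hxz
        apply lt_asymm' M1 h1
        apply hM1a
        simp [hb1, hz, hxz]
    · have hne : (⟨y, hy⟩ : {y : X // y ≠ x}) ≠ ⟨z, hz⟩ := fun h => hyz (congrArg Subtype.val h)
      have hq : (fun i => (L' i).lt y z) = fun i => (R.orders i).lt ⟨y, hy⟩ ⟨z, hz⟩ :=
        funext (fun i => propext (hL1 i ⟨y, hy⟩ ⟨z, hz⟩))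
      have hreal := R.realizes ⟨y, hy⟩ ⟨z, hz⟩ hne
      rw [← hq] at hreal
      constructor
      · intro h
        exact ⟨hM1 y z hy hz h, hreal.mp h⟩
      · rintro ⟨-, h3⟩
        exact hreal.mpr h3

/-- Two linear orders given by block functions, reversed inside common blocks. -/
theorem exists_two {X : Type} [Finite X] (b1 b2 : X → ℕ) :
    ∃ L1 L2 : LinearOrder X, (∀ y z, b1 y < b1 z → L1.lt y z) ∧ (∀ y z, b2 y < b2 z → L2.lt y z) ∧
      (∀ y z, b1 y = b1 z → b2 y = b2 z → L1.lt y z → L2.lt z y) := by
  classical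
  have := Fintype.ofFinite X
  obtain ⟨e⟩ := Fintype.truncEquivFin X |>.nonempty
  let f : X → ℕ ×ₗ ℕ := fun y => toLex (b1 y, (e y : ℕ))
  let g : X → ℕ ×ₗ ℕᵒᵈ := fun y => toLex (b2 y, OrderDual.toDual (e y : ℕ))
  have hf : Function.Injective f := by
    intro y z h
    have h1 := congrArg (fun p => (ofLex p).2) h
    exact e.injective (Fin.ext h1)
  have hg : Function.Injective g := by
    intro y z h
    have h1 := congrArg (fun p => OrderDual.ofDual (ofLex p).2) h
    exact e.injective (Fin.ext h1)
  refine ⟨LinearOrder.lift' f hf, LinearOrder.lift' g hg, ?_, ?_, ?_⟩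
  · intro y z h
    change f y < f z
    rw [Prod.Lex.lt_iff]
    exact Or.inl h
  · intro y z h
    change g y < g z
    rw [Prod.Lex.lt_iff]
    exact Or.inl h
  · intro y z h1 h2 h3
    change g z < g y
    have h4 : f y < f z := h3
    rw [Prod.Lex.lt_iff] at h4 ⊢
    rcases h4 with h4 | h4
    · exact absurd h1 (ne_of_lt h4)
    · exact Or.inr ⟨h2.symm, OrderDual.toDual_lt_toDual.mpr h4.2⟩

/-- Adding a point to an antichain gives a poset with a Boolean realizer of size two. -/
theorem add_antichain {X : Type} [Finite X] [PartialOrder X] (x : X)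
    (hQ : ∀ y z : X, y ≠ x → z ≠ x → ¬ y < z) : Nonempty (BooleanRealizer X 2) := by
  classical
  by_cases hU : ∀ y, ¬ x < y
  · obtain ⟨L1, L2, h1, h2, h3⟩ := exists_two (X := X)
      (fun y => if y < x then 0 else if y = x then 1 else 2)
      (fun y => if y < x then 1 else if y = x then 2 else 0)
    refine ⟨⟨![L1, L2], fun v => v 0 ∧ v 1, ?_⟩⟩
    intro y z hyz
    change y < z ↔ L1.lt y z ∧ L2.lt y z
    constructor
    · intro h
      have hz : z = x := by
        by_contra hz
        by_cases hy : y = x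
        · rw [hy] at h
          exact hU z h
        · exact hQ y z hy hz h
      rw [hz] at h ⊢
      exact ⟨h1 _ _ (by simp [h]), h2 _ _ (by simp [h])⟩
    · rintro ⟨h4, h5⟩
      by_contra hcon
      by_cases hz : z = x
      · rw [hz] at hcon h4 hyz
        apply lt_asymm' L1 h4
        apply h1
        simp [hcon, hyz]
      · by_cases hy : y = x
        · rw [hy] at h5 hyz
          apply lt_asymm' L2 h5
          apply h2
          simp only [if_neg hz, if_neg (lt_irrefl x), if_true]
          split_ifs <;> omega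
        · by_cases hyx : y < x
          · by_cases hzx : z < x
            · exact lt_asymm' L2 h5 (h3 y z (by simp [hyx, hzx]) (by simp [hyx, hzx]) h4)
            · apply lt_asymm' L2 h5
              apply h2
              simp [hyx, hzx, hz]
          · by_cases hzx : z < x
            · apply lt_asymm' L1 h4
              apply h1
              simp [hyx, hzx, hy]
            · exact lt_asymm' L2 h5 (h3 y z (by simp [hyx, hzx, hy, hz])
                (by simp [hyx, hzx, hy, hz]) h4)
  · push Not at hU
    obtain ⟨u, hu⟩ := hU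
    have hD : ∀ y, ¬ y < x := fun y hy => hQ y u hy.ne hu.ne' (hy.trans hu)
    obtain ⟨L1, L2, h1, h2, h3⟩ := exists_two (X := X)
      (fun y => if x < y then 2 else if y = x then 1 else 0)
      (fun y => if x < y then 1 else if y = x then 0 else 2)
    refine ⟨⟨![L1, L2], fun v => v 0 ∧ v 1, ?_⟩⟩
    intro y z hyz
    change y < z ↔ L1.lt y z ∧ L2.lt y z
    constructor
    · intro h
      have hy : y = x := by
        by_contra hy
        by_cases hz : z = x
        · rw [hz] at h
          exact hD y h
        · exact hQ y z hy hz h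
      rw [hy] at h ⊢
      exact ⟨h1 _ _ (by simp [h]), h2 _ _ (by simp [h])⟩
    · rintro ⟨h4, h5⟩
      by_contra hcon
      by_cases hy : y = x
      · rw [hy] at hcon h4 hyz
        apply lt_asymm' L1 h4
        apply h1
        simp [hcon, hyz.symm]
      · by_cases hz : z = x
        · rw [hz] at h5 hyz
          apply lt_asymm' L2 h5
          apply h2
          simp only [if_neg hy, if_neg (lt_irrefl x), if_true]
          split_ifs <;> omega
        · by_cases hyx : x < y
          · by_cases hzx : x < z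
            · exact lt_asymm' L2 h5 (h3 y z (by simp [hyx, hzx]) (by simp [hyx, hzx]) h4)
            · apply lt_asymm' L1 h4
              apply h1
              simp [hyx, hzx, hz]
          · by_cases hzx : x < z
            · apply lt_asymm' L2 h5
              apply h2
              simp [hyx, hzx, hy]
            · exact lt_asymm' L2 h5 (h3 y z (by simp [hyx, hzx, hy, hz])
                (by simp [hyx, hzx, hy, hz]) h4)

/-- Restriction of a Boolean realizer. -/
theorem restrict {X : Type} [PartialOrder X] (x : X) {d : ℕ}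
    (R : BooleanRealizer X d) : Nonempty (BooleanRealizer {y : X // y ≠ x} d) := by
  refine ⟨⟨fun i => @LinearOrder.lift' {y : X // y ≠ x} X (R.orders i) Subtype.val
    Subtype.val_injective, R.phi, ?_⟩⟩
  intro y z hyz
  exact R.realizes y z (fun h => hyz (Subtype.ext h))

end Pool.Agent.Helper58.BDim
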