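import Mathlib
import Pool.Agent.Helper58.BDim

set_option autoImplicit false

namespace Pool.Agent.Helper58.BDim

open Pool.Agent.Helper58.BDimDefs

theorem bdim_le {X : Type} [PartialOrder X] {d : ℕ} (h : Nonempty (BooleanRealizer X d)) :
    bdim X ≤ d := Nat.sInf_le h

theorem bdimPos_le {X : Type} [PartialOrder X] {d : ℕ} (hd : 1 ≤ d)
    (h : Nonempty (BooleanRealizer X d)) : bdimPos X ≤ d := Nat.sInf_le ⟨hd, h⟩

theorem drop_le_two {X : Type} [Finite X] [PartialOrder X] (x : X) :
    bdim X ≤ bdim {y : X // y ≠ x} + 2 := by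
  by_cases hQ : ∀ y z : X, y ≠ x → z ≠ x → ¬ y < z
  · exact (bdim_le (add_antichain x hQ)).trans (Nat.le_add_left _ _)
  · push Not at hQ
    obtain ⟨y, z, hy, hz, hyz⟩ := hQ
    by_cases hne : {d | Nonempty (BooleanRealizer {y : X // y ≠ x} d)}.Nonempty
    · obtain ⟨R⟩ := Nat.sInf_mem hne
      exact bdim_le (add_two x R ⟨y, hy⟩ ⟨z, hz⟩ hyz)
    · have hemp : {d | Nonempty (BooleanRealizer X d)} = ∅ := by
        rw [Set.eq_empty_iff_forall_notMem]
        rintro d ⟨R⟩
        exact hne ⟨d, restrict x R⟩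
      unfold bdim
      rw [hemp, Nat.sInf_empty]
      exact Nat.zero_le _

theorem dropPos_le_two {X : Type} [Finite X] [PartialOrder X] (x : X) :
    bdimPos X ≤ bdimPos {y : X // y ≠ x} + 2 := by
  by_cases hQ : ∀ y z : X, y ≠ x → z ≠ x → ¬ y < z
  · exact (bdimPos_le (by norm_num) (add_antichain x hQ)).trans (Nat.le_add_left _ _)
  · push Not at hQ
    obtain ⟨y, z, hy, hz, hyz⟩ := hQ
    by_cases hne : {d | 1 ≤ d ∧ Nonempty (BooleanRealizer {y : X // y ≠ x} d)}.Nonempty
    · obtain ⟨-, ⟨R⟩⟩ := Nat.sInf_mem hne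
      exact bdimPos_le (by omega) (add_two x R ⟨y, hy⟩ ⟨z, hz⟩ hyz)
    · have hemp : {d | 1 ≤ d ∧ Nonempty (BooleanRealizer X d)} = ∅ := by
        rw [Set.eq_empty_iff_forall_notMem]
        rintro d ⟨hd, ⟨R⟩⟩
        exact hne ⟨d, hd, restrict x R⟩
      unfold bdimPos
      rw [hemp, Nat.sInf_empty]
      exact Nat.zero_le _

/-- An antichain has a Boolean realizer of size one. -/
theorem antichain_one {X : Type} [Finite X] [PartialOrder X] (h : ∀ y z : X, ¬ y < z) (d : ℕ) :
    Nonempty (BooleanRealizer X d) := by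
  classical
  have := Fintype.ofFinite X
  obtain ⟨e⟩ := Fintype.truncEquivFin X |>.nonempty
  refine ⟨⟨fun _ => LinearOrder.lift' (fun y => (e y : ℕ)) (fun a b hab => e.injective (Fin.ext hab)),
    fun _ => False, ?_⟩⟩
  intro y z _
  exact ⟨fun h' => absurd h' (h y z), fun h' => h'.elim⟩

theorem dropPos_le_one {X : Type} [Finite X] [PartialOrder X] (x : X)
    (hx : (∀ y, ¬ y < x) ∨ (∀ y, ¬ x < y)) :
    bdimPos X ≤ bdimPos {y : X // y ≠ x} + 1 := by
  by_cases hQ : ∀ y z : X, y ≠ x → z ≠ x → ¬ y < z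
  · have h1 := bdimPos_le (by norm_num) (add_antichain x hQ)
    have h2 : 1 ≤ bdimPos {y : X // y ≠ x} := by
      have hne : {d | 1 ≤ d ∧ Nonempty (BooleanRealizer {y : X // y ≠ x} d)}.Nonempty :=
        ⟨1, le_rfl, antichain_one (X := {y : X // y ≠ x}) (fun y z h => hQ y z y.2 z.2 h) 1⟩
      exact (Nat.sInf_mem hne).1
    omega
  · push Not at hQ
    obtain ⟨y, z, hy, hz, hyz⟩ := hQ
    by_cases hne : {d | 1 ≤ d ∧ Nonempty (BooleanRealizer {y : X // y ≠ x} d)}.Nonempty
    · obtain ⟨-, ⟨R⟩⟩ := Nat.sInf_mem hne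
      rcases hx with hx | hx
      · exact bdimPos_le (by omega) (add_min x hx R ⟨y, hy⟩ ⟨z, hz⟩ hyz)
      · exact bdimPos_le (by omega) (add_max x hx R ⟨y, hy⟩ ⟨z, hz⟩ hyz)
    · have hemp : {d | 1 ≤ d ∧ Nonempty (BooleanRealizer X d)} = ∅ := by
        rw [Set.eq_empty_iff_forall_notMem]
        rintro d ⟨hd, ⟨R⟩⟩
        exact hne ⟨d, hd, restrict x R⟩
      unfold bdimPos
      rw [hemp, Nat.sInf_empty]
      exact Nat.zero_le _

/-- The poset with a top element `none` and two incomparable elements below it. -/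
def Wedge : Type := Option Bool

instance : Fintype Wedge := inferInstanceAs (Fintype (Option Bool))

instance : PartialOrder Wedge where
  le a b := a = b ∨ b = none
  le_refl a := Or.inl rfl
  le_trans a b c h1 h2 := by
    rcases h2 with h2 | h2
    · rw [← h2]
      exact h1
    · exact Or.inr h2
  le_antisymm a b h1 h2 := by
    rcases h1 with h1 | h1
    · exact h1
    · rcases h2 with h2 | h2
      · exact h2.symm
      · rw [h1, h2]

theorem wedge_lt (a b : Wedge) : a < b ↔ a ≠ none ∧ b = none := by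
  rw [lt_iff_le_and_ne]
  constructor
  · rintro ⟨h1 | h1, h2⟩
    · exact absurd h1 h2
    · exact ⟨fun h => h2 (h.trans h1.symm), h1⟩
  · rintro ⟨h1, h2⟩
    exact ⟨Or.inr h2, fun h => h1 (h.trans h2)⟩

theorem wedge_anti (y z : {y : Wedge // y ≠ (none : Option Bool)}) : ¬ y < z := by
  intro h
  have h1 : (y : Wedge) < z := h
  rw [wedge_lt] at h1
  exact z.2 h1.2

theorem wedge_drop : bdim Wedge = bdim {y : Wedge // y ≠ (none : Option Bool)} + 2 := by
  have h0 : bdim {y : Wedge // y ≠ (none : Option Bool)} = 0 := by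
    have := bdim_le (antichain_one wedge_anti 0)
    omega
  have hle := drop_le_two (X := Wedge) (none : Option Bool)
  rw [h0] at hle ⊢
  apply le_antisymm hle
  have hne : {d | Nonempty (BooleanRealizer Wedge d)}.Nonempty :=
    ⟨2, add_antichain (none : Option Bool) (fun y z _ hz h => hz ((wedge_lt y z).mp h).2)⟩
  have hmem : Nonempty (BooleanRealizer Wedge (bdim Wedge)) := Nat.sInf_mem hne
  by_contra hlt
  push Not at hlt
  obtain ⟨R⟩ := hmem
  set a : Wedge := (some false : Option Bool) with ha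
  set b : Wedge := (some true : Option Bool) with hb
  set t : Wedge := (none : Option Bool) with ht
  have hab : a ≠ b := by
    intro h
    have h' : (some false : Option Bool) = some true := h
    simp at h'
  have hat : a ≠ t := by
    intro h
    have h' : (some false : Option Bool) = none := h
    simp at h'
  have hbt : b ≠ t := by
    intro h
    have h' : (some true : Option Bool) = none := h
    simp at h'
  have n1 : ¬ a < b := fun h => hbt ((wedge_lt a b).mp h).2
  have n2 : ¬ b < a := fun h => hat ((wedge_lt b a).mp h).2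
  have y1 : a < t := (wedge_lt a t).mpr ⟨hat, rfl⟩
  have r1 := R.realizes a b hab
  have r2 := R.realizes b a hab.symm
  have r3 := R.realizes a t hat
  have hvec : ∀ v w : Fin (bdim Wedge) → Prop, (∀ i, v i ↔ w i) → v = w := fun v w h =>
    funext (fun i => propext (h i))
  rcases Nat.lt_or_ge (bdim Wedge) 1 with hd | hd
  · have e1 : (fun i => (R.orders i).lt a b) = fun i => (R.orders i).lt a t :=
      hvec _ _ (fun i => absurd i.2 (by omega))
    rw [e1] at r1
    exact n1 (r1.mpr (r3.mp y1))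
  · have hd1 : bdim Wedge = 1 := by omega
    have hall : ∀ i : Fin (bdim Wedge), i = ⟨0, by omega⟩ := fun i => Fin.ext (by
      have := i.2
      simp only
      omega)
    set i₀ : Fin (bdim Wedge) := ⟨0, by omega⟩ with hi₀
    by_cases hc : ((R.orders i₀).lt a t ↔ (R.orders i₀).lt a b)
    · have e1 : (fun i => (R.orders i).lt a t) = fun i => (R.orders i).lt a b :=
        hvec _ _ (fun i => by rw [hall i]; exact hc)
      rw [← e1] at r1
      exact n1 (r1.mpr (r3.mp y1))
    · have hc' : ((R.orders i₀).lt a t ↔ (R.orders i₀).lt b a) := by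
        rw [vec_neg R.orders hab i₀]
        tauto
      have e1 : (fun i => (R.orders i).lt a t) = fun i => (R.orders i).lt b a :=
        hvec _ _ (fun i => by rw [hall i]; exact hc')
      rw [← e1] at r2
      exact n2 (r2.mpr (r3.mp y1))

end Pool.Agent.Helper58.BDim
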