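import Mathlib

set_option autoImplicit false
set_option linter.unusedSectionVars false

open Finset Pointwise
open scoped Classical

namespace Pool.Agent.Helper58

section basic

variable {G : Type*} [AddCommGroup G] [Fintype G]

/-- The stabiliser (period group) of a finite set. -/
def stab (A : Finset G) : AddSubgroup G where
  carrier := {g | ∀ x, g + x ∈ A ↔ x ∈ A}
  add_mem' := by
    intro a b ha hb x
    have h1 := ha (b + x)
    rw [add_assoc, h1, hb]
  zero_mem' := by intro x; simp
  neg_mem' := by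
    intro a ha x
    have h1 := ha (-a + x)
    rw [← h1]; simp

lemma mem_stab {A : Finset G} {g : G} : g ∈ stab A ↔ ∀ x, g + x ∈ A ↔ x ∈ A := Iff.rfl

/-- one-sided criterion -/
lemma mem_stab_of_forall {A : Finset G} {g : G} (h : ∀ x ∈ A, g + x ∈ A) : g ∈ stab A := by
  have hinj : Function.Injective (fun x : G => g + x) := add_right_injective g
  have himg : A.image (fun x => g + x) = A := by
    apply Finset.eq_of_subset_of_card_le
    · intro y hy
      obtain ⟨x, hx, rfl⟩ := Finset.mem_image.1 hy
      exact h x hx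
    · rw [Finset.card_image_of_injective _ hinj]
  intro x
  constructor
  · intro hx
    rw [← himg] at hx
    obtain ⟨y, hy, hyx⟩ := Finset.mem_image.1 hx
    have : y = x := by simpa using hyx
    exact this ▸ hy
  · exact h x

/-- A subgroup as a finset. -/
noncomputable def F (H : AddSubgroup G) : Finset G := univ.filter (fun x => x ∈ H)

@[simp] lemma mem_F {H : AddSubgroup G} {x : G} : x ∈ F H ↔ x ∈ H := by simp [F]

lemma F_nonempty (H : AddSubgroup G) : (F H).Nonempty := ⟨0, by simp [H.zero_mem]⟩

lemma card_F_pos (H : AddSubgroup G) : 0 < (F H).card := Finset.card_pos.2 (F_nonempty H)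

lemma F_mono {H K : AddSubgroup G} (h : H ≤ K) : F H ⊆ F K := by
  intro x hx; simp only [mem_F] at *; exact h hx

lemma card_F_mono {H K : AddSubgroup G} (h : H ≤ K) : (F H).card ≤ (F K).card :=
  Finset.card_le_card (F_mono h)

/-- The coset `d + H` as a finset. -/
noncomputable def coset (H : AddSubgroup G) (d : G) : Finset G := univ.filter (fun x => x - d ∈ H)

@[simp] lemma mem_coset {H : AddSubgroup G} {d x : G} : x ∈ coset H d ↔ x - d ∈ H := by
  simp [coset]

lemma card_coset (H : AddSubgroup G) (d : G) : (coset H d).card = (F H).card := by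
  refine Finset.card_bij' (fun x _ => x - d) (fun x _ => x + d) ?_ ?_ ?_ ?_
  · intro x hx; simpa using hx
  · intro x hx; simpa using hx
  · intro x hx; simp
  · intro x hx; simp

lemma coset_subset {A : Finset G} {H : AddSubgroup G} (hH : H ≤ stab A) {d : G} (hd : d ∈ A) :
    coset H d ⊆ A := by
  intro x hx
  rw [mem_coset] at hx
  have := (mem_stab.1 (hH hx)) d
  rw [sub_add_cancel] at this
  exact this.2 hd

lemma card_le_of_inv {A : Finset G} {H : AddSubgroup G} (hH : H ≤ stab A) (hA : A.Nonempty) :
    (F H).card ≤ A.card := by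
  obtain ⟨d, hd⟩ := hA
  rw [← card_coset H d]
  exact Finset.card_le_card (coset_subset hH hd)

lemma dvd_of_inv {A : Finset G} {H : AddSubgroup G} (hH : H ≤ stab A) :
    (F H).card ∣ A.card := by
  have h1 : A.card = ∑ b ∈ A.image (QuotientAddGroup.mk' H),
      (A.filter (fun a => QuotientAddGroup.mk' H a = b)).card :=
    Finset.card_eq_sum_card_fiberwise (fun x hx => Finset.mem_image_of_mem _ hx)
  rw [h1]
  apply Finset.dvd_sum
  intro b hb
  obtain ⟨a, ha, rfl⟩ := Finset.mem_image.1 hb
  have : A.filter (fun x => QuotientAddGroup.mk' H x = QuotientAddGroup.mk' H a) = coset H a := by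
    ext x
    simp only [Finset.mem_filter, mem_coset]
    constructor
    · rintro ⟨hx, hxa⟩
      rw [QuotientAddGroup.mk'_apply, QuotientAddGroup.mk'_apply, QuotientAddGroup.eq] at hxa
      have := H.neg_mem hxa
      simpa [neg_add_rev, sub_eq_add_neg, add_comm] using this
    · intro hx
      refine ⟨coset_subset hH ha (by simpa using hx), ?_⟩
      rw [QuotientAddGroup.mk'_apply, QuotientAddGroup.mk'_apply, QuotientAddGroup.eq]
      have := H.neg_mem hx
      simpa [neg_add_rev, sub_eq_add_neg, add_comm] using this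
  rw [this, card_coset]

/-- Product identity for periodic subsets of a coset of `H₁ + H₂`. -/
lemma prod_identity {H₁ H₂ : AddSubgroup G} {X Y : Finset G} {d : G}
    (hX : X ⊆ coset (H₁ ⊔ H₂) d) (hY : Y ⊆ coset (H₁ ⊔ H₂) d)
    (hX1 : H₁ ≤ stab X) (hY2 : H₂ ≤ stab Y) :
    (F (H₁ ⊓ H₂)).card * (X.card * Y.card) = (X ∩ Y).card * ((F H₁).card * (F H₂).card) := by
  set S : Finset ((G × G) × G) := ((X ×ˢ Y) ×ˢ (F H₁)).filter (fun t => t.1.2 - t.1.1 - t.2 ∈ H₂)
    with hS
  have h1 : S.card = (X ∩ Y).card * ((F H₁).card * (F H₂).card) := by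
    rw [← Finset.card_product, ← Finset.card_product]
    refine Finset.card_bij' (fun t _ => (t.1.1 + t.2, (t.2, t.1.2 - t.1.1 - t.2)))
      (fun t _ => ((t.1 - t.2.1, t.1 + t.2.2), t.2.1)) ?_ ?_ ?_ ?_
    · rintro ⟨⟨x, y⟩, a⟩ ht
      simp only [hS, Finset.mem_filter, Finset.mem_product, mem_F] at ht
      obtain ⟨⟨⟨hx, hy⟩, ha⟩, hb⟩ := ht
      simp only [Finset.mem_product, Finset.mem_inter, mem_F]
      refine ⟨⟨?_, ?_⟩, ha, hb⟩
      · have := (mem_stab.1 (hX1 ha) x).2 hx
        rwa [add_comm] at this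
      · have := (mem_stab.1 (hY2 (H₂.neg_mem hb)) y).2 hy
        have e : -(y - x - a) + y = x + a := by abel
        rwa [e] at this
    · rintro ⟨w, a, b⟩ ht
      simp only [Finset.mem_product, Finset.mem_inter, mem_F] at ht
      obtain ⟨⟨hwx, hwy⟩, ha, hb⟩ := ht
      simp only [hS, Finset.mem_filter, Finset.mem_product, mem_F]
      refine ⟨⟨⟨?_, ?_⟩, ha⟩, ?_⟩
      · have := (mem_stab.1 (hX1 (H₁.neg_mem ha)) w).2 hwx
        have e : -a + w = w - a := by abel
        rwa [e] at this
      · have := (mem_stab.1 (hY2 hb) w).2 hwy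
        rwa [add_comm] at this
      · have e : w + b - (w - a) - a = b := by abel
        rw [e]; exact hb
    · rintro ⟨⟨x, y⟩, a⟩ ht
      simp
    · rintro ⟨w, a, b⟩ ht
      simp
  have h2 : S.card = (F (H₁ ⊓ H₂)).card * (X.card * Y.card) := by
    rw [← Finset.card_product, Finset.card_eq_sum_card_fiberwise (f := fun t => t.1)
      (t := X ×ˢ Y)]
    · rw [Finset.sum_const_nat (m := (F (H₁ ⊓ H₂)).card)]
      · rw [mul_comm]
      · rintro ⟨x, y⟩ hxy
        simp only [Finset.mem_product] at hxy
        have hxD := hX hxy.1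
        have hyD := hY hxy.2
        rw [mem_coset] at hxD hyD
        have hsub : y - x ∈ H₁ ⊔ H₂ := by
          have := (H₁ ⊔ H₂).sub_mem hyD hxD
          have e : y - d - (x - d) = y - x := by abel
          rwa [e] at this
        obtain ⟨a, ha, b, hb, hab⟩ := AddSubgroup.mem_sup.1 hsub
        refine Finset.card_bij' (fun t _ => t.2 - a) (fun c _ => ((x, y), c + a)) ?_ ?_ ?_ ?_
        · rintro ⟨⟨x', y'⟩, c⟩ ht
          simp only [hS, Finset.mem_filter, Finset.mem_product, mem_F] at ht
          obtain ⟨⟨⟨_, hc⟩, hc2⟩, hxy'⟩ := ht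
          simp only [Prod.mk.injEq] at hxy'
          obtain ⟨rfl, rfl⟩ := hxy'
          simp only [mem_F, AddSubgroup.mem_inf]
          refine ⟨H₁.sub_mem hc ha, ?_⟩
          have := H₂.sub_mem hb hc2
          have e : b - (y' - x' - c) = c - a := by rw [← hab]; abel
          rwa [e] at this
        · intro c hc
          simp only [mem_F, AddSubgroup.mem_inf] at hc
          simp only [hS, Finset.mem_filter, Finset.mem_product, mem_F]
          refine ⟨⟨⟨hxy, H₁.add_mem hc.1 ha⟩, ?_⟩, trivial⟩
          have := H₂.sub_mem hb hc.2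
          have e : y - x - (c + a) = b - c := by rw [← hab]; abel
          rw [e]; exact this
        · rintro ⟨⟨x', y'⟩, c⟩ ht
          simp only [hS, Finset.mem_filter, Finset.mem_product, mem_F] at ht
          obtain ⟨_, hxy'⟩ := ht
          simp only [Prod.mk.injEq] at hxy'
          obtain ⟨rfl, rfl⟩ := hxy'
          simp
        · intro c hc
          simp
    · rintro ⟨⟨x, y⟩, a⟩ ht
      simp only [hS, Finset.coe_filter, Set.mem_ofPred_eq, Finset.mem_product] at ht
      simp only [Finset.coe_product, Set.mem_prod, Finset.mem_coe]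
      exact ht.1.1
  rw [← h2, h1]

lemma inv_inter {A B : Finset G} {H : AddSubgroup G} (hA : H ≤ stab A) (hB : H ≤ stab B) :
    H ≤ stab (A ∩ B) := by
  intro g hg x
  simp only [Finset.mem_inter]
  rw [mem_stab.1 (hA hg) x, mem_stab.1 (hB hg) x]

lemma inv_union {A B : Finset G} {H : AddSubgroup G} (hA : H ≤ stab A) (hB : H ≤ stab B) :
    H ≤ stab (A ∪ B) := by
  intro g hg x
  simp only [Finset.mem_union]
  rw [mem_stab.1 (hA hg) x, mem_stab.1 (hB hg) x]

lemma inv_sdiff {A B : Finset G} {H : AddSubgroup G} (hA : H ≤ stab A) (hB : H ≤ stab B) :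
    H ≤ stab (A \ B) := by
  intro g hg x
  simp only [Finset.mem_sdiff]
  rw [mem_stab.1 (hA hg) x, mem_stab.1 (hB hg) x]

lemma inv_coset {H K : AddSubgroup G} (h : H ≤ K) (d : G) : H ≤ stab (coset K d) := by
  intro g hg x
  simp only [mem_coset]
  have e : g + x - d = g + (x - d) := by abel
  rw [e]
  exact K.add_mem_cancel_left (h hg)

lemma union_aux {C₁ C₂ : Finset G} {H₁ H₂ : AddSubgroup G} (hH1 : H₁ ≤ stab C₁)
    (hH2 : H₂ ≤ stab C₂) {d : G} (hd2 : d ∈ C₂) (hd1 : d ∉ C₁)
    (k1 : (C₂ \ C₁).card + (F (H₁ ⊓ H₂)).card < (F H₁).card)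
    (k2 : (C₁ \ C₂).card + (F (H₁ ⊓ H₂)).card < (F H₂).card) :
    (F H₂).card ≤ (C₂ \ C₁).card := by
  set D := coset (H₁ ⊔ H₂) d with hD
  set X := C₁ ∩ D with hX
  set Y := C₂ ∩ D with hY
  have hdD : d ∈ D := by simp [hD]
  have hD1 : H₁ ≤ stab D := inv_coset le_sup_left d
  have hD2 : H₂ ≤ stab D := inv_coset le_sup_right d
  have hX1 : H₁ ≤ stab X := inv_inter hH1 hD1
  have hY2 : H₂ ≤ stab Y := inv_inter hH2 hD2
  have hYd : d ∈ Y := by simp [hY, hd2, hdD]
  have hy : (F H₂).card ≤ Y.card := card_le_of_inv hY2 ⟨d, hYd⟩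
  have hXD : X ⊆ D := Finset.inter_subset_right
  have hYD : Y ⊆ D := Finset.inter_subset_right
  rcases X.eq_empty_or_nonempty with hXe | hXne
  · refine hy.trans (Finset.card_le_card ?_)
    intro z hz
    rw [Finset.mem_sdiff]
    rw [hY, Finset.mem_inter] at hz
    refine ⟨hz.1, fun hz1 => ?_⟩
    have : z ∈ X := by rw [hX, Finset.mem_inter]; exact ⟨hz1, hz.2⟩
    rw [hXe] at this
    simp at this
  · have hx : (F H₁).card ≤ X.card := card_le_of_inv hX1 hXne
    have hDX : (F H₁).card ≤ (D \ X).card := by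
      apply card_le_of_inv (inv_sdiff hD1 hX1)
      refine ⟨d, ?_⟩
      rw [Finset.mem_sdiff]
      refine ⟨hdD, fun h => hd1 ?_⟩
      rw [hX, Finset.mem_inter] at h
      exact h.1
    have hDXc : (D \ X).card + X.card = D.card := Finset.card_sdiff_add_card_eq_card hXD
    rcases (D \ Y).eq_empty_or_nonempty with hYe | hYne
    · exfalso
      have : (D \ X).card ≤ (C₂ \ C₁).card := by
        apply Finset.card_le_card
        intro z hz
        rw [Finset.mem_sdiff] at hz ⊢
        have hzY : z ∈ Y := by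
          by_contra hzY
          have : z ∈ D \ Y := Finset.mem_sdiff.2 ⟨hz.1, hzY⟩
          rw [hYe] at this
          simp at this
        rw [hY, Finset.mem_inter] at hzY
        refine ⟨hzY.1, fun h => hz.2 ?_⟩
        rw [hX, Finset.mem_inter]
        exact ⟨h, hz.1⟩
      omega
    · exfalso
      have hDY : (F H₂).card ≤ (D \ Y).card := card_le_of_inv (inv_sdiff hD2 hY2) hYne
      have hDYc : (D \ Y).card + Y.card = D.card := Finset.card_sdiff_add_card_eq_card hYD
      have id1 := prod_identity hXD hYD hX1 hY2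
      have id2 := prod_identity (X := D) (Y := D) (d := d) (subset_refl _) (subset_refl _) hD1 hD2
      rw [Finset.inter_self] at id2
      have hw1 : (Y \ X).card + (X ∩ Y).card = Y.card := by
        rw [Finset.inter_comm]; exact Finset.card_sdiff_add_card_inter Y X
      have hw2 : (X \ Y).card + (X ∩ Y).card = X.card := Finset.card_sdiff_add_card_inter X Y
      have hs1 : (Y \ X).card ≤ (C₂ \ C₁).card := by
        apply Finset.card_le_card
        intro z hz
        rw [Finset.mem_sdiff] at hz ⊢
        rw [hY, Finset.mem_inter] at hz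
        refine ⟨hz.1.1, fun h => hz.2 ?_⟩
        rw [hX, Finset.mem_inter]
        exact ⟨h, hz.1.2⟩
      have hs2 : (X \ Y).card ≤ (C₁ \ C₂).card := by
        apply Finset.card_le_card
        intro z hz
        rw [Finset.mem_sdiff] at hz ⊢
        rw [hX, Finset.mem_inter] at hz
        refine ⟨hz.1.1, fun h => hz.2 ?_⟩
        rw [hY, Finset.mem_inter]
        exact ⟨h, hz.1.2⟩
      have hm0 : 0 < (F (H₁ ⊓ H₂)).card := card_F_pos _
      have hDpos : 0 < D.card := Finset.card_pos.2 ⟨d, hdD⟩
      generalize (F (H₁ ⊓ H₂)).card = m at *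
      generalize (F H₁).card = h₁ at *
      generalize (F H₂).card = h₂ at *
      generalize hXc : X.card = x at *
      generalize hYc : Y.card = y at *
      generalize hDc : D.card = n at *
      generalize hwc : (X ∩ Y).card = w at *
      have e2 : m * n = h₁ * h₂ := by
        have : (m * n) * n = (h₁ * h₂) * n := by nlinarith
        exact Nat.eq_of_mul_eq_mul_right hDpos this
      have e1 : x * y = w * n := by
        have : m * (x * y) = m * (w * n) := by rw [id1, ← e2]; ring
        exact Nat.eq_of_mul_eq_mul_left hm0 this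
      have i1 : x + y + 2 * m < h₁ + h₂ + 2 * w := by omega
      have i2 : y + h₂ ≤ n := by omega
      have i3 : x + h₁ ≤ n := by omega
      have p1 : (0 : ℤ) ≤ ((n : ℤ) - (y + h₂)) * (x - h₁) := by
        apply mul_nonneg
        · have : ((y + h₂ : ℕ) : ℤ) ≤ n := by exact_mod_cast i2
          push_cast at this; linarith
        · have : (h₁ : ℤ) ≤ x := by exact_mod_cast hx
          linarith
      have p2 : (0 : ℤ) ≤ ((n : ℤ) - (x + h₁)) * (y - h₂) := by
        apply mul_nonneg
        · have : ((x + h₁ : ℕ) : ℤ) ≤ n := by exact_mod_cast i3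
          push_cast at this; linarith
        · have : (h₂ : ℤ) ≤ y := by exact_mod_cast hy
          linarith
      have e1' : (x : ℤ) * y = w * n := by exact_mod_cast e1
      have e2' : (m : ℤ) * n = h₁ * h₂ := by exact_mod_cast e2
      have p3 : (n : ℤ) * (x + y - h₁ - h₂ - 2 * w + 2 * m)
          = ((n : ℤ) - (y + h₂)) * (x - h₁) + ((n : ℤ) - (x + h₁)) * (y - h₂) := by
        linear_combination 2 * e1' + 2 * e2'
      have p4 : (0 : ℤ) ≤ (n : ℤ) * (x + y - h₁ - h₂ - 2 * w + 2 * m) := by
        rw [p3]; exact add_nonneg p1 p2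
      have hn : (0 : ℤ) < n := by exact_mod_cast hDpos
      have p5 : (0 : ℤ) ≤ (x + y - h₁ - h₂ - 2 * w + 2 * m : ℤ) :=
        nonneg_of_mul_nonneg_right p4 hn
      omega

lemma union_lemma (C₁ C₂ : Finset G) :
    C₁.card + (F (stab C₁)).card ≤ (C₁ ∪ C₂).card + (F (stab (C₁ ∪ C₂))).card ∨
    C₂.card + (F (stab C₂)).card ≤ (C₁ ∪ C₂).card + (F (stab (C₁ ∪ C₂))).card := by
  by_contra hcon
  push Not at hcon
  obtain ⟨h1, h2⟩ := hcon
  have hinf : stab C₁ ⊓ stab C₂ ≤ stab (C₁ ∪ C₂) := inv_union inf_le_left inf_le_right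
  have hm0 := card_F_mono hinf
  have hc1 : (C₁ ∪ C₂).card = C₁.card + (C₂ \ C₁).card := by
    have := Finset.card_sdiff_add_card C₂ C₁
    rw [Finset.union_comm] at this
    omega
  have hc2 : (C₁ ∪ C₂).card = C₂.card + (C₁ \ C₂).card := by
    have := Finset.card_sdiff_add_card C₁ C₂
    omega
  have k1 : (C₂ \ C₁).card + (F (stab C₁ ⊓ stab C₂)).card < (F (stab C₁)).card := by omega
  have k2 : (C₁ \ C₂).card + (F (stab C₁ ⊓ stab C₂)).card < (F (stab C₂)).card := by omega
  have n1 : (C₂ \ C₁).Nonempty := by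
    rw [Finset.nonempty_iff_ne_empty]
    intro he
    have : C₁ ∪ C₂ = C₁ := by
      rw [Finset.union_eq_left]
      exact Finset.sdiff_eq_empty_iff_subset.1 he
    rw [this] at h1
    omega
  have n2 : (C₁ \ C₂).Nonempty := by
    rw [Finset.nonempty_iff_ne_empty]
    intro he
    have : C₁ ∪ C₂ = C₂ := by
      rw [Finset.union_eq_right]
      exact Finset.sdiff_eq_empty_iff_subset.1 he
    rw [this] at h2
    omega
  obtain ⟨d, hd⟩ := n1
  obtain ⟨d', hd'⟩ := n2
  rw [Finset.mem_sdiff] at hd hd'
  have key1 := union_aux (le_refl (stab C₁)) (le_refl (stab C₂)) hd.1 hd.2 k1 k2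
  have k1' : (C₂ \ C₁).card + (F (stab C₂ ⊓ stab C₁)).card < (F (stab C₁)).card := by
    rw [inf_comm]; exact k1
  have k2' : (C₁ \ C₂).card + (F (stab C₂ ⊓ stab C₁)).card < (F (stab C₂)).card := by
    rw [inf_comm]; exact k2
  have key2 := union_aux (le_refl (stab C₂)) (le_refl (stab C₁)) hd'.1 hd'.2 k2' k1'
  omega

/-- Dyson transform step. -/
lemma etransform_aux (n : ℕ) : ∀ (A B : Finset G), B.card = n → A.Nonempty → ∀ b₀ ∈ B,
    ∃ C : Finset G, C ⊆ A + B ∧ (∀ a ∈ A, a + b₀ ∈ C) ∧
      A.card + B.card ≤ C.card + (F (stab C)).card := by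
  induction n using Nat.strong_induction_on with
  | _ n ih =>
  intro A B hBn hA b₀ hb₀
  by_cases hall : ∀ a ∈ A, ∀ b ∈ B, b + (a - b₀) ∈ A
  · refine ⟨A.image (fun a => a + b₀), ?_, ?_, ?_⟩
    · intro x hx
      obtain ⟨a, ha, rfl⟩ := Finset.mem_image.1 hx
      exact Finset.add_mem_add ha hb₀
    · intro a ha
      exact Finset.mem_image_of_mem _ ha
    · rw [Finset.card_image_of_injective _ (add_left_injective b₀)]
      apply Nat.add_le_add_left
      have : B.card = (B.image (fun b => b - b₀)).card :=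
        (Finset.card_image_of_injective _ (sub_left_injective)).symm
      rw [this]
      apply Finset.card_le_card
      intro x hx
      obtain ⟨b, hb, rfl⟩ := Finset.mem_image.1 hx
      rw [mem_F]
      apply mem_stab_of_forall
      intro y hy
      obtain ⟨a, ha, rfl⟩ := Finset.mem_image.1 hy
      have := hall a ha b hb
      rw [Finset.mem_image]
      exact ⟨_, this, by abel⟩
  · push Not at hall
    obtain ⟨a, ha, b, hb, hab⟩ := hall
    set e := a - b₀ with he
    set A' := A ∪ B.image (fun b => b + e) with hA'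
    set B' := B.filter (fun b => b + e ∈ A) with hB'
    have hb₀' : b₀ ∈ B' := by
      simp only [hB', Finset.mem_filter]
      refine ⟨hb₀, ?_⟩
      have : b₀ + e = a := by rw [he]; abel
      rw [this]; exact ha
    have hlt : B'.card < B.card := by
      apply Finset.card_lt_card
      refine ⟨Finset.filter_subset _ _, fun h => hab ?_⟩
      have := h hb
      exact (Finset.mem_filter.1 this).2
    have hcard : A'.card + B'.card = A.card + B.card := by
      have h1 : A'.card = A.card + (B.image (fun b => b + e) \ A).card := by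
        have := Finset.card_sdiff_add_card (B.image (fun b => b + e)) A
        rw [Finset.union_comm] at this
        rw [hA']
        omega
      have h2 : (B.image (fun b => b + e) \ A).card = (B.filter (fun b => ¬ (b + e ∈ A))).card := by
        symm
        rw [← Finset.card_image_of_injective (B.filter (fun b => ¬ (b + e ∈ A)))
          (add_left_injective e)]
        congr 1
        ext x
        simp only [Finset.mem_image, Finset.mem_filter, Finset.mem_sdiff]
        constructor
        · rintro ⟨y, ⟨hy, hy2⟩, rfl⟩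
          exact ⟨⟨y, hy, rfl⟩, hy2⟩
        · rintro ⟨⟨y, hy, rfl⟩, hy2⟩
          exact ⟨y, ⟨hy, hy2⟩, rfl⟩
      have h3 : B'.card + (B.filter (fun b => ¬ (b + e ∈ A))).card = B.card :=
        Finset.card_filter_add_card_filter_not (s := B) (fun b => b + e ∈ A)
      omega
    obtain ⟨C, hC1, hC2, hC3⟩ := ih B'.card (hBn ▸ hlt) A' B' rfl
      (hA.mono Finset.subset_union_left) b₀ hb₀'
    refine ⟨C, hC1.trans ?_, ?_, ?_⟩
    · intro x hx
      obtain ⟨y, hy, z, hz, rfl⟩ := Finset.mem_add.1 hx
      rw [hB', Finset.mem_filter] at hz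
      rw [hA', Finset.mem_union] at hy
      rcases hy with hy | hy
      · exact Finset.add_mem_add hy hz.1
      · obtain ⟨w, hw, rfl⟩ := Finset.mem_image.1 hy
        have : w + e + z = (z + e) + w := by abel
        rw [this]
        exact Finset.add_mem_add hz.2 hw
    · intro a' ha'
      exact hC2 a' (Finset.subset_union_left ha')
    · omega

/-- Kneser's theorem, weak form. -/
theorem kneser_weak {A B : Finset G} (hA : A.Nonempty) (hB : B.Nonempty) :
    A.card + B.card ≤ (A + B).card + (F (stab (A + B))).card := by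
  choose! C hC1 hC2 hC3 using fun b (hb : b ∈ B) => etransform_aux B.card A B rfl hA b hb
  have hU : A + B = B.biUnion C := by
    apply Finset.Subset.antisymm
    · intro x hx
      obtain ⟨a, ha, b, hb, rfl⟩ := Finset.mem_add.1 hx
      exact Finset.mem_biUnion.2 ⟨b, hb, hC2 b hb a ha⟩
    · intro x hx
      obtain ⟨b, hb, hx⟩ := Finset.mem_biUnion.1 hx
      exact hC1 b hb hx
  have key : ∀ S : Finset G, S.Nonempty → S ⊆ B →
      A.card + B.card ≤ (S.biUnion C).card + (F (stab (S.biUnion C))).card := by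
    intro S hS
    induction hS using Finset.Nonempty.cons_induction with
    | singleton b =>
      intro hb
      rw [Finset.singleton_biUnion]
      exact hC3 b (hb (Finset.mem_singleton_self b))
    | cons b S hbS hS ih =>
      intro hsub
      rw [Finset.cons_eq_insert, Finset.biUnion_insert]
      have h1 := hC3 b (hsub (Finset.mem_cons_self b S))
      have h2 := ih (fun x hx => hsub (Finset.mem_cons.2 (Or.inr hx)))
      rcases union_lemma (C b) (S.biUnion C) with h | h
      · omega
      · omega
  rw [hU]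
  exact key B hB (subset_refl _)

/-- `A + H` for a subgroup `H`. -/
noncomputable def sat (A : Finset G) (H : AddSubgroup G) : Finset G := A + F H

lemma mem_sat {A : Finset G} {H : AddSubgroup G} {x : G} :
    x ∈ sat A H ↔ ∃ a ∈ A, x - a ∈ H := by
  constructor
  · intro hx
    obtain ⟨a, ha, h, hh, rfl⟩ := Finset.mem_add.1 hx
    exact ⟨a, ha, by simpa using hh⟩
  · rintro ⟨a, ha, h⟩
    exact Finset.mem_add.2 ⟨a, ha, x - a, by simpa using h, by abel⟩

lemma subset_sat (A : Finset G) (H : AddSubgroup G) : A ⊆ sat A H := by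
  intro x hx
  exact mem_sat.2 ⟨x, hx, by simp [H.zero_mem]⟩

lemma sat_inv (A : Finset G) (H : AddSubgroup G) : H ≤ stab (sat A H) := by
  intro g hg
  apply mem_stab_of_forall
  intro x hx
  obtain ⟨a, ha, h⟩ := mem_sat.1 hx
  refine mem_sat.2 ⟨a, ha, ?_⟩
  have e : g + x - a = g + (x - a) := by abel
  rw [e]
  exact H.add_mem hg h

lemma stab_add_left (A B : Finset G) : stab A ≤ stab (A + B) := by
  intro g hg
  apply mem_stab_of_forall
  intro x hx
  obtain ⟨a, ha, b, hb, rfl⟩ := Finset.mem_add.1 hx
  rw [← add_assoc]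
  exact Finset.add_mem_add ((mem_stab.1 hg a).2 ha) hb

lemma stab_add_right (A B : Finset G) : stab B ≤ stab (A + B) := by
  rw [add_comm]; exact stab_add_left B A

lemma sat_eq_self {A : Finset G} {H : AddSubgroup G} (h : H ≤ stab A) : sat A H = A := by
  apply Finset.Subset.antisymm
  · intro x hx
    obtain ⟨a, ha, hxa⟩ := mem_sat.1 hx
    have := (mem_stab.1 (h hxa) a).2 ha
    simpa using this
  · exact subset_sat A H

lemma sat_add_sat (A B : Finset G) (H : AddSubgroup G) : sat A H + sat B H = sat (A + B) H := by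
  ext x
  constructor
  · intro hx
    obtain ⟨y, hy, z, hz, rfl⟩ := Finset.mem_add.1 hx
    obtain ⟨a, ha, hya⟩ := mem_sat.1 hy
    obtain ⟨b, hb, hzb⟩ := mem_sat.1 hz
    refine mem_sat.2 ⟨a + b, Finset.add_mem_add ha hb, ?_⟩
    have e : y + z - (a + b) = (y - a) + (z - b) := by abel
    rw [e]; exact H.add_mem hya hzb
  · intro hx
    obtain ⟨y, hy, hxy⟩ := mem_sat.1 hx
    obtain ⟨a, ha, b, hb, rfl⟩ := Finset.mem_add.1 hy
    refine Finset.mem_add.2 ⟨a, subset_sat A H ha, x - a, mem_sat.2 ⟨b, hb, ?_⟩, by abel⟩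
    have e : x - a - b = x - (a + b) := by abel
    rw [e]; exact hxy

/-- Kneser's theorem, strong form. -/
theorem kneser {A B : Finset G} (hA : A.Nonempty) (hB : B.Nonempty) :
    (sat A (stab (A + B))).card + (sat B (stab (A + B))).card ≤
      (A + B).card + (F (stab (A + B))).card := by
  have h := kneser_weak (A := sat A (stab (A + B))) (B := sat B (stab (A + B)))
    (hA.mono (subset_sat _ _)) (hB.mono (subset_sat _ _))
  rw [sat_add_sat, sat_eq_self (le_refl _)] at h
  exact h

end basic

end Pool.Agent.Helper58
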