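import Mathlib
import Pool.Agent.Helper58.Kneser

set_option autoImplicit false
set_option linter.unusedSectionVars false

open Finset Pointwise
open scoped Classical

namespace Pool.Agent.Helper58

variable {G : Type*} [AddCommGroup G] [Fintype G]

lemma F_bot_card : (F (⊥ : AddSubgroup G)).card = 1 := by
  rw [Finset.card_eq_one]
  refine ⟨0, ?_⟩
  ext x
  simp

/-- no proper nonzero subgroup nearly fills `B`. -/
def NK (B : Finset G) (Q : AddSubgroup G) : Prop :=
  ∀ K : AddSubgroup G, K ≠ ⊥ → K < Q → B.card + (F K).card ≤ (sat B K).card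

lemma crit_lower {B : Finset G} {Q : AddSubgroup G} (hB : B.Nonempty) (hBQ : B ⊆ F Q)
    (hNK : NK B Q) {X : Finset G} (hX : X.Nonempty) (hXQ : X ⊆ F Q) (hne : X + B ≠ F Q) :
    X.card + B.card ≤ (X + B).card + 1 ∧
      ((X + B).card + 1 ≤ X.card + B.card → stab (X + B) = ⊥) := by
  have hsub : X + B ⊆ F Q := by
    intro x hx
    obtain ⟨a, ha, b, hb, rfl⟩ := Finset.mem_add.1 hx
    rw [mem_F]
    exact Q.add_mem (mem_F.1 (hXQ ha)) (mem_F.1 (hBQ hb))
  have hXB : (X + B).Nonempty := hX.add hB
  have hKle : stab (X + B) ≤ Q := by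
    intro g hg
    obtain ⟨x, hx⟩ := hXB
    have h1 := mem_F.1 (hsub ((mem_stab.1 hg x).2 hx))
    have h2 := mem_F.1 (hsub hx)
    have := Q.sub_mem h1 h2
    simpa using this
  have hKne : stab (X + B) ≠ Q := by
    intro h
    apply hne
    apply Finset.Subset.antisymm hsub
    intro y hy
    obtain ⟨x, hx⟩ := hXB
    have h2 := mem_F.1 (hsub hx)
    have h3 : y - x ∈ stab (X + B) := by rw [h]; exact Q.sub_mem (mem_F.1 hy) h2
    have := (mem_stab.1 h3 x).2 hx
    simpa using this
  have hKlt : stab (X + B) < Q := lt_of_le_of_ne hKle hKne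
  by_cases hb : stab (X + B) = ⊥
  · have := kneser_weak hX hB
    rw [hb, F_bot_card] at this
    exact ⟨this, fun _ => hb⟩
  · have h1 := hNK _ hb hKlt
    have h2 := kneser hX hB
    have h3 := Finset.card_le_card (subset_sat X (stab (X + B)))
    constructor
    · omega
    · intro h; omega

/-- critical sets -/
structure Crit (B : Finset G) (Q : AddSubgroup G) (X : Finset G) : Prop where
  sub : X ⊆ F Q
  two : 2 ≤ X.card
  le : (X + B).card + 1 ≤ X.card + B.card
  room : (X + B).card + 2 ≤ (F Q).card

lemma card_single_add (g : G) (M : Finset G) : ({g} + M : Finset G).card = M.card := by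
  rw [Finset.singleton_add]
  exact Finset.card_image_of_injective _ (add_right_injective g)

lemma mem_single_add {g x : G} {M : Finset G} : x ∈ ({g} + M : Finset G) ↔ x - g ∈ M := by
  rw [Finset.singleton_add]
  constructor
  · intro h
    obtain ⟨y, hy, rfl⟩ := Finset.mem_image.1 h
    simpa using hy
  · intro h
    exact Finset.mem_image.2 ⟨x - g, h, by rw [vadd_eq_add]; abel⟩

lemma submod (M N B : Finset G) :
    ((M ∩ N) + B).card + ((M ∪ N) + B).card ≤ (M + B).card + (N + B).card := by
  have h1 : (M ∪ N) + B = (M + B) ∪ (N + B) := Finset.union_add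
  have h2 : (M ∩ N) + B ⊆ (M + B) ∩ (N + B) := Finset.inter_add_subset
  have h3 := Finset.card_le_card h2
  have h4 := Finset.card_union_add_card_inter (M + B) (N + B)
  rw [h1]
  omega

lemma exists_atom {B : Finset G} {Q : AddSubgroup G} (hB : B.Nonempty) (hBQ : B ⊆ F Q)
    (hNK : NK B Q) {X : Finset G} (hX : Crit B Q X) :
    ∃ M, Crit B Q M ∧ ∀ g, g ≠ 0 → (M ∩ ({g} + M)).card ≤ 1 := by
  obtain ⟨M, hM, hmin⟩ := Finset.exists_min_image (univ.filter (fun X => Crit B Q X))
    Finset.card ⟨X, by simp [hX]⟩
  simp only [Finset.mem_filter, Finset.mem_univ, true_and] at hM hmin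
  refine ⟨M, hM, ?_⟩
  intro g hg
  by_contra hcon
  push Not at hcon
  have hcard2 : 2 ≤ (M ∩ ({g} + M)).card := hcon
  have hMne : M.Nonempty := Finset.card_pos.1 (by have := hM.two; omega)
  have hgQ : g ∈ Q := by
    have : (M ∩ ({g} + M)).Nonempty := Finset.card_pos.1 (by omega)
    obtain ⟨x, hx⟩ := this
    rw [Finset.mem_inter, mem_single_add] at hx
    have h1 := mem_F.1 (hM.sub hx.1)
    have h2 := mem_F.1 (hM.sub hx.2)
    have := Q.sub_mem h1 h2
    simpa using this
  have hneM : M + B ≠ F Q := by
    intro h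
    have := hM.room
    rw [h] at this
    omega
  obtain ⟨hl1, hl2⟩ := crit_lower hB hBQ hNK hMne hM.sub hneM
  have hstab := hl2 hM.le
  have hM1lt : (M ∩ ({g} + M)).card < M.card := by
    apply Finset.card_lt_card
    refine ⟨Finset.inter_subset_left, fun h => hg ?_⟩
    have hgs : g ∈ stab M := by
      have hsub : M ⊆ {g} + M := fun x hx => (Finset.mem_inter.1 (h hx)).2
      have heq : M = {g} + M := Finset.eq_of_subset_of_card_le hsub (by rw [card_single_add])
      apply mem_stab_of_forall
      intro x hx
      rw [heq, mem_single_add]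
      simpa using hx
    have := stab_add_left M B hgs
    rw [hstab] at this
    simpa using this
  have hM1 : M.card + B.card ≤ M.card + B.card := le_refl _
  have hsub1 : (M ∩ ({g} + M)) + B ⊆ M + B := Finset.add_subset_add_right Finset.inter_subset_left
  have hsub1c := Finset.card_le_card hsub1
  have hn1 : ¬ Crit B Q (M ∩ ({g} + M)) := by
    intro h
    have := hmin _ h
    omega
  have hn1' : (M ∩ ({g} + M)).card + B.card ≤ ((M ∩ ({g} + M)) + B).card := by
    by_contra hc
    apply hn1
    have hr := hM.room
    exact ⟨Finset.inter_subset_left.trans hM.sub, hcard2, by omega, by omega⟩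
  have hsm := submod M ({g} + M) B
  have htr : (({g} + M) + B).card = (M + B).card := by
    rw [add_assoc, card_single_add]
  have hcu := Finset.card_union_add_card_inter M ({g} + M)
  rw [card_single_add] at hcu
  have hle := hM.le
  have hM2sub : M ∪ ({g} + M) ⊆ F Q := by
    apply Finset.union_subset hM.sub
    intro x hx
    rw [mem_single_add] at hx
    have h1 := mem_F.1 (hM.sub hx)
    rw [mem_F]
    have := Q.add_mem h1 hgQ
    simpa using this
  have hM2 : (M ∪ ({g} + M)) + B = F Q := by
    by_contra hne
    have := (crit_lower hB hBQ hNK (hMne.mono Finset.subset_union_left) hM2sub hne).1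
    omega
  rw [hM2] at hsm
  -- dual set
  set Ms := (F Q \ (M + B)).image (fun x => -x) with hMs
  have hMBsub : M + B ⊆ F Q := by
    intro x hx
    obtain ⟨a, ha, b, hb, rfl⟩ := Finset.mem_add.1 hx
    rw [mem_F]
    exact Q.add_mem (mem_F.1 (hM.sub ha)) (mem_F.1 (hBQ hb))
  have hMsc : Ms.card + (M + B).card = (F Q).card := by
    rw [hMs, Finset.card_image_of_injective _ neg_injective]
    exact Finset.card_sdiff_add_card_eq_card hMBsub
  have hMsB : Ms + B ⊆ F Q \ (M.image (fun x => -x)) := by
    intro x hx
    obtain ⟨a, ha, b, hb, rfl⟩ := Finset.mem_add.1 hx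
    obtain ⟨y, hy, rfl⟩ := Finset.mem_image.1 ha
    rw [Finset.mem_sdiff] at hy ⊢
    constructor
    · rw [mem_F]
      exact Q.add_mem (Q.neg_mem (mem_F.1 hy.1)) (mem_F.1 (hBQ hb))
    · intro h
      obtain ⟨m, hm, hme⟩ := Finset.mem_image.1 h
      apply hy.2
      have : y = m + b := by
        have h2 : -y + b = -m := hme.symm
        have h3 : y = b + m := by
          have : y = b - (-y + b) := by abel
          rw [this, h2]; abel
        rw [h3]; abel
      rw [this]
      exact Finset.add_mem_add hm hb
  have hMsBc : (Ms + B).card + M.card ≤ (F Q).card := by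
    have h1 := Finset.card_le_card hMsB
    have h2 : M.image (fun x => -x) ⊆ F Q := by
      intro x hx
      obtain ⟨y, hy, rfl⟩ := Finset.mem_image.1 hx
      rw [mem_F]; exact Q.neg_mem (mem_F.1 (hM.sub hy))
    have h3 := Finset.card_sdiff_add_card_eq_card h2
    rw [Finset.card_image_of_injective _ neg_injective] at h3
    omega
  have hMscrit : Crit B Q Ms := by
    refine ⟨?_, ?_, ?_, ?_⟩
    · intro x hx
      obtain ⟨y, hy, rfl⟩ := Finset.mem_image.1 hx
      rw [mem_F]; exact Q.neg_mem (mem_F.1 (Finset.mem_sdiff.1 hy).1)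
    · have := hM.room; omega
    · omega
    · have := hM.two; omega
  have hfin := hmin _ hMscrit
  have := hM.two
  omega

/-- pairwise small intersections of translates -/
def Sidon (M : Finset G) : Prop := ∀ a b : G, a ≠ b → ((({a} + M) ∩ ({b} + M)) : Finset G).card ≤ 1

lemma sidon_of {M : Finset G} (h : ∀ g, g ≠ 0 → (M ∩ ({g} + M)).card ≤ 1) : Sidon M := by
  intro a b hab
  have hinj : (({a} + M) ∩ ({b} + M) : Finset G).card = (M ∩ ({b - a} + M)).card := by
    rw [← card_single_add a (M ∩ ({b - a} + M))]
    congr 1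
    ext x
    simp only [Finset.mem_inter, mem_single_add]
    have e : x - a - (b - a) = x - b := by abel
    rw [e]
  rw [hinj]
  exact h _ (sub_ne_zero.2 (Ne.symm hab))

lemma Sidon.two {M N : Finset G} (hM : Sidon M) (hN : 2 ≤ N.card) :
    2 * M.card ≤ (N + M).card + 1 := by
  obtain ⟨a, ha, b, hb, hab⟩ := Finset.one_lt_card.1 (by omega : 1 < N.card)
  have h1 := hM a b hab
  have h2 := Finset.card_union_add_card_inter ({a} + M) ({b} + M)
  rw [card_single_add, card_single_add] at h2
  have h3 : ({a} + M) ∪ ({b} + M) ⊆ N + M := by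
    apply Finset.union_subset
    · exact Finset.add_subset_add_right (Finset.singleton_subset_iff.2 ha)
    · exact Finset.add_subset_add_right (Finset.singleton_subset_iff.2 hb)
  have h4 := Finset.card_le_card h3
  omega

lemma Sidon.three {M N : Finset G} (hM : Sidon M) (hN : 3 ≤ N.card) :
    3 * M.card ≤ (N + M).card + 3 := by
  obtain ⟨a, b, c, ha, hb, hc, hab, hac, hbc⟩ := Finset.two_lt_card_iff.1 (by omega : 2 < N.card)
  have h1 := hM a b hab
  have h2 := Finset.card_union_add_card_inter ({a} + M) ({b} + M)
  rw [card_single_add, card_single_add] at h2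
  have h5 := Finset.card_union_add_card_inter (({a} + M) ∪ ({b} + M)) ({c} + M)
  rw [card_single_add] at h5
  have h6 : ((({a} + M) ∪ ({b} + M)) ∩ ({c} + M)).card ≤ 2 := by
    rw [Finset.union_inter_distrib_right]
    refine (Finset.card_union_le _ _).trans ?_
    have := hM a c hac
    have := hM b c hbc
    omega
  have h3 : (({a} + M) ∪ ({b} + M)) ∪ ({c} + M) ⊆ N + M := by
    apply Finset.union_subset (Finset.union_subset _ _)
    · exact Finset.add_subset_add_right (Finset.singleton_subset_iff.2 hc)
    · exact Finset.add_subset_add_right (Finset.singleton_subset_iff.2 ha)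
    · exact Finset.add_subset_add_right (Finset.singleton_subset_iff.2 hb)
  have h4 := Finset.card_le_card h3
  omega

lemma sat_card_dvd (A : Finset G) (H : AddSubgroup G) : (F H).card ∣ (sat A H).card :=
  dvd_of_inv (sat_inv A H)

lemma exists_ne_zero_of_ne_bot {K : AddSubgroup G} (h : K ≠ ⊥) : ∃ x ∈ K, x ≠ 0 := by
  by_contra hcon
  push Not at hcon
  exact h ((AddSubgroup.eq_bot_iff_forall K).2 hcon)

lemma sidon_NK {M : Finset G} {Q : AddSubgroup G} (h0 : 0 ∈ M)
    (hgen : ∀ K : AddSubgroup G, (∀ x ∈ M, x ∈ K) → Q ≤ K) (hs : Sidon M) : NK M Q := by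
  intro K hK hKQ
  by_contra hcon
  push Not at hcon
  obtain ⟨x, hxK, hx0⟩ := exists_ne_zero_of_ne_bot hK
  have h1 := hs 0 x (Ne.symm hx0)
  have h2' := Finset.card_union_add_card_inter ({0} + M) ({x} + M)
  rw [card_single_add, card_single_add] at h2'
  have h3 : ({0} + M) ∪ ({x} + M) ⊆ sat M K := by
    apply Finset.union_subset
    · rw [Finset.singleton_zero, zero_add]
      exact subset_sat M K
    · intro y hy
      rw [mem_single_add] at hy
      exact mem_sat.2 ⟨y - x, hy, by simpa using hxK⟩
  have h4 := Finset.card_le_card h3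
  have hMK : M.card ≤ (F K).card := by omega
  have hlt : (sat M K).card < 2 * (F K).card := by omega
  obtain ⟨t, ht⟩ := sat_card_dvd M K
  have hFK := card_F_pos K
  have ht1 : t = 1 := by
    have hpos : 0 < (sat M K).card := Finset.card_pos.2 ⟨0, subset_sat M K h0⟩
    rw [ht] at hlt hpos
    have ht0 : 0 < t := Nat.pos_of_mul_pos_left hpos |> fun h => h
    have : t < 2 := by
      by_contra hc
      push Not at hc
      have : (F K).card * 2 ≤ (F K).card * t := Nat.mul_le_mul_left _ hc
      omega
    omega
  rw [ht1, mul_one] at ht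
  have hsub : F K ⊆ sat M K := by
    intro y hy
    exact mem_sat.2 ⟨0, h0, by simpa using hy⟩
  have heq : F K = sat M K := Finset.eq_of_subset_of_card_le hsub (by omega)
  have : Q ≤ K := by
    apply hgen
    intro y hy
    rw [← mem_F, heq]
    exact subset_sat M K hy
  exact absurd hKQ (not_lt_of_ge this)

/-- the part of `B` in a given class modulo `Q` -/
noncomputable def cls (B : Finset G) (Q : AddSubgroup G) (c : G ⧸ Q) : Finset G :=
  B.filter (fun x => (QuotientAddGroup.mk' Q) x = c)

lemma mk_eq_iff {Q : AddSubgroup G} {x y : G} :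
    (QuotientAddGroup.mk' Q) x = (QuotientAddGroup.mk' Q) y ↔ x - y ∈ Q := by
  rw [QuotientAddGroup.mk'_apply, QuotientAddGroup.mk'_apply, QuotientAddGroup.eq]
  constructor
  · intro h
    have := Q.neg_mem h
    simpa [neg_add_rev, sub_eq_add_neg, add_comm] using this
  · intro h
    have := Q.neg_mem h
    simpa [neg_add_rev, sub_eq_add_neg, add_comm] using this

/-- key counting inequality summed over classes -/
lemma class_count {B M : Finset G} {Q : AddSubgroup G} (hM0 : 0 ∈ M) (hMQ : M ⊆ F Q)
    (hM2 : 2 ≤ M.card) (hs : Sidon M)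
    (hgen : ∀ K : AddSubgroup G, (∀ x ∈ M, x ∈ K) → Q ≤ K)
    (hle : (M + B).card + 1 ≤ M.card + B.card)
    (hno : ∀ X, ¬ Crit M Q X) :
    (sat B Q).card ≤ B.card + (F Q).card - 1 := by
  set q := (F Q).card with hq
  set T := B.image (QuotientAddGroup.mk' Q) with hT
  have hB : B.card = ∑ c ∈ T, (cls B Q c).card :=
    Finset.card_eq_sum_card_fiberwise (fun x hx => Finset.mem_image_of_mem _ hx)
  have hMB : (M + B).card = ∑ c ∈ T, (M + cls B Q c).card := by
    rw [Finset.card_eq_sum_card_fiberwise (f := QuotientAddGroup.mk' Q) (t := T)]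
    · apply Finset.sum_congr rfl
      intro c hc
      congr 1
      ext x
      simp only [Finset.mem_filter, Finset.mem_add, cls]
      constructor
      · rintro ⟨⟨m, hm, b, hb, rfl⟩, hx⟩
        refine ⟨m, hm, b, ⟨hb, ?_⟩, rfl⟩
        rw [← hx, mk_eq_iff]
        have e : b - (m + b) = -m := by abel
        rw [e]
        exact Q.neg_mem (mem_F.1 (hMQ hm))
      · rintro ⟨m, hm, b, ⟨hb, hx⟩, rfl⟩
        refine ⟨⟨m, hm, b, hb, rfl⟩, ?_⟩
        rw [← hx, mk_eq_iff]
        have e : m + b - b = m := by abel
        rw [e]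
        exact mem_F.1 (hMQ hm)
    · intro x hx
      obtain ⟨m, hm, b, hb, rfl⟩ := Finset.mem_add.1 hx
      rw [hT]
      simp only [Finset.coe_image, Set.mem_image, Finset.mem_coe]
      refine ⟨b, hb, ?_⟩
      rw [mk_eq_iff]
      have e : b - (m + b) = -m := by abel
      rw [e]
      exact Q.neg_mem (mem_F.1 (hMQ hm))
  have hS : (sat B Q).card = ∑ c ∈ T, q := by
    rw [Finset.card_eq_sum_card_fiberwise (f := QuotientAddGroup.mk' Q) (t := T)]
    · apply Finset.sum_congr rfl
      intro c hc
      obtain ⟨b, hb, rfl⟩ := Finset.mem_image.1 hc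
      rw [hq, ← card_coset Q b]
      congr 1
      ext x
      simp only [Finset.mem_filter, mem_coset, mk_eq_iff]
      constructor
      · exact fun h => h.2
      · exact fun h => ⟨mem_sat.2 ⟨b, hb, h⟩, h⟩
    · intro x hx
      obtain ⟨b, hb, hxb⟩ := mem_sat.1 hx
      rw [hT]
      simp only [Finset.coe_image, Set.mem_image, Finset.mem_coe]
      refine ⟨b, hb, ?_⟩
      rw [mk_eq_iff]
      have := Q.neg_mem hxb
      simpa using this
  -- pointwise facts
  have hge : ∀ c ∈ T, (cls B Q c).card ≤ (M + cls B Q c).card := by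
    intro c hc
    apply Finset.card_le_card
    intro x hx
    have := Finset.add_mem_add hM0 hx
    simpa using this
  have hdsum : ∑ c ∈ T, ((M + cls B Q c).card - (cls B Q c).card) + B.card = (M + B).card := by
    rw [hB, hMB, ← Finset.sum_add_distrib]
    apply Finset.sum_congr rfl
    intro c hc
    have := hge c hc
    omega
  have hdle : ∀ c ∈ T, (M + cls B Q c).card - (cls B Q c).card + 1 ≤ M.card := by
    intro c hc
    have h1 : (M + cls B Q c).card - (cls B Q c).card ≤
        ∑ c ∈ T, ((M + cls B Q c).card - (cls B Q c).card) :=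
      Finset.single_le_sum (f := fun c => (M + cls B Q c).card - (cls B Q c).card)
        (fun _ _ => Nat.zero_le _) hc
    omega
  have hq2 : 2 * M.card ≤ q + 1 := by
    have h1 := hs.two hM2
    have h2 : M + M ⊆ F Q := by
      intro x hx
      obtain ⟨a, ha, b, hb, rfl⟩ := Finset.mem_add.1 hx
      rw [mem_F]
      exact Q.add_mem (mem_F.1 (hMQ ha)) (mem_F.1 (hMQ hb))
    have h3 := Finset.card_le_card h2
    omega
  have hpt : ∀ c ∈ T, (M.card - 1) * q ≤ (M.card - 1) * (cls B Q c).card +
      (q - 1) * ((M + cls B Q c).card - (cls B Q c).card) := by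
    intro c hc
    obtain ⟨b, hb, rfl⟩ := Finset.mem_image.1 hc
    set Bc := cls B Q (QuotientAddGroup.mk' Q b) with hBc
    have hbBc : b ∈ Bc := Finset.mem_filter.2 ⟨hb, rfl⟩
    have hBcsub : Bc ⊆ coset Q b := by
      intro x hx
      simp only [hBc, cls, Finset.mem_filter] at hx
      rw [mem_coset]
      exact mk_eq_iff.1 hx.2
    have hpos : 1 ≤ Bc.card := Finset.card_pos.2 ⟨b, hbBc⟩
    have hd := hdle _ hc
    have hg := hge _ hc
    rw [← hBc] at hd hg
    have hMBcsub : M + Bc ⊆ coset Q b := by
      intro x hx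
      obtain ⟨m, hm, y, hy, rfl⟩ := Finset.mem_add.1 hx
      rw [mem_coset]
      have h1 := mem_coset.1 (hBcsub hy)
      have e : m + y - b = m + (y - b) := by abel
      rw [e]
      exact Q.add_mem (mem_F.1 (hMQ hm)) h1
    by_cases h0 : (M + Bc).card = Bc.card
    · -- then Bc is full
      have hsub : Bc ⊆ M + Bc := by
        intro x hx
        have := Finset.add_mem_add hM0 hx
        simpa using this
      have heq : Bc = M + Bc := Finset.eq_of_subset_of_card_le hsub (by omega)
      have hQs : Q ≤ stab Bc := by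
        apply hgen
        intro m hm
        apply mem_stab_of_forall
        intro y hy
        rw [heq]
        exact Finset.add_mem_add hm hy
      have hfull : q ≤ Bc.card := card_le_of_inv hQs ⟨b, hbBc⟩
      have := Nat.mul_le_mul_left (M.card - 1) hfull
      omega
    · have hδ : 1 ≤ (M + Bc).card - Bc.card := by omega
      by_cases h1 : Bc.card = 1
      · -- single element
        obtain ⟨x, hx⟩ := Finset.card_eq_one.1 h1
        have hMx : (M + Bc).card = M.card := by
          rw [hx, add_comm, card_single_add]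
        rw [h1, hMx]
        have hqp : 1 ≤ q := card_F_pos Q
        obtain ⟨t, ht⟩ := Nat.exists_eq_add_of_le hqp
        rw [ht]
        have : (M.card - 1) * (1 + t) = (M.card - 1) * 1 + (1 + t - 1) * (M.card - 1) := by
          rw [Nat.add_sub_cancel_left]; ring
        exact this.le
      · have hno' := hno ({-b} + Bc)
        have hroom : q < (M + Bc).card + 2 := by
          by_contra hc2
          push Not at hc2
          apply hno'
          refine ⟨?_, ?_, ?_, ?_⟩
          · intro x hx
            rw [mem_single_add] at hx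
            have := mem_coset.1 (hBcsub hx)
            rw [mem_F]
            have e : x - -b - b = x := by abel
            rwa [e] at this
          · rw [card_single_add]; omega
          · rw [add_assoc, card_single_add, card_single_add, add_comm Bc M]; omega
          · rw [add_assoc, card_single_add, add_comm Bc M]; exact hc2
        have h3 : q ≤ Bc.card + 2 * ((M + Bc).card - Bc.card) := by omega
        have h4 : (M.card - 1) * q ≤
            (M.card - 1) * (Bc.card + 2 * ((M + Bc).card - Bc.card)) :=
          Nat.mul_le_mul_left _ h3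
        have h5 : (M.card - 1) * 2 ≤ q - 1 := by omega
        have h6 : (M.card - 1) * 2 * ((M + Bc).card - Bc.card) ≤
            (q - 1) * ((M + Bc).card - Bc.card) := Nat.mul_le_mul_right _ h5
        calc (M.card - 1) * q ≤ (M.card - 1) * (Bc.card + 2 * ((M + Bc).card - Bc.card)) := h4
          _ = (M.card - 1) * Bc.card + (M.card - 1) * 2 * ((M + Bc).card - Bc.card) := by ring
          _ ≤ _ := by omega
  have hsum := Finset.sum_le_sum hpt
  rw [Finset.sum_add_distrib, ← Finset.mul_sum, ← Finset.mul_sum, ← Finset.mul_sum,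
    ← hS, ← hB] at hsum
  have hD : ∑ c ∈ T, ((M + cls B Q c).card - (cls B Q c).card) ≤ M.card - 1 := by omega
  have h7 : (q - 1) * ∑ c ∈ T, ((M + cls B Q c).card - (cls B Q c).card) ≤
      (q - 1) * (M.card - 1) := Nat.mul_le_mul_left _ hD
  have h8 : (M.card - 1) * (sat B Q).card ≤ (M.card - 1) * (B.card + (q - 1)) := by
    calc (M.card - 1) * (sat B Q).card ≤ _ := hsum
      _ ≤ (M.card - 1) * B.card + (q - 1) * (M.card - 1) := by omega
      _ = _ := by ring
  have h9 := Nat.le_of_mul_le_mul_left h8 (by omega)
  have hqp : 1 ≤ q := card_F_pos Q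
  omega

lemma sidon_translate {M : Finset G} (hM : Sidon M) (g : G) : Sidon ({g} + M) := by
  intro a b hab
  rw [← add_assoc, ← add_assoc, Finset.singleton_add_singleton, Finset.singleton_add_singleton]
  exact hM _ _ (fun h => hab (add_right_cancel h))

lemma key {B : Finset G} {Q : AddSubgroup G} (hBQ : B ⊆ F Q) (h2 : 2 ≤ B.card)
    (hNK : NK B Q) {X : Finset G} (hX : Crit B Q X) :
    ∃ d, d ≠ 0 ∧ d ∈ Q ∧ (B ∪ ({d} + B)).card ≤ B.card + 1 := by
  have hBne : B.Nonempty := Finset.card_pos.1 (by omega)
  obtain ⟨M₀, hM₀, hM₀s⟩ := exists_atom hBne hBQ hNK hX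
  have hM₀S := sidon_of hM₀s
  obtain ⟨m₀, hm₀⟩ : M₀.Nonempty := Finset.card_pos.1 (by have := hM₀.two; omega)
  -- translate
  set M := ({-m₀} + M₀ : Finset G) with hM
  have hMs : Sidon M := sidon_translate hM₀S _
  have hM0 : (0 : G) ∈ M := by rw [hM, mem_single_add]; simpa using hm₀
  have hMcard : M.card = M₀.card := card_single_add _ _
  have hMBcard : (M + B).card = (M₀ + B).card := by rw [hM, add_assoc, card_single_add]
  have hMQ : M ⊆ F Q := by
    intro x hx
    rw [hM, mem_single_add] at hx
    have h1 := mem_F.1 (hM₀.sub hx)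
    have h3 := mem_F.1 (hM₀.sub hm₀)
    rw [mem_F]
    have := Q.sub_mem h1 h3
    have e : x - -m₀ - m₀ = x := by abel
    rwa [e] at this
  have htwo := hM₀.two
  have hle := hM₀.le
  have hroom := hM₀.room
  rw [← hMcard] at htwo hle
  rw [← hMBcard] at hle hroom
  by_cases h3 : M.card = 2
  · -- two elements
    obtain ⟨a, b, hab, hMab⟩ := Finset.card_eq_two.1 h3
    have h0ab : (0 : G) = a ∨ (0 : G) = b := by
      rw [hMab] at hM0
      simpa using hM0
    have hmain : ∀ d : G, d ≠ 0 → M = {0, d} → ∃ d, d ≠ 0 ∧ d ∈ Q ∧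
        (B ∪ ({d} + B)).card ≤ B.card + 1 := by
      intro d hd hMd
      refine ⟨d, hd, ?_, ?_⟩
      · rw [← mem_F]; apply hMQ; rw [hMd]; simp
      · have : M + B = B ∪ ({d} + B) := by
          rw [hMd, Finset.insert_eq, Finset.union_add, Finset.singleton_zero, zero_add]
        rw [← this]; omega
    rcases h0ab with h | h
    · subst h
      exact hmain b (Ne.symm hab) hMab
    · subst h
      exact hmain a hab (by rw [hMab, Finset.pair_comm])
  · exfalso
    have h3' : 3 ≤ M.card := by omega
    set Q' := AddSubgroup.closure (M : Set G) with hQ'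
    have hMQ' : M ⊆ F Q' := by
      intro x hx
      rw [mem_F]
      exact AddSubgroup.subset_closure hx
    have hgen : ∀ K : AddSubgroup G, (∀ x ∈ M, x ∈ K) → Q' ≤ K := by
      intro K hK
      rw [hQ', AddSubgroup.closure_le]
      intro x hx
      exact hK x hx
    have hQ'Q : Q' ≤ Q := hgen Q (fun x hx => mem_F.1 (hMQ hx))
    have hNKM : NK M Q' := sidon_NK hM0 hgen hMs
    have hMne : M.Nonempty := ⟨0, hM0⟩
    by_cases hno : ∀ X, ¬ Crit M Q' X
    · have hcount := class_count hM0 hMQ' htwo hMs hgen hle hno
      have hQ'ne : Q' ≠ ⊥ := by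
        intro hbot
        have h1 : M ⊆ F Q' := hMQ'
        rw [hbot] at h1
        have := Finset.card_le_card h1
        rw [F_bot_card] at this
        omega
      have hQeq : Q' = Q := by
        by_contra hne
        have := hNK Q' hQ'ne (lt_of_le_of_ne hQ'Q hne)
        have := card_F_pos Q'
        omega
      apply hno B
      refine ⟨?_, h2, ?_, ?_⟩
      · rw [hQeq]; exact hBQ
      · rw [add_comm B M]; omega
      · rw [add_comm B M, hQeq]; exact hroom
    · push Not at hno
      obtain ⟨Y, hY⟩ := hno
      obtain ⟨N, hN, hNs⟩ := exists_atom hMne hMQ' hNKM hY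
      have hNS := sidon_of hNs
      have i1 := hMs.two hN.two
      have i2 := hN.le
      have i3 := hN.two
      have hNc : 3 ≤ N.card := by omega
      have i4 := hNS.three h3'
      rw [add_comm M N] at i4
      omega

/-- In a group of exponent `p`, a critical set is close to being periodic. -/
lemma exists_subgroup {p : ℕ} (hp : p.Prime) (hG : ∀ x : G, p • x = 0) {B : Finset G}
    {Q : AddSubgroup G} (hBQ : B ⊆ F Q) (h2 : 2 ≤ B.card) (hQ : p < (F Q).card)
    (h2B : (B + B).card + 1 ≤ 2 * B.card) (hroom : (B + B).card + 2 ≤ (F Q).card) :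
    ∃ K : AddSubgroup G, K ≠ ⊥ ∧ K < Q ∧ (sat B K).card < B.card + (F K).card := by
  by_contra hcon
  push Not at hcon
  have hNK : NK B Q := fun K hK hKQ => hcon K hK hKQ
  have hBcrit : Crit B Q B := ⟨hBQ, h2, by omega, hroom⟩
  obtain ⟨d, hd0, hdQ, hd⟩ := key hBQ h2 hNK hBcrit
  have := Fact.mk hp
  have hord : addOrderOf d = p := addOrderOf_eq_prime (hG d) hd0
  set K := AddSubgroup.zmultiples d with hK
  have hKcard : (F K).card = p := by
    have h1 : Nat.card K = p := by rw [hK, Nat.card_zmultiples, hord]
    rw [← h1, Nat.card_eq_fintype_card, Fintype.card_subtype]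
    rfl
  have hKne : K ≠ ⊥ := by
    intro h
    have : d ∈ (⊥ : AddSubgroup G) := by rw [← h]; exact AddSubgroup.mem_zmultiples d
    exact hd0 (by simpa using this)
  have hKQ : K ≤ Q := by
    rw [hK, AddSubgroup.zmultiples_le]
    exact hdQ
  have hKlt : K < Q := by
    apply lt_of_le_of_ne hKQ
    intro h
    rw [h] at hKcard
    omega
  have hlow := hNK K hKne hKlt
  -- step sets
  have hstep : ∀ j : ℕ, (B + (Finset.range (j + 1)).image (fun i => i • d)).card ≤ B.card + j := by
    intro j
    induction j with
    | zero => simp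
    | succ j ih =>
      have hsub : B + (Finset.range (j + 1 + 1)).image (fun i => i • d) ⊆
          (B + (Finset.range (j + 1)).image (fun i => i • d)) ∪
            ((({d} + B) \ B).image (fun x => x + j • d)) := by
        intro x hx
        obtain ⟨b, hb, y, hy, rfl⟩ := Finset.mem_add.1 hx
        obtain ⟨i, hi, rfl⟩ := Finset.mem_image.1 hy
        rw [Finset.mem_range] at hi
        rw [Finset.mem_union]
        by_cases hij : i < j + 1
        · left
          exact Finset.add_mem_add hb (Finset.mem_image_of_mem _ (Finset.mem_range.2 hij))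
        · have hij' : i = j + 1 := by omega
          subst hij'
          by_cases hbd : b + d ∈ B
          · left
            have e : b + (j + 1) • d = (b + d) + j • d := by
              rw [succ_nsmul]; abel
            rw [e]
            exact Finset.add_mem_add hbd (Finset.mem_image_of_mem _ (Finset.mem_range.2 (by omega)))
          · right
            rw [Finset.mem_image]
            refine ⟨b + d, ?_, ?_⟩
            · rw [Finset.mem_sdiff, mem_single_add]
              exact ⟨by simpa using hb, hbd⟩
            · rw [succ_nsmul]; abel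
      have h1 := Finset.card_le_card hsub
      have h3 := Finset.card_union_le (B + (Finset.range (j + 1)).image (fun i => i • d))
        ((({d} + B) \ B).image (fun x => x + j • d))
      have h4 : ((({d} + B) \ B).image (fun x => x + j • d)).card ≤ 1 := by
        rw [Finset.card_image_of_injective _ (add_left_injective _)]
        have := Finset.card_sdiff_add_card ({d} + B) B
        rw [Finset.union_comm] at this
        omega
      omega
  have hsat : sat B K ⊆ B + (Finset.range (p - 1 + 1)).image (fun i => i • d) := by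
    intro x hx
    obtain ⟨b, hb, hxb⟩ := mem_sat.1 hx
    rw [hK] at hxb
    have : x - b ∈ (Finset.range p).image (fun i => i • d) := by
      have h1 := (mem_zmultiples_iff_mem_range_addOrderOf (x := d) (y := x - b)).1 hxb
      rw [hord] at h1
      exact h1
    have hp1 : p - 1 + 1 = p := by have := hp.pos; omega
    rw [hp1]
    have e : x = b + (x - b) := by abel
    rw [e]
    exact Finset.add_mem_add hb this
  have h5 := Finset.card_le_card hsat
  have h6 := hstep (p - 1)
  have := hp.pos
  omega

end Pool.Agent.Helper58
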