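import Mathlib
import Pool.Agent.Helper58.Atoms

set_option autoImplicit false
set_option linter.unusedSectionVars false

open Finset Pointwise
open scoped Classical

namespace Pool.Agent.Helper58

variable {G : Type*} [AddCommGroup G] [Fintype G]

/-- iterated sumset -/
noncomputable def hs : ℕ → Finset G → Finset G
  | 0, _ => {0}
  | (n+1), B => hs n B + B

lemma hs_zero (B : Finset G) : hs 0 B = {0} := rfl
lemma hs_succ (n : ℕ) (B : Finset G) : hs (n+1) B = hs n B + B := rfl
lemma hs_one (B : Finset G) : hs 1 B = B := by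
  rw [hs_succ, hs_zero, Finset.singleton_zero, zero_add]
lemma hs_two (B : Finset G) : hs 2 B = B + B := by
  rw [hs_succ, hs_one]

lemma hs_nonempty {B : Finset G} (hB : B.Nonempty) (n : ℕ) : (hs n B).Nonempty := by
  induction n with
  | zero => exact Finset.singleton_nonempty 0
  | succ n ih => exact ih.add hB

lemma hs_mono {B C : Finset G} (h : B ⊆ C) (n : ℕ) : hs n B ⊆ hs n C := by
  induction n with
  | zero => exact subset_refl _
  | succ n ih => exact Finset.add_subset_add ih h

lemma hs_add (m n : ℕ) (B : Finset G) : hs (m + n) B = hs m B + hs n B := by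
  induction n with
  | zero => rw [hs_zero, Finset.singleton_zero, add_zero, add_zero]
  | succ n ih => rw [← add_assoc, hs_succ, ih, hs_succ, add_assoc]

lemma stab_hs_le (B : Finset G) (j k : ℕ) : stab (hs j B) ≤ stab (hs (j + k) B) := by
  rw [hs_add]; exact stab_add_left _ _

lemma hs_translate (g : G) (B : Finset G) (n : ℕ) : hs n ({g} + B) = {n • g} + hs n B := by
  induction n with
  | zero => simp [hs_zero]
  | succ n ih =>
    rw [hs_succ, ih, hs_succ, succ_nsmul, ← Finset.singleton_add_singleton]
    rw [add_add_add_comm]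

lemma nsmul_mem_hs {B : Finset G} {b : G} (hb : b ∈ B) (n : ℕ) : n • b ∈ hs n B := by
  induction n with
  | zero => simp [hs_zero]
  | succ n ih => rw [succ_nsmul, hs_succ]; exact Finset.add_mem_add ih hb

lemma pigeon {X Y : Finset G} {K : AddSubgroup G} {b c : G} (hX : X ⊆ coset K b)
    (hY : Y ⊆ coset K c) (h : (F K).card < X.card + Y.card) : coset K (b + c) ⊆ X + Y := by
  intro z hz
  rw [mem_coset] at hz
  set Y' := Y.image (fun y => z - y) with hY'
  have hY'c : Y'.card = Y.card := Finset.card_image_of_injective _ sub_right_injective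
  have hY's : Y' ⊆ coset K b := by
    intro x hx
    obtain ⟨y, hy, rfl⟩ := Finset.mem_image.1 hx
    have := mem_coset.1 (hY hy)
    rw [mem_coset]
    have e : z - y - b = (z - (b + c)) - (y - c) := by abel
    rw [e]
    exact K.sub_mem hz this
  have hne : (X ∩ Y').Nonempty := by
    rw [Finset.nonempty_iff_ne_empty]
    intro he
    have h1 := Finset.card_union_add_card_inter X Y'
    rw [he, Finset.card_empty] at h1
    have h2 := Finset.card_le_card (Finset.union_subset hX hY's)
    rw [card_coset] at h2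
    omega
  obtain ⟨x, hx⟩ := hne
  rw [Finset.mem_inter] at hx
  obtain ⟨y, hy, hyx⟩ := Finset.mem_image.1 hx.2
  refine Finset.mem_add.2 ⟨x, hx.1, y, hy, ?_⟩
  rw [← hyx]; abel

/-- `B ∩ (b + K)` -/
noncomputable def BK (B : Finset G) (K : AddSubgroup G) (b : G) : Finset G := B ∩ coset K b

lemma BK_sub (B : Finset G) (K : AddSubgroup G) (b : G) : BK B K b ⊆ B := Finset.inter_subset_left
lemma BK_sub' (B : Finset G) (K : AddSubgroup G) (b : G) : BK B K b ⊆ coset K b :=
  Finset.inter_subset_right
lemma mem_BK {B : Finset G} {K : AddSubgroup G} {b x : G} :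
    x ∈ BK B K b ↔ x ∈ B ∧ x - b ∈ K := by
  rw [BK, Finset.mem_inter, mem_coset]
lemma mem_BK_self {B : Finset G} {K : AddSubgroup G} {b : G} (hb : b ∈ B) : b ∈ BK B K b := by
  rw [mem_BK]; exact ⟨hb, by simp [K.zero_mem]⟩

lemma BK_congr {B : Finset G} {K : AddSubgroup G} {b c : G} (h : b - c ∈ K) :
    BK B K b = BK B K c := by
  ext x
  rw [mem_BK, mem_BK]
  have e1 : x - c = (x - b) + (b - c) := by abel
  have e2 : x - b = (x - c) - (b - c) := by abel
  constructor
  · rintro ⟨h1, h2⟩; exact ⟨h1, by rw [e1]; exact K.add_mem h2 h⟩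
  · rintro ⟨h1, h2⟩; exact ⟨h1, by rw [e2]; exact K.sub_mem h2 h⟩

/-- two classes have few holes -/
lemma two_classes {B : Finset G} {K : AddSubgroup G} (hK : (sat B K).card < B.card + (F K).card)
    {b c : G} (hb : b ∈ B) (hc : c ∈ B) (hbc : b - c ∉ K) :
    (F K).card < (BK B K b).card + (BK B K c).card := by
  have h1 : coset K b ⊆ sat B K := by
    intro x hx; exact mem_sat.2 ⟨b, hb, mem_coset.1 hx⟩
  have h2 : coset K c ⊆ sat B K := by
    intro x hx; exact mem_sat.2 ⟨c, hc, mem_coset.1 hx⟩
  have h3 : B ∪ ((coset K b \ B) ∪ (coset K c \ B)) ⊆ sat B K := by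
    apply Finset.union_subset (subset_sat B K)
    apply Finset.union_subset
    · exact Finset.sdiff_subset.trans h1
    · exact Finset.sdiff_subset.trans h2
  have h4 := Finset.card_le_card h3
  have hd1 : Disjoint B ((coset K b \ B) ∪ (coset K c \ B)) := by
    rw [Finset.disjoint_left]
    intro x hx hx2
    rw [Finset.mem_union, Finset.mem_sdiff, Finset.mem_sdiff] at hx2
    tauto
  have hd2 : Disjoint (coset K b \ B) (coset K c \ B) := by
    rw [Finset.disjoint_left]
    intro x hx hx2
    rw [Finset.mem_sdiff, mem_coset] at hx hx2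
    apply hbc
    have := K.sub_mem hx2.1 hx.1
    have e : x - c - (x - b) = b - c := by abel
    rwa [e] at this
  rw [Finset.card_union_of_disjoint hd1, Finset.card_union_of_disjoint hd2] at h4
  have h5 := Finset.card_sdiff_add_card_inter (coset K b) B
  have h6 := Finset.card_sdiff_add_card_inter (coset K c) B
  rw [card_coset, Finset.inter_comm] at h5 h6
  change (coset K b \ B).card + (BK B K b).card = (F K).card at h5
  change (coset K c \ B).card + (BK B K c).card = (F K).card at h6
  omega

lemma coset_add_mem {K : AddSubgroup G} {z c x : G} (h : x ∈ coset K (z + c)) :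
    x - c ∈ coset K z := by
  rw [mem_coset] at *
  have e : x - c - z = x - (z + c) := by abel
  rw [e]; exact h

/-- structure of partially filled classes of `hs j B` -/
lemma full_or_single {B : Finset G} {K : AddSubgroup G}
    (hK : (sat B K).card < B.card + (F K).card) (j : ℕ) :
    ∀ y ∈ hs (j + 1) B, coset K y ⊆ hs (j + 1) B ∨ ∃ c ∈ B, y ∈ hs (j + 1) (BK B K c) := by
  induction j with
  | zero =>
    intro y hy
    right
    rw [zero_add, hs_one] at hy
    exact ⟨y, hy, by rw [zero_add, hs_one]; exact mem_BK_self hy⟩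
  | succ j ih =>
    intro y hy
    rw [hs_succ] at hy
    obtain ⟨z, hz, b, hb, rfl⟩ := Finset.mem_add.1 hy
    rcases ih z hz with h | ⟨c, hc, hzc⟩
    · left
      intro x hx
      have h1 := h (coset_add_mem hx)
      rw [hs_succ (j + 1)]
      have e : x = (x - b) + b := by abel
      rw [e]; exact Finset.add_mem_add h1 hb
    · by_cases hbc : b - c ∈ K
      · right
        refine ⟨c, hc, ?_⟩
        rw [hs_succ (j + 1)]
        exact Finset.add_mem_add hzc (mem_BK.2 ⟨hb, hbc⟩)
      · left
        rw [hs_succ] at hzc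
        obtain ⟨z', hz', c', hc', rfl⟩ := Finset.mem_add.1 hzc
        rw [mem_BK] at hc'
        have hbc' : c' - b ∉ K := by
          intro h
          apply hbc
          have := K.sub_mem hc'.2 h
          have e : c' - c - (c' - b) = b - c := by abel
          rwa [e] at this
        have h1 := two_classes hK hc'.1 hb hbc'
        have h2 := pigeon (BK_sub' B K c') (BK_sub' B K b) h1
        intro x hx
        have hx2 : x - z' ∈ coset K (c' + b) := by
          rw [mem_coset] at hx ⊢
          have e : x - z' - (c' + b) = x - (z' + c' + b) := by abel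
          rw [e]; exact hx
        have h3 := h2 hx2
        obtain ⟨u, hu, v, hv, huv⟩ := Finset.mem_add.1 h3
        have e : x = (z' + u) + v := by
          rw [add_assoc, huv]; abel
        rw [e, hs_succ, hs_succ]
        exact Finset.add_mem_add (Finset.add_mem_add (hs_mono (BK_sub B K c) j hz')
          (BK_sub B K c' hu)) (BK_sub B K b hv)

lemma sub_mem_of_hs_BK {B : Finset G} {K : AddSubgroup G} {c : G} (n : ℕ) :
    ∀ y ∈ hs n (BK B K c), y - n • c ∈ K := by
  induction n with
  | zero =>
    intro y hy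
    rw [hs_zero, Finset.mem_singleton] at hy
    subst hy
    simp [K.zero_mem]
  | succ n ih =>
    intro y hy
    rw [hs_succ] at hy
    obtain ⟨z, hz, b, hb, rfl⟩ := Finset.mem_add.1 hy
    have h1 := ih z hz
    rw [mem_BK] at hb
    have e : z + b - (n + 1) • c = (z - n • c) + (b - c) := by rw [succ_nsmul]; abel
    rw [e]
    exact K.add_mem h1 hb.2

lemma stab_hs_bot {B : Finset G} {h j : ℕ} (hj : j ≤ h) (hstab : stab (hs h B) = ⊥) :
    stab (hs j B) = ⊥ := by
  obtain ⟨k, rfl⟩ := Nat.exists_eq_add_of_le hj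
  exact le_bot_iff.1 (hstab ▸ stab_hs_le B j k)

lemma F_card_eq (K : AddSubgroup G) : (F K).card = Nat.card K := by
  rw [Nat.card_eq_fintype_card, Fintype.card_subtype]
  rfl

lemma odd_card {p : ℕ} (hp : p.Prime) (hp2 : p ≠ 2) (hG : ∀ x : G, p • x = 0)
    (K : AddSubgroup G) : Odd (F K).card := by
  by_contra hcon
  rw [Nat.not_odd_iff_even, even_iff_two_dvd, F_card_eq] at hcon
  have h2 : Fact (Nat.Prime 2) := ⟨Nat.prime_two⟩
  obtain ⟨x, hx⟩ := exists_prime_addOrderOf_dvd_card' 2 hcon
  have h3 : p • x = 0 := by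
    apply Subtype.ext
    simpa using hG (x : G)
  have h4 := addOrderOf_dvd_of_nsmul_eq_zero h3
  rw [hx] at h4
  exact hp2 ((Nat.prime_dvd_prime_iff_eq Nat.prime_two hp).1 h4).symm

lemma mem_of_nsmul_mem {p : ℕ} (hG : ∀ x : G, p • x = 0) {K : AddSubgroup G} {n : ℕ}
    (hn : Nat.Coprime n p) {c : G} (h : n • c ∈ K) : c ∈ K := by
  obtain ⟨a, b, hab⟩ := Nat.isCoprime_iff_coprime.2 hn
  have e : c = a • (n • c) + b • (p • c) := by
    have : (a * (n : ℤ) + b * (p : ℤ)) • c = c := by rw [hab, one_smul]
    rw [add_smul, mul_smul, mul_smul] at this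
    simpa using this.symm
  rw [e, hG c, smul_zero, add_zero]
  exact K.zsmul_mem h a

lemma two_card {h : ℕ} (hh : 2 ≤ h) {B : Finset G} (h2 : 2 ≤ B.card)
    (hstab : stab (hs h B) = ⊥) (hcard : (hs h B).card = h * (B.card - 1) + 1) :
    (B + B).card + 1 = 2 * B.card := by
  have hB : B.Nonempty := Finset.card_pos.1 (by omega)
  have hk : ∀ k, 2 + k ≤ h → (hs 2 B).card + k * (B.card - 1) ≤ (hs (2 + k) B).card := by
    intro k
    induction k with
    | zero => intro _; simp
    | succ k ih =>
      intro hk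
      have h1 := ih (by omega)
      have h3 := kneser_weak (hs_nonempty hB (2 + k)) hB
      rw [← hs_succ, stab_hs_bot (by omega : 2 + k + 1 ≤ h) hstab, F_bot_card] at h3
      rw [← add_assoc, add_mul, one_mul]
      omega
  have h1 := hk (h - 2) (by omega)
  have e : 2 + (h - 2) = h := by omega
  rw [e, hcard, hs_two] at h1
  have h3 := kneser_weak hB hB
  rw [← hs_two, stab_hs_bot hh hstab, F_bot_card, hs_two] at h3
  obtain ⟨t, rfl⟩ : ∃ t, h = t + 2 := ⟨h - 2, by omega⟩
  have e2 : t + 2 - 2 = t := by omega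
  rw [e2, add_mul] at h1
  omega

/-- The contradiction coming from a nearly periodic set. -/
lemma no_near_period {p : ℕ} (hp : p.Prime) (hp2 : p ≠ 2) (hG : ∀ x : G, p • x = 0) {h : ℕ}
    (hh : 2 ≤ h) (hhp : h < p) {B : Finset G} (h2 : 2 ≤ B.card)
    (hstab : stab (hs h B) = ⊥) (hBB : (B + B).card + 1 = 2 * B.card)
    (S1 : ∀ x ∈ hs h B, -x ∈ hs h B)
    (S2 : ∀ b₁ ∈ B, ∀ b₂ ∈ B, b₁ ≠ b₂ → ∀ C : Finset G, C ⊆ B → b₁ ∉ C → b₂ ∉ C →
      ∀ z ∈ hs (h - 2) C, b₁ - b₂ + z ∈ hs h B)
    {K : AddSubgroup G} (hKne : K ≠ ⊥) (hK : (sat B K).card < B.card + (F K).card)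
    (hBK : ∃ b ∈ B, ∃ c ∈ B, b - c ∉ K) : False := by
  have hBne : B.Nonempty := Finset.card_pos.1 (by omega)
  have hodd := odd_card hp hp2 hG K
  have hK3 : 3 ≤ (F K).card := by
    obtain ⟨x, hx, hx0⟩ := exists_ne_zero_of_ne_bot hKne
    have h1 : 1 < (F K).card := Finset.one_lt_card.2 ⟨0, by simp [K.zero_mem], x, by simp [hx],
      Ne.symm hx0⟩
    obtain ⟨t, ht⟩ := hodd
    omega
  -- big classes are full after doubling
  have hbig : ∀ c ∈ B, (F K).card < 2 * (BK B K c).card → coset K (h • c) ⊆ hs h B := by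
    intro c hc hc2
    have h1 := pigeon (BK_sub' B K c) (BK_sub' B K c) (by omega)
    have e : h • c = (h - 2) • c + (c + c) := by
      obtain ⟨t, rfl⟩ : ∃ t, h = t + 2 := ⟨h - 2, by omega⟩
      rw [Nat.add_sub_cancel, add_nsmul, two_nsmul]
    intro x hx
    have hx2 : x - (h - 2) • c ∈ coset K (c + c) := by
      rw [mem_coset] at hx ⊢
      rw [e] at hx
      have e2 : x - (h - 2) • c - (c + c) = x - ((h - 2) • c + (c + c)) := by abel
      rw [e2]; exact hx
    have h3 := h1 hx2
    have e3 : hs h B = hs (h - 2) B + hs 2 B := by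
      rw [← hs_add]; congr 1; omega
    rw [e3, hs_two]
    have e4 : x = (h - 2) • c + (x - (h - 2) • c) := by abel
    rw [e4]
    exact Finset.add_mem_add (nsmul_mem_hs hc _)
      (Finset.add_subset_add (BK_sub B K c) (BK_sub B K c) h3)
  -- analysis of partially filled cosets
  have hpart : ∀ y ∈ hs h B, ¬ coset K y ⊆ hs h B → ∃ c ∈ B, y ∈ hs h (BK B K c) ∧
      y - h • c ∈ K ∧ 2 * (BK B K c).card ≤ (F K).card := by
    intro y hy hny
    have h1 := full_or_single hK (h - 1) y (by
      have : h - 1 + 1 = h := by omega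
      rw [this]; exact hy)
    have e : h - 1 + 1 = h := by omega
    rw [e] at h1
    rcases h1 with h1 | ⟨c, hc, hyc⟩
    · exact absurd h1 hny
    · have h3 := sub_mem_of_hs_BK h y hyc
      refine ⟨c, hc, hyc, h3, ?_⟩
      by_contra hcon
      push Not at hcon
      apply hny
      intro x hx
      apply hbig c hc hcon
      rw [mem_coset] at hx ⊢
      have e2 : x - h • c = (x - y) + (y - h • c) := by abel
      rw [e2]; exact K.add_mem hx h3
  have hneg : ∀ y, coset K y ⊆ hs h B → coset K (-y) ⊆ hs h B := by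
    intro y hy x hx
    have h1 : -x ∈ coset K y := by
      rw [mem_coset] at hx ⊢
      have := K.neg_mem hx
      have e : -x - y = -(x - -y) := by abel
      rw [e]; exact this
    have := S1 _ (hy h1)
    simpa using this
  -- every partially filled coset is `K`
  have hinK : ∀ y ∈ hs h B, ¬ coset K y ⊆ hs h B → y ∈ K ∧ ∃ c ∈ B, c ∈ K ∧
      y ∈ hs h (BK B K c) ∧ 2 * (BK B K c).card ≤ (F K).card := by
    intro y hy hny
    obtain ⟨c, hc, hyc, hycK, hcsmall⟩ := hpart y hy hny
    have hny' : ¬ coset K (-y) ⊆ hs h B := by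
      intro hcon
      apply hny
      have := hneg _ hcon
      simpa using this
    obtain ⟨c', hc', _, hycK', hcsmall'⟩ := hpart (-y) (S1 y hy) hny'
    have hcc' : c - c' ∈ K := by
      by_contra hcon
      have := two_classes hK hc hc' hcon
      omega
    have h2hc : (2 * h) • c ∈ K := by
      have e : (2 * h) • c = h • (c - c') - (y - h • c) - (-y - h • c') := by
        rw [smul_sub, two_mul, add_nsmul]; abel
      rw [e]
      exact K.sub_mem (K.sub_mem (K.nsmul_mem hcc' h) hycK) hycK'
    have hcop : Nat.Coprime (2 * h) p := by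
      apply Nat.Coprime.mul_left
      · exact (Nat.coprime_primes Nat.prime_two hp).2 (Ne.symm hp2)
      · exact Nat.Coprime.symm ((Nat.Prime.coprime_iff_not_dvd hp).2
          (fun hd => absurd (Nat.le_of_dvd (by omega) hd) (by omega)))
    have hcK : c ∈ K := mem_of_nsmul_mem hG hcop h2hc
    refine ⟨?_, c, hc, hcK, hyc, hcsmall⟩
    have e : y = (y - h • c) + h • c := by abel
    rw [e]
    exact K.add_mem hycK (K.nsmul_mem hcK h)
  -- there is a partially filled coset
  obtain ⟨k, hkK, hk0⟩ := exists_ne_zero_of_ne_bot hKne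
  have hkns : k ∉ stab (hs h B) := by
    rw [hstab]; simpa using hk0
  obtain ⟨y, hy, hky⟩ : ∃ y ∈ hs h B, k + y ∉ hs h B := by
    by_contra hcon
    push Not at hcon
    exact hkns (mem_stab_of_forall hcon)
  have hny : ¬ coset K y ⊆ hs h B := by
    intro hcon
    apply hky
    apply hcon
    rw [mem_coset]
    simpa using hkK
  obtain ⟨hyK, c, hc, hcK, hyc, hcsmall⟩ := hinK y hy hny
  have hcosetK : ∀ z ∈ K, coset K z = F K := by
    intro z hz
    ext x
    rw [mem_coset, mem_F]
    constructor
    · intro hx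
      have := K.add_mem hx hz
      simpa using this
    · intro hx
      exact K.sub_mem hx hz
  have hFK : ¬ F K ⊆ hs h B := by rw [← hcosetK y hyK]; exact hny
  -- a class different from `K`
  obtain ⟨b, hb, hbK⟩ : ∃ b ∈ B, b ∉ K := by
    obtain ⟨b, hb, b', hb', hbb'⟩ := hBK
    by_cases hbK : b ∈ K
    · refine ⟨b', hb', fun h' => hbb' (K.sub_mem hbK h')⟩
    · exact ⟨b, hb, hbK⟩
  have hbc : b - c ∉ K := fun h' => hbK (by
    have := K.add_mem h' hcK
    simpa using this)
  have htc := two_classes hK hb hc hbc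
  have hbbig : (F K).card < 2 * (BK B K b).card := by omega
  -- all differences
  have hdiff : ∀ k' ∈ K, k' ≠ 0 → ∀ z ∈ hs (h - 2) (BK B K c), k' + z ∈ hs h B := by
    intro k' hk' hk'0 z hz
    -- find b₁ b₂ in the class of b with b₁ - b₂ = k'
    have hne : ((BK B K b) ∩ ({k'} + BK B K b)).Nonempty := by
      rw [Finset.nonempty_iff_ne_empty]
      intro he
      have h1 := Finset.card_union_add_card_inter (BK B K b) ({k'} + BK B K b)
      rw [he, Finset.card_empty, card_single_add] at h1
      have h3 : (BK B K b) ∪ ({k'} + BK B K b) ⊆ coset K b := by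
        apply Finset.union_subset (BK_sub' B K b)
        intro x hx
        rw [mem_single_add] at hx
        have := mem_coset.1 (BK_sub' B K b hx)
        rw [mem_coset]
        have e : x - b = (x - k' - b) + k' := by abel
        rw [e]; exact K.add_mem this hk'
      have h4 := Finset.card_le_card h3
      rw [card_coset] at h4
      omega
    obtain ⟨b₁, hb₁⟩ := hne
    rw [Finset.mem_inter, mem_single_add] at hb₁
    obtain ⟨hb₁, hb₂⟩ := hb₁
    have hnot : ∀ x ∈ BK B K b, x ∉ BK B K c := by
      intro x hx hx2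
      rw [mem_BK] at hx hx2
      apply hbc
      have := K.sub_mem hx2.2 hx.2
      have e : x - c - (x - b) = b - c := by abel
      rwa [e] at this
    have := S2 b₁ (BK_sub B K b hb₁) (b₁ - k') (BK_sub B K b hb₂)
      (by intro h'; apply hk'0; have : b₁ - (b₁ - k') = 0 := by rw [← h']; abel
          simpa using this)
      (BK B K c) (BK_sub B K c) (hnot _ hb₁) (hnot _ hb₂) z hz
    have e : b₁ - (b₁ - k') + z = k' + z := by abel
    rwa [e] at this
  have hcBK : c ∈ BK B K c := mem_BK_self hc
  -- elements of `hs (h-2) (BK c)` lie in K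
  have hzK : ∀ z ∈ hs (h - 2) (BK B K c), z ∈ K := by
    intro z hz
    have h1 := sub_mem_of_hs_BK (h - 2) z hz
    have e : z = (z - (h - 2) • c) + (h - 2) • c := by abel
    rw [e]
    exact K.add_mem h1 (K.nsmul_mem hcK _)
  -- uniqueness
  have huniq : ∀ z ∈ hs (h - 2) (BK B K c), ∀ x ∈ K, x ∉ hs h B → x = z := by
    intro z hz x hx hxn
    by_contra hne
    apply hxn
    have := hdiff (x - z) (K.sub_mem hx (hzK z hz)) (sub_ne_zero.2 hne) z hz
    simpa using this
  obtain ⟨x₀, hx₀, hx₀n⟩ : ∃ x ∈ K, x ∉ hs h B := by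
    by_contra hcon
    push Not at hcon
    apply hFK
    intro x hx
    exact hcon x (mem_F.1 hx)
  by_cases hh3 : 3 ≤ h
  · -- then `BK c` is a single element
    have hsingle : ∀ c₁ ∈ BK B K c, c₁ = c := by
      intro c₁ hc₁
      have e : h - 2 = (h - 3) + 1 := by omega
      have h1 : (h - 3) • c + c₁ ∈ hs (h - 2) (BK B K c) := by
        rw [e, hs_succ]
        exact Finset.add_mem_add (nsmul_mem_hs hcBK _) hc₁
      have h3 : (h - 3) • c + c ∈ hs (h - 2) (BK B K c) := by
        rw [e, hs_succ]
        exact Finset.add_mem_add (nsmul_mem_hs hcBK _) hcBK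
      have h4 := huniq _ h1 x₀ hx₀ hx₀n
      have h5 := huniq _ h3 x₀ hx₀ hx₀n
      rw [h4] at h5
      exact add_left_cancel h5
    have hBKc : BK B K c = {c} := by
      apply Finset.eq_singleton_iff_unique_mem.2
      exact ⟨hcBK, hsingle⟩
    have hsing : ∀ n, hs n ({c} : Finset G) = {n • c} := by
      intro n
      induction n with
      | zero => simp [hs_zero]
      | succ n ih => rw [hs_succ, ih, succ_nsmul, Finset.singleton_add_singleton]
    -- every element of K in `hs h B` is `h • c`
    have hall : ∀ x ∈ K, x ∈ hs h B → x = h • c := by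
      intro x hx hxB
      obtain ⟨_, c'', hc'', hc''K, hxc'', _⟩ := hinK x hxB (by rw [hcosetK x hx]; exact hFK)
      have e : BK B K c'' = BK B K c := BK_congr (K.sub_mem hc''K hcK)
      rw [e, hBKc, hsing, Finset.mem_singleton] at hxc''
      exact hxc''
    have hcardK : (F K).card ≤ 2 := by
      have : F K ⊆ {x₀, h • c} := by
        intro x hx
        rw [mem_F] at hx
        rw [Finset.mem_insert, Finset.mem_singleton]
        by_cases hxB : x ∈ hs h B
        · right; exact hall x hx hxB
        · left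
          have hz := nsmul_mem_hs hcBK (h - 2)
          rw [huniq _ hz x hx hxB, huniq _ hz x₀ hx₀ hx₀n]
      exact (Finset.card_le_card this).trans Finset.card_le_two
    omega
  · -- h = 2
    have hh2 : h = 2 := by omega
    subst hh2
    have h0 : (0 : G) ∈ hs (2 - 2) (BK B K c) := by simp [hs_zero]
    have hx0 : x₀ = 0 := huniq _ h0 x₀ hx₀ hx₀n
    rw [hs_two] at *
    have hWinv : K ≤ stab ((B + B) ∪ {0}) := by
      intro g hg
      apply mem_stab_of_forall
      intro x hx
      rw [Finset.mem_union, Finset.mem_singleton] at hx ⊢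
      by_cases hxK : x ∈ K
      · by_contra hcon
        push Not at hcon
        apply hcon.2
        exact huniq _ h0 (g + x) (K.add_mem hg hxK) hcon.1
      · rcases hx with hx | hx
        · left
          by_contra hcon
          apply hxK
          refine (hinK x hx ?_).1
          intro hcon2
          apply hcon
          apply hcon2
          rw [mem_coset]
          simpa using hg
        · exact absurd (hx ▸ K.zero_mem) hxK
    have hdvd := dvd_of_inv hWinv
    have hWcard : ((B + B) ∪ {0}).card = 2 * B.card := by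
      rw [Finset.card_union_of_disjoint, Finset.card_singleton, hBB]
      rw [Finset.disjoint_singleton_right]
      rw [← hx0]; exact hx₀n
    rw [hWcard] at hdvd
    have hdvd2 : (F K).card ∣ B.card := by
      apply Nat.Coprime.dvd_of_dvd_mul_left _ hdvd
      exact Nat.coprime_two_right.2 hodd
    have hdvd3 := sat_card_dvd B K
    have hlt : B.card < (sat B K).card := by
      apply Finset.card_lt_card
      refine ⟨subset_sat B K, fun hsub => ?_⟩
      have h1 : coset K c ⊆ BK B K c := by
        intro x hx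
        rw [mem_BK]
        exact ⟨hsub (mem_sat.2 ⟨c, hc, mem_coset.1 hx⟩), mem_coset.1 hx⟩
      have h3 := Finset.card_le_card h1
      rw [card_coset] at h3
      omega
    have hdvd4 := (Nat.dvd_sub hdvd3 hdvd2)
    have := Nat.le_of_dvd (by omega) hdvd4
    omega

/-- Main structural bound. -/
theorem main_bound {p : ℕ} (hp : p.Prime) (hp2 : p ≠ 2) (hG : ∀ x : G, p • x = 0) {h : ℕ}
    (hh : 2 ≤ h) (hhp : h < p) {B : Finset G} (h2 : 2 ≤ B.card)
    (hstab : stab (hs h B) = ⊥) (hcard : (hs h B).card = h * (B.card - 1) + 1)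
    (S1 : ∀ x ∈ hs h B, -x ∈ hs h B)
    (S2 : ∀ b₁ ∈ B, ∀ b₂ ∈ B, b₁ ≠ b₂ → ∀ C : Finset G, C ⊆ B → b₁ ∉ C → b₂ ∉ C →
      ∀ z ∈ hs (h - 2) C, b₁ - b₂ + z ∈ hs h B) :
    h * (B.card - 1) + 1 < p := by
  have hBne : B.Nonempty := Finset.card_pos.1 (by omega)
  have hBB := two_card hh h2 hstab hcard
  obtain ⟨b₀, hb₀⟩ := hBne
  set B₀ := ({-b₀} + B : Finset G) with hB₀
  set Q := AddSubgroup.closure (B₀ : Set G) with hQ
  have hB₀card : B₀.card = B.card := card_single_add _ _
  have h0 : (0 : G) ∈ B₀ := by rw [hB₀, mem_single_add]; simpa using hb₀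
  have hB₀Q : B₀ ⊆ F Q := by
    intro x hx
    rw [mem_F]
    exact AddSubgroup.subset_closure hx
  have hBB₀ : hs h B = {h • b₀} + hs h B₀ := by
    rw [hB₀, hs_translate, ← add_assoc, Finset.singleton_add_singleton, smul_neg,
      add_neg_cancel, Finset.singleton_zero, zero_add]
  have hhsQ : ∀ n, hs n B₀ ⊆ F Q := by
    intro n
    induction n with
    | zero => intro x hx; rw [hs_zero, Finset.mem_singleton] at hx; subst hx; simp [Q.zero_mem]
    | succ n ih =>
      intro x hx
      rw [hs_succ] at hx
      obtain ⟨y, hy, z, hz, rfl⟩ := Finset.mem_add.1 hx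
      rw [mem_F]
      exact Q.add_mem (mem_F.1 (ih hy)) (mem_F.1 (hB₀Q hz))
  have hstab₀ : ∀ j, j ≤ h → stab (hs j B₀) = ⊥ := by
    intro j hj
    apply stab_hs_bot hj
    rw [← hstab]
    apply le_antisymm
    · rw [hBB₀]; exact stab_add_right _ _
    · have : hs h B₀ = {-(h • b₀)} + hs h B := by
        rw [hBB₀, ← add_assoc, Finset.singleton_add_singleton, neg_add_cancel,
          Finset.singleton_zero, zero_add]
      rw [this]; exact stab_add_right _ _
  have hQne : Q ≠ ⊥ := by
    intro hbot
    have h1 : B₀ ⊆ F Q := hB₀Q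
    rw [hbot] at h1
    have := Finset.card_le_card h1
    rw [F_bot_card] at this
    omega
  have hnotfull : ∀ j, j ≤ h → hs j B₀ ≠ F Q := by
    intro j hj heq
    have h1 := hstab₀ j hj
    rw [heq] at h1
    apply hQne
    rw [← le_bot_iff, ← h1]
    intro g hg
    apply mem_stab_of_forall
    intro x hx
    rw [mem_F] at hx ⊢
    exact Q.add_mem hg hx
  have hltQ : ∀ j, j ≤ h → (hs j B₀).card < (F Q).card := by
    intro j hj
    apply Finset.card_lt_card
    exact Finset.ssubset_iff_subset_ne.2 ⟨hhsQ j, hnotfull j hj⟩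
  have hcard₀ : (hs h B₀).card = (hs h B).card := by rw [hBB₀, card_single_add]
  by_cases hpQ : (F Q).card ≤ p
  · have := hltQ h (le_refl h)
    omega
  · exfalso
    push Not at hpQ
    have hB₀B₀ : (B₀ + B₀).card = (B + B).card := by
      rw [hB₀]
      have : ({-b₀} + B) + ({-b₀} + B) = ({-b₀} + {-b₀}) + (B + B) := add_add_add_comm _ _ _ _
      rw [this, Finset.singleton_add_singleton, card_single_add]
    have hoddQ := odd_card hp hp2 hG Q
    have hroom : (B₀ + B₀).card + 2 ≤ (F Q).card := by
      have h1 := hltQ 2 hh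
      rw [hs_two] at h1
      obtain ⟨t, ht⟩ := hoddQ
      omega
    obtain ⟨K, hKne, hKQ, hKsat⟩ := exists_subgroup hp hG hB₀Q (by omega) hpQ (by omega) hroom
    have hsatB : (sat B K).card = (sat B₀ K).card := by
      rw [sat, sat, hB₀, add_assoc, card_single_add]
    apply no_near_period hp hp2 hG hh hhp h2 hstab hBB S1 S2 hKne (K := K) (by omega)
    by_contra hcon
    push Not at hcon
    have : Q ≤ K := by
      rw [hQ, AddSubgroup.closure_le]
      intro x hx
      have hx' : x ∈ B₀ := hx
      rw [hB₀, mem_single_add] at hx'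
      have := hcon _ hx' b₀ hb₀
      have e : x - -b₀ - b₀ = x := by abel
      rw [e] at this
      exact this
    exact absurd hKQ (not_lt_of_ge this)

end Pool.Agent.Helper58
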