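import Mathlib

set_option autoImplicit false

namespace Pool.Agent.Helper58

/-- The `h`-fold sumset `hA`: all sums of `h` elements of `A`, repetition allowed. -/
def sumset {G : Type*} [AddCommGroup G] (h : ℕ) (A : Finset G) : Set G :=
  {x | ∃ f : Fin h → G, (∀ i, f i ∈ A) ∧ ∑ i, f i = x}

/-- The `h`-fold signed sumset of `A`: all `∑ l a • a` over `a ∈ A` with integer
coefficients `l a` and `∑ |l a| = h`. -/
def signedSumset {G : Type*} [AddCommGroup G] (h : ℕ) (A : Finset G) : Set G :=
  {x | ∃ l : G → ℤ, ∑ a ∈ A, |l a| = (h : ℤ) ∧ ∑ a ∈ A, l a • a = x}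

/-- `ρ(G,m,h)`: the minimum of `|hA|` over the `m`-element subsets `A` of `G`. -/
noncomputable def rho (G : Type*) [AddCommGroup G] (m h : ℕ) : ℕ :=
  sInf {n : ℕ | ∃ A : Finset G, A.card = m ∧ (sumset h A).ncard = n}

/-- `ρ_±(G,m,h)`: the minimum of the size of the `h`-fold signed sumset over the
`m`-element subsets `A` of `G`. -/
noncomputable def rhoPM (G : Type*) [AddCommGroup G] (m h : ℕ) : ℕ :=
  sInf {n : ℕ | ∃ A : Finset G, A.card = m ∧ (signedSumset h A).ncard = n}

end Pool.Agent.Helper58
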