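import Mathlib
import Pool.Agent.Helper58.Signed
import Pool.Agent.Helper58.SignedDefs

set_option autoImplicit false
set_option linter.unusedSectionVars false

open Finset Pointwise
open scoped Classical

namespace Pool.Agent.Helper58

section gen

variable {G : Type*} [AddCommGroup G] [Fintype G]

/-- Kneser's theorem for iterated sumsets. -/
theorem multi_kneser {A : Finset G} (hA : A.Nonempty) (h : ℕ) :
    (h + 1) * (sat A (stab (hs (h + 1) A))).card ≤
      (hs (h + 1) A).card + h * (F (stab (hs (h + 1) A))).card := by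
  set H := stab (hs (h + 1) A) with hH
  set A' := sat A H with hA'
  have hA'ne : A'.Nonempty := hA.mono (subset_sat A H)
  have hsat : ∀ n, hs (n + 1) A' = sat (hs (n + 1) A) H := by
    intro n
    induction n with
    | zero => rw [zero_add, hs_one, hs_one]
    | succ n ih => rw [hs_succ, ih, hA', sat_add_sat, hs_succ (n + 1) A]
  have hfull : hs (h + 1) A' = hs (h + 1) A := by
    rw [hsat, sat_eq_self (le_refl _)]
  have key : ∀ n, n ≤ h → (n + 1) * A'.card ≤ (hs (n + 1) A').card + n * (F H).card := by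
    intro n
    induction n with
    | zero => intro _; rw [zero_add, hs_one]; simp
    | succ n ih =>
      intro hn
      have h1 := ih (by omega)
      have h2 := kneser_weak (hs_nonempty hA'ne (n + 1)) hA'ne
      rw [← hs_succ] at h2
      have h3 : stab (hs (n + 1 + 1) A') ≤ H := by
        obtain ⟨k, hk⟩ := Nat.exists_eq_add_of_le hn
        rw [hH, ← hfull, hk, show n + 1 + k + 1 = (n + 1 + 1) + k by ring]
        exact stab_hs_le A' _ _
      have h4 := card_F_mono h3
      have e1 : (n + 1 + 1) * A'.card = (n + 1) * A'.card + A'.card := by ring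
      have e2 : (n + 1) * (F H).card = n * (F H).card + (F H).card := by ring
      omega
  have := key h (le_refl h)
  rwa [hfull] at this

/-- image of a finite set under a homomorphism -/
noncomputable def img {G' : Type*} [AddCommGroup G'] (f : G →+ G') (A : Finset G) : Finset G' :=
  A.image f

lemma mem_img {G' : Type*} [AddCommGroup G'] {f : G →+ G'} {A : Finset G} {x : G'} :
    x ∈ img f A ↔ ∃ a ∈ A, f a = x := Finset.mem_image

/-- sizes of saturated sets via the quotient -/
lemma card_sat (A : Finset G) (H : AddSubgroup G) :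
    (sat A H).card = (img (QuotientAddGroup.mk' H) A).card * (F H).card := by
  rw [Finset.card_eq_sum_card_fiberwise (f := QuotientAddGroup.mk' H)
    (t := img (QuotientAddGroup.mk' H) A)]
  · rw [Finset.sum_const_nat]
    intro c hc
    obtain ⟨b, hb, rfl⟩ := mem_img.1 hc
    rw [← card_coset H b]
    congr 1
    ext x
    simp only [Finset.mem_filter, mem_coset, mk_eq_iff]
    constructor
    · exact fun h => h.2
    · exact fun h => ⟨mem_sat.2 ⟨b, hb, h⟩, h⟩
  · intro x hx
    obtain ⟨b, hb, hxb⟩ := mem_sat.1 hx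
    refine Finset.mem_coe.2 (mem_img.2 ⟨b, hb, ?_⟩)
    rw [mk_eq_iff]
    have := H.neg_mem hxb
    simpa using this

lemma image_hs {G' : Type*} [AddCommGroup G'] [Fintype G'] (f : G →+ G') (A : Finset G) (n : ℕ) :
    img f (hs n A) = hs n (img f A) := by
  induction n with
  | zero => simp [hs_zero, img]
  | succ n ih =>
    rw [hs_succ, hs_succ, ← ih]
    exact Finset.image_add f

lemma mem_hs_succ {n : ℕ} {A : Finset G} {x : G} :
    x ∈ hs (n + 1) A ↔ ∃ y ∈ hs n A, ∃ z ∈ A, y + z = x := Finset.mem_add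

/-- Nonnegative integer representations of iterated sums. -/
lemma hs_rep {C : Finset G} (n : ℕ) : ∀ x ∈ hs n C, ∃ l : G → ℤ, (∀ a, 0 ≤ l a) ∧
    (∀ a, a ∉ C → l a = 0) ∧ ∑ a ∈ C, l a = n ∧ ∑ a ∈ C, l a • a = x := by
  induction n with
  | zero =>
    intro x hx
    rw [hs_zero, Finset.mem_singleton] at hx
    subst hx
    exact ⟨fun _ => 0, fun _ => le_refl _, fun _ _ => rfl, by simp, by simp⟩
  | succ n ih =>
    intro x hx
    rw [hs_succ] at hx
    obtain ⟨y, hy, c, hc, rfl⟩ := Finset.mem_add.1 hx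
    obtain ⟨l, h0, hC, hs1, hs2⟩ := ih y hy
    refine ⟨fun a => l a + if a = c then 1 else 0, ?_, ?_, ?_, ?_⟩
    · intro a
      have := h0 a
      dsimp only
      split_ifs <;> omega
    · intro a ha
      have hac : a ≠ c := fun h => ha (h ▸ hc)
      simp [hC a ha, hac]
    · rw [Finset.sum_add_distrib, hs1, Finset.sum_ite_eq' C c, if_pos hc]
      push_cast; ring
    · simp only [add_smul, ite_smul, one_smul, zero_smul]
      rw [Finset.sum_add_distrib, hs2, Finset.sum_ite_eq' C c, if_pos hc]

lemma sumset_eq (h : ℕ) (A : Finset G) : sumset h A = (hs h A : Set G) := by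
  ext x
  induction h generalizing x with
  | zero =>
    simp only [sumset, Set.mem_ofPred_eq, hs_zero, Finset.coe_singleton, Set.mem_singleton_iff]
    constructor
    · rintro ⟨f, _, hf⟩
      simpa using hf.symm
    · rintro rfl
      exact ⟨fun i => i.elim0, fun i => i.elim0, by simp⟩
  | succ n ih =>
    constructor
    · rintro ⟨f, hf, rfl⟩
      rw [Fin.sum_univ_castSucc, hs_succ]
      have h1 := (ih (∑ i : Fin n, f i.castSucc)).1 ⟨fun i => f i.castSucc, fun i => hf _, rfl⟩
      exact Finset.mem_coe.2 (Finset.add_mem_add (Finset.mem_coe.1 h1) (hf _))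
    · intro hx
      rw [Finset.mem_coe, hs_succ] at hx
      obtain ⟨y, hy, c, hc, rfl⟩ := Finset.mem_add.1 hx
      obtain ⟨f, hf, hfy⟩ := (ih y).2 (Finset.mem_coe.2 hy)
      refine ⟨Fin.snoc f c, ?_, ?_⟩
      · intro i
        refine Fin.lastCases ?_ (fun j => ?_) i
        · simpa using hc
        · simpa using hf j
      · rw [Fin.sum_univ_castSucc]
        simp [hfy]

lemma hs_sub_signed (h : ℕ) (A : Finset G) : (hs h A : Set G) ⊆ signedSumset h A := by
  intro x hx
  obtain ⟨l, h0, _, h1, h2⟩ := hs_rep h x (Finset.mem_coe.1 hx)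
  refine ⟨l, ?_, h2⟩
  rw [← h1]
  exact Finset.sum_congr rfl (fun a _ => abs_of_nonneg (h0 a))

lemma signed_neg {h : ℕ} {A : Finset G} {x : G} (hx : x ∈ signedSumset h A) :
    -x ∈ signedSumset h A := by
  obtain ⟨l, h1, h2⟩ := hx
  refine ⟨fun a => - l a, ?_, ?_⟩
  · simpa using h1
  · rw [← h2, ← Finset.sum_neg_distrib]
    exact Finset.sum_congr rfl (fun a _ => neg_smul _ _)

lemma signed_two {h : ℕ} (hh : 2 ≤ h) {A : Finset G} {b₁ b₂ : G} (hb₁ : b₁ ∈ A) (hb₂ : b₂ ∈ A)
    (hne : b₁ ≠ b₂) {C : Finset G} (hC : C ⊆ A) (h1C : b₁ ∉ C) (h2C : b₂ ∉ C) {z : G}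
    (hz : z ∈ hs (h - 2) C) : b₁ - b₂ + z ∈ signedSumset h A := by
  obtain ⟨l, h0, hlC, hs1, hs2⟩ := hs_rep (h - 2) z hz
  have e1 : ∑ a ∈ A, l a = ((h - 2 : ℕ) : ℤ) := by
    rw [← hs1]
    exact (Finset.sum_subset hC (fun x _ hx => hlC x hx)).symm
  have e2 : ∑ a ∈ A, l a • a = z := by
    rw [← hs2]
    exact (Finset.sum_subset hC (fun x _ hx => by rw [hlC x hx, zero_smul])).symm
  refine ⟨fun a => l a + ((if a = b₁ then 1 else 0) - (if a = b₂ then 1 else 0)), ?_, ?_⟩
  · have : ∀ a ∈ A, |l a + ((if a = b₁ then (1 : ℤ) else 0) - (if a = b₂ then 1 else 0))| =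
        l a + ((if a = b₁ then 1 else 0) + (if a = b₂ then 1 else 0)) := by
      intro a _
      by_cases h1 : a = b₁
      · subst h1
        rw [hlC a h1C, if_pos rfl, if_neg hne]
        norm_num
      · by_cases h2 : a = b₂
        · subst h2
          rw [hlC a h2C, if_pos rfl, if_neg h1]
          norm_num
        · rw [if_neg h1, if_neg h2]
          simpa using h0 a
    rw [Finset.sum_congr rfl this, Finset.sum_add_distrib, Finset.sum_add_distrib, e1,
      Finset.sum_ite_eq' A b₁, Finset.sum_ite_eq' A b₂, if_pos hb₁, if_pos hb₂]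
    push_cast [hh]; ring
  · simp only [add_smul, sub_smul, ite_smul, one_smul, zero_smul]
    rw [Finset.sum_add_distrib, Finset.sum_sub_distrib, e2, Finset.sum_ite_eq' A b₁,
      Finset.sum_ite_eq' A b₂, if_pos hb₁, if_pos hb₂]
    abel

/-- structure of sets whose signed sumset is as small as Kneser's theorem allows -/
theorem tight_bound {p : ℕ} (hp : p.Prime) (hp2 : p ≠ 2) (hG : ∀ x : G, p • x = 0) {h : ℕ}
    (hh : 2 ≤ h) (hhp : h < p) {A : Finset G}
    (hsg : signedSumset h A ⊆ (hs h A : Set G))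
    (α : ℕ) (hα : (sat A (stab (hs h A))).card = α * (F (stab (hs h A))).card)
    (hcard : (hs h A).card = (h * (α - 1) + 1) * (F (stab (hs h A))).card) :
    h * (α - 1) + 1 < p := by
  set H := stab (hs h A) with hH
  set π := QuotientAddGroup.mk' H with hπ
  set B := img π A with hB
  have hFH := card_F_pos H
  have hBcard : B.card = α := by
    have h1 := card_sat A H
    rw [hα] at h1
    exact (Nat.eq_of_mul_eq_mul_right hFH h1).symm
  by_cases hα2 : α ≤ 1
  · have : α - 1 = 0 := by omega
    rw [this, mul_zero, zero_add]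
    exact hp.one_lt
  · have : Fintype (G ⧸ H) := Fintype.ofFinite _
    have hGH : ∀ x : G ⧸ H, p • x = 0 := by
      intro x
      obtain ⟨y, rfl⟩ := QuotientAddGroup.mk'_surjective H x
      rw [← map_nsmul, hG, map_zero]
    have him : img π (hs h A) = hs h B := image_hs π A h
    have hhB : (hs h B).card = h * (B.card - 1) + 1 := by
      have h1 := card_sat (hs h A) H
      rw [sat_eq_self (le_refl _), hcard] at h1
      have := Nat.eq_of_mul_eq_mul_right hFH h1
      rw [← him, hBcard, this]
    have hmem : ∀ x : G, π x ∈ hs h B → x ∈ hs h A := by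
      intro x hx
      rw [← him] at hx
      obtain ⟨y, hy, hyx⟩ := mem_img.1 hx
      have h1 : x - y ∈ H := by
        have := mk_eq_iff.1 hyx
        have := H.neg_mem this
        simpa using this
      have := (mem_stab.1 h1 y).2 hy
      simpa using this
    have hstabB : stab (hs h B) = ⊥ := by
      rw [AddSubgroup.eq_bot_iff_forall]
      intro g hg
      obtain ⟨g', rfl⟩ := QuotientAddGroup.mk'_surjective H g
      have hg' : g' ∈ H := by
        rw [hH]
        apply mem_stab_of_forall
        intro x hx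
        apply hmem
        rw [map_add]
        refine (mem_stab.1 hg (π x)).2 ?_
        rw [← him]
        exact mem_img.2 ⟨x, hx, rfl⟩
      exact (QuotientAddGroup.eq_zero_iff g').2 hg'
    have S1 : ∀ x ∈ hs h B, -x ∈ hs h B := by
      intro x hx
      obtain ⟨y, rfl⟩ := QuotientAddGroup.mk'_surjective H x
      have h1 := hmem y hx
      have h2 := hsg (signed_neg (hs_sub_signed h A (Finset.mem_coe.2 h1)))
      rw [← him, ← map_neg]
      exact mem_img.2 ⟨_, Finset.mem_coe.1 h2, rfl⟩
    have S2 : ∀ b₁ ∈ B, ∀ b₂ ∈ B, b₁ ≠ b₂ → ∀ C : Finset (G ⧸ H), C ⊆ B → b₁ ∉ C → b₂ ∉ C →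
        ∀ z ∈ hs (h - 2) C, b₁ - b₂ + z ∈ hs h B := by
      intro b₁ hb₁ b₂ hb₂ hne C hC h1C h2C z hz
      obtain ⟨a₁, ha₁, rfl⟩ := mem_img.1 hb₁
      obtain ⟨a₂, ha₂, rfl⟩ := mem_img.1 hb₂
      set C' := A.filter (fun a => π a ∈ C) with hC'
      have hC'im : img π C' = C := by
        apply Finset.Subset.antisymm
        · intro x hx
          obtain ⟨y, hy, rfl⟩ := mem_img.1 hx
          exact (Finset.mem_filter.1 hy).2
        · intro x hx
          obtain ⟨y, hy, rfl⟩ := mem_img.1 (hC hx)
          exact mem_img.2 ⟨y, Finset.mem_filter.2 ⟨hy, hx⟩, rfl⟩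
      rw [← hC'im, ← image_hs] at hz
      obtain ⟨z', hz', rfl⟩ := mem_img.1 hz
      have h1 := signed_two hh ha₁ ha₂ (fun h => hne (by rw [h])) (Finset.filter_subset _ _)
        (fun h => h1C (Finset.mem_filter.1 h).2) (fun h => h2C (Finset.mem_filter.1 h).2) hz'
      have h2 := Finset.mem_coe.1 (hsg h1)
      rw [← him, ← map_sub, ← map_add]
      exact mem_img.2 ⟨_, h2, rfl⟩
    have := main_bound hp hp2 hGH hh hhp (B := B) (by omega) hstabB hhB S1 S2
    rwa [hBcard] at this

end gen

section numeric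

/-- the arithmetic of the thresholds -/
lemma numeric {p h m k c δ j α : ℕ} (hp : p.Prime) (hh : 2 ≤ h) (hhp : h < p)
    (hm : 2 ≤ m) (hδ : δ = if h ∣ p - 1 then 0 else 1)
    (hk : ∀ k', p ^ k' + δ ≤ h * m - h + 1 → k' ≤ k)
    (hc : ∀ c', (h * c' + 1) * p ^ k + δ ≤ h * m - h + 1 → c' ≤ c)
    (hα : m ≤ (α + 1) * p ^ j) (hlt : h * α + 1 < p)
    (h0 : (h * α + 1) * p ^ j ≤ h * m - h + 1)
    (h1 : 1 ≤ j → (h * α + 1) * p ^ j ≤ (h * ((m - 1) / p ^ (j - 1)) + 1) * p ^ (j - 1)) :
    m ≤ (c + 1) * p ^ k ∨ h * (m - 1) + 1 < p := by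
  have hpp : ∀ n, 0 < p ^ n := fun n => Nat.pow_pos hp.pos
  have hV : h * m - h + 1 = h * (m - 1) + 1 := by
    obtain ⟨t, rfl⟩ : ∃ t, m = t + 1 := ⟨m - 1, by omega⟩
    rw [Nat.add_sub_cancel, mul_add, mul_one, Nat.add_sub_cancel]
  by_cases hA : (h * α + 1) * p ^ j + δ ≤ h * m - h + 1
  · left
    have hj : j ≤ k := by
      apply hk
      have : p ^ j ≤ (h * α + 1) * p ^ j := Nat.le_mul_of_pos_left _ (by omega)
      omega
    rcases Nat.lt_or_eq_of_le hj with hjk | hjk
    · have e1 : (α + 1) * p ^ j ≤ (h * α + 1) * p ^ j := by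
        apply Nat.mul_le_mul_right
        nlinarith
      have e2 : (h * α + 1) * p ^ j ≤ p * p ^ j := Nat.mul_le_mul_right _ hlt.le
      have e3 : p * p ^ j = p ^ (j + 1) := by rw [pow_succ, mul_comm]
      have e4 : p ^ (j + 1) ≤ p ^ k := Nat.pow_le_pow_right hp.pos hjk
      have e5 : p ^ k ≤ (c + 1) * p ^ k := Nat.le_mul_of_pos_left _ (by omega)
      omega
    · subst hjk
      have := hc α hA
      have e1 : (α + 1) * p ^ j ≤ (c + 1) * p ^ j := Nat.mul_le_mul_right _ (by omega)
      omega
  · -- equality case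
    have hδ1 : ¬ h ∣ p - 1 := by
      intro hd
      rw [if_pos hd] at hδ
      omega
    rw [if_neg hδ1] at hδ
    have heq : (h * α + 1) * p ^ j = h * m - h + 1 := by omega
    rcases Nat.eq_zero_or_pos j with hj | hj
    · right
      subst hj
      rw [pow_zero, mul_one] at heq
      omega
    · exfalso
      have hb := h1 hj
      set b := p % h with hbdef
      set a := p / h with hadef
      have hpab : p = h * a + b := (Nat.div_add_mod p h).symm
      have hbh : b < h := Nat.mod_lt _ (by omega)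
      have hb0 : b ≠ 0 := by
        intro h0
        have : h ∣ p := Nat.dvd_of_mod_eq_zero h0
        rcases (Nat.dvd_prime hp).1 this with h2 | h2 <;> omega
      have hb1 : b ≠ 1 := by
        intro h0
        apply hδ1
        refine ⟨a, ?_⟩
        omega
      set w := (m - 1) / p ^ (j - 1) with hw
      have hw1 : w * p ^ (j - 1) ≤ m - 1 := Nat.div_mul_le_self _ _
      have hpj : p ^ j = p * p ^ (j - 1) := by
        rw [← pow_succ']
        congr 1
        omega
      have hw2 : h * w * p ^ (j - 1) < (h * α + 1) * p * p ^ (j - 1) := by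
        have e1 : h * (w * p ^ (j - 1)) ≤ h * (m - 1) := Nat.mul_le_mul_left _ hw1
        have e2 : h * w * p ^ (j - 1) = h * (w * p ^ (j - 1)) := by ring
        have e3 : (h * α + 1) * p * p ^ (j - 1) = (h * α + 1) * p ^ j := by
          rw [hpj]; ring
        omega
      have hw3 : h * w < (h * α + 1) * p := Nat.lt_of_mul_lt_mul_right hw2
      have hw4 : w ≤ α * p + a := by
        by_contra hcon
        push Not at hcon
        have e1 : h * (α * p + a + 1) ≤ h * w := Nat.mul_le_mul_left _ hcon
        have e2 : h * (α * p + a + 1) = h * α * p + (h * a + h) := by ring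
        have e3 : (h * α + 1) * p = h * α * p + p := by ring
        omega
      have hw5 : h * w + 1 < (h * α + 1) * p := by
        have e1 : h * w ≤ h * (α * p + a) := Nat.mul_le_mul_left _ hw4
        have e2 : h * (α * p + a) = h * α * p + h * a := by ring
        have e3 : (h * α + 1) * p = h * α * p + p := by ring
        omega
      have hw6 : (h * w + 1) * p ^ (j - 1) < (h * α + 1) * p * p ^ (j - 1) :=
        Nat.mul_lt_mul_of_pos_right hw5 (hpp _)
      rw [hpj] at hb
      have e4 : (h * α + 1) * (p * p ^ (j - 1)) = (h * α + 1) * p * p ^ (j - 1) := by ring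
      omega

end numeric

end Pool.Agent.Helper58
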