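import Mathlib
import Pool.Agent.Helper58.SignedFinal

set_option autoImplicit false
set_option linter.unusedSectionVars false

open Finset Pointwise
open scoped Classical

namespace Pool.Agent.Helper58

theorem lower {p h m k c δ r : ℕ} (hp : p.Prime) (hp2 : p ≠ 2) (hh : 2 ≤ h) (hhp : h < p)
    (hm : 2 ≤ m) (hδ : δ = if h ∣ p - 1 then 0 else 1)
    (hk : ∀ k', p ^ k' + δ ≤ h * m - h + 1 → k' ≤ k)
    (hc : ∀ c', (h * c' + 1) * p ^ k + δ ≤ h * m - h + 1 → c' ≤ c)
    [Fintype (Fin r → ZMod p)]
    {A : Finset (Fin r → ZMod p)} (hA : A.card = m)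
    (hu : ∀ i, i ≤ r → (signedSumset h A).ncard ≤ (h * ((m - 1) / p ^ i) + 1) * p ^ i) :
    m ≤ (c + 1) * p ^ k ∨ h * (m - 1) + 1 < p := by
  have hne : NeZero p := ⟨hp.ne_zero⟩
  have hAne : A.Nonempty := Finset.card_pos.1 (by omega)
  have hG : ∀ x : Fin r → ZMod p, p • x = 0 := by
    intro x
    ext i
    simp
  set H := stab (hs h A) with hH
  set q := (F H).card with hq
  have hqpos : 0 < q := card_F_pos H
  obtain ⟨j, hjr, hqj⟩ : ∃ j ≤ r, q = p ^ j := by
    have h1 : q ∣ p ^ r := by
      rw [hq, F_card_eq]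
      have h2 := AddSubgroup.card_addSubgroup_dvd_card H
      have h3 : Nat.card (Fin r → ZMod p) = p ^ r := by
        rw [Nat.card_fun, Nat.card_zmod, Nat.card_eq_fintype_card, Fintype.card_fin]
      rwa [h3] at h2
    exact (Nat.dvd_prime_pow hp).1 h1
  obtain ⟨h', hh'⟩ : ∃ h', h = h' + 1 := ⟨h - 1, by omega⟩
  have hmk : h * (sat A H).card ≤ (hs h A).card + (h - 1) * q := by
    have := multi_kneser hAne h'
    rw [← hh'] at this
    have e : h - 1 = h' := by omega
    rw [e]
    exact this
  obtain ⟨a, ha⟩ := sat_card_dvd A H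
  rw [← hq, mul_comm] at ha
  have hmle : m ≤ a * q := by
    rw [← hA, ← ha]
    exact Finset.card_le_card (subset_sat A H)
  set w := (m - 1) / q with hw
  have hwa : w < a := by
    rw [hw]
    apply Nat.div_lt_of_lt_mul
    rw [mul_comm]
    omega
  have hfin : (signedSumset h A).Finite := Set.toFinite _
  have hsub := hs_sub_signed h A
  have hle1 : (hs h A).card ≤ (signedSumset h A).ncard := by
    rw [← Set.ncard_coe_finset]
    exact Set.ncard_le_ncard hsub hfin
  have huj := hu j hjr
  rw [← hqj, ← hw] at huj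
  have hale : a ≤ w + 1 := by
    have h1 : h * (a * q) ≤ (h * w + 1) * q + (h - 1) * q := by
      rw [← ha]; omega
    have h2 : (h * w + 1) * q + (h - 1) * q = h * ((w + 1) * q) := by
      rw [hh', Nat.add_sub_cancel]; ring
    rw [h2] at h1
    have h3 := Nat.le_of_mul_le_mul_left h1 (by omega)
    exact Nat.le_of_mul_le_mul_right h3 hqpos
  have haw : a = w + 1 := by omega
  have hlow : (h * w + 1) * q ≤ (hs h A).card := by
    have h2 : (h * w + 1) * q + (h - 1) * q = h * ((w + 1) * q) := by
      rw [hh', Nat.add_sub_cancel]; ring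
    rw [ha, haw] at hmk
    omega
  have hcardeq : (hs h A).card = (h * w + 1) * q := by omega
  have hseq : (signedSumset h A).ncard = (h * w + 1) * q := by omega
  have hsg : signedSumset h A ⊆ (hs h A : Set (Fin r → ZMod p)) := by
    have := Set.eq_of_subset_of_ncard_le hsub (by
      rw [Set.ncard_coe_finset]; omega) hfin
    rw [this]
  have htb := tight_bound hp hp2 hG hh hhp hsg (w + 1) (by rw [ha, haw])
    (by rw [Nat.add_sub_cancel]; exact hcardeq)
  rw [Nat.add_sub_cancel] at htb
  apply numeric (j := j) (α := w) hp hh hhp hm hδ hk hc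
  · rw [← hqj, ← haw]; exact hmle
  · exact htb
  · have h1 := hu 0 (Nat.zero_le _)
    rw [pow_zero, Nat.div_one, mul_one] at h1
    have e : h * m - h + 1 = h * (m - 1) + 1 := by
      obtain ⟨t, rfl⟩ : ∃ t, m = t + 1 := ⟨m - 1, by omega⟩
      rw [Nat.add_sub_cancel, mul_add, mul_one, Nat.add_sub_cancel]
    rw [← hqj, e, ← hseq]
    exact h1
  · intro hj
    rw [← hqj, ← hseq]
    exact hu (j - 1) (by omega)

section upper

variable {p r : ℕ} [NeZero p]

/-- base `p` value -/
def dig (x : Fin r → ZMod p) : ℕ := ∑ j : Fin r, (x j).val * p ^ (j : ℕ)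

/-- higher part -/
def dg (i : ℕ) (x : Fin r → ZMod p) : ℕ :=
  ∑ j : Fin r, if i ≤ (j : ℕ) then (x j).val * p ^ ((j : ℕ) - i) else 0

/-- lower part -/
def low (i : ℕ) (x : Fin r → ZMod p) : ℕ :=
  ∑ j : Fin r, if i ≤ (j : ℕ) then 0 else (x j).val * p ^ (j : ℕ)

/-- the equivalence with numbers below `p ^ r` -/
def E (p r : ℕ) [NeZero p] : (Fin r → ZMod p) ≃ Fin (p ^ r) :=
  (Equiv.piCongrRight (fun _ => (ZMod.finEquiv p).symm.toEquiv)).trans finFunctionFinEquiv

lemma val_finEquiv_symm (x : ZMod p) : (((ZMod.finEquiv p).symm x : Fin p) : ℕ) = x.val := by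
  obtain ⟨n, hn⟩ : ∃ n, p = n + 1 := ⟨p - 1, by have := NeZero.pos p; omega⟩
  subst hn
  rfl

lemma E_val (x : Fin r → ZMod p) : ((E p r x : Fin (p ^ r)) : ℕ) = dig x := by
  rw [E, Equiv.trans_apply, finFunctionFinEquiv_apply, dig]
  apply Finset.sum_congr rfl
  intro j _
  congr 1
  exact val_finEquiv_symm (x j)

lemma dig_inj : Function.Injective (dig : (Fin r → ZMod p) → ℕ) := by
  intro x y h
  apply (E p r).injective
  apply Fin.ext
  rw [E_val, E_val, h]

lemma dig_eq (i : ℕ) (x : Fin r → ZMod p) : dig x = p ^ i * dg i x + low i x := by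
  rw [dig, dg, low, Finset.mul_sum, ← Finset.sum_add_distrib]
  apply Finset.sum_congr rfl
  intro j _
  by_cases h : i ≤ (j : ℕ)
  · rw [if_pos h, if_pos h, add_zero]
    have : p ^ (j : ℕ) = p ^ i * p ^ ((j : ℕ) - i) := by
      rw [← pow_add]; congr 1; omega
    rw [this]; ring
  · rw [if_neg h, if_neg h, mul_zero, zero_add]

lemma geom (n : ℕ) : ∑ j ∈ Finset.range n, (p - 1) * p ^ j + 1 = p ^ n := by
  induction n with
  | zero => simp
  | succ n ih =>
    rw [Finset.sum_range_succ, pow_succ]
    obtain ⟨t, ht⟩ : ∃ t, p = t + 1 := ⟨p - 1, by have := NeZero.pos p; omega⟩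
    have e : p - 1 = t := by omega
    rw [e] at ih ⊢
    have e2 : p ^ n * p = t * p ^ n + p ^ n := by
      nth_rewrite 2 [ht]; ring
    omega

lemma low_lt (i : ℕ) (x : Fin r → ZMod p) : low i x < p ^ i := by
  have h1 : low i x ≤ ∑ j : Fin r, (if i ≤ (j : ℕ) then 0 else (p - 1) * p ^ (j : ℕ)) := by
    apply Finset.sum_le_sum
    intro j _
    split_ifs
    · exact le_refl _
    · apply Nat.mul_le_mul_right
      have := ZMod.val_lt (x j)
      omega
  have h2 : ∑ j : Fin r, (if i ≤ (j : ℕ) then 0 else (p - 1) * p ^ (j : ℕ)) ≤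
      ∑ j ∈ Finset.range i, (p - 1) * p ^ j := by
    rw [Fin.sum_univ_eq_sum_range (fun j => if i ≤ j then 0 else (p - 1) * p ^ j) r]
    have h3 : ∑ j ∈ Finset.range r, (if i ≤ j then 0 else (p - 1) * p ^ j) =
        ∑ j ∈ (Finset.range r).filter (fun j => ¬ i ≤ j), (p - 1) * p ^ j := by
      rw [Finset.sum_filter]
      apply Finset.sum_congr rfl
      intro j _
      by_cases h : i ≤ j <;> simp [h]
    rw [h3]
    apply Finset.sum_le_sum_of_subset
    intro j hj
    rw [Finset.mem_filter] at hj
    rw [Finset.mem_range]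
    omega
  have h4 := geom (p := p) i
  omega

lemma dg_add (i : ℕ) (x y : Fin r → ZMod p) : dg i (x + y) ≤ dg i x + dg i y := by
  rw [dg, dg, dg, ← Finset.sum_add_distrib]
  apply Finset.sum_le_sum
  intro j _
  by_cases h : i ≤ (j : ℕ)
  · rw [if_pos h, if_pos h, if_pos h, ← add_mul]
    exact Nat.mul_le_mul_right _ (ZMod.val_add_le _ _)
  · simp [h]

lemma dg_zero (i : ℕ) : dg i (0 : Fin r → ZMod p) = 0 := by
  simp [dg]

lemma exists_segment {h m : ℕ} (hm : 1 ≤ m) (hmr : m ≤ p ^ r) :
    ∃ A : Finset (Fin r → ZMod p), A.card = m ∧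
      ∀ i, (hs h A).card ≤ (h * ((m - 1) / p ^ i) + 1) * p ^ i := by
  set A : Finset (Fin r → ZMod p) := univ.filter (fun x => dig x < m) with hA
  refine ⟨A, ?_, ?_⟩
  · rw [← Finset.card_image_of_injective A dig_inj]
    have : A.image dig = Finset.range m := by
      ext n
      rw [Finset.mem_image, Finset.mem_range]
      constructor
      · rintro ⟨x, hx, rfl⟩
        exact (Finset.mem_filter.1 hx).2
      · intro hn
        refine ⟨(E p r).symm ⟨n, by omega⟩, ?_, ?_⟩
        · rw [hA, Finset.mem_filter, ← E_val, Equiv.apply_symm_apply]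
          exact ⟨Finset.mem_univ _, hn⟩
        · rw [← E_val, Equiv.apply_symm_apply]
    rw [this, Finset.card_range]
  · intro i
    have hpi : 0 < p ^ i := Nat.pow_pos (NeZero.pos p)
    have h1 : ∀ x ∈ A, dg i x ≤ (m - 1) / p ^ i := by
      intro x hx
      rw [hA, Finset.mem_filter] at hx
      rw [Nat.le_div_iff_mul_le hpi]
      have := dig_eq i x
      have e : dg i x * p ^ i = p ^ i * dg i x := mul_comm _ _
      omega
    have h2 : ∀ n, ∀ x ∈ hs n A, dg i x ≤ n * ((m - 1) / p ^ i) := by
      intro n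
      induction n with
      | zero =>
        intro x hx
        rw [hs_zero, Finset.mem_singleton] at hx
        subst hx
        rw [dg_zero]; exact Nat.zero_le _
      | succ n ih =>
        intro x hx
        obtain ⟨y, hy, z, hz, rfl⟩ := mem_hs_succ.1 hx
        have := dg_add i y z
        have := ih y hy
        have := h1 z hz
        have e : (n + 1) * ((m - 1) / p ^ i) = n * ((m - 1) / p ^ i) + (m - 1) / p ^ i := by ring
        omega
    rw [← Finset.card_image_of_injective (hs h A) dig_inj]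
    have h3 : (hs h A).image dig ⊆ Finset.range ((h * ((m - 1) / p ^ i) + 1) * p ^ i) := by
      intro n hn
      obtain ⟨x, hx, rfl⟩ := Finset.mem_image.1 hn
      rw [Finset.mem_range]
      have h4 := h2 h x hx
      have h5 := dig_eq i x
      have h6 := low_lt i x
      have h7 : p ^ i * dg i x ≤ p ^ i * (h * ((m - 1) / p ^ i)) := Nat.mul_le_mul_left _ h4
      have e : (h * ((m - 1) / p ^ i) + 1) * p ^ i =
        p ^ i * (h * ((m - 1) / p ^ i)) + p ^ i := by ring
      omega
    have h4 := Finset.card_le_card h3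
    rwa [Finset.card_range] at h4

end upper

section example_part

/-- the number of the signed representation -/
lemma signed_ap {p h m r : ℕ} (hp : p.Prime) (hp2 : p ≠ 2) (hr : 1 ≤ r) (hm : 1 ≤ m)
    (hlt : m < p) :
    ∃ A : Finset (Fin r → ZMod p), A.card = m ∧
      (signedSumset h A).ncard ≤ h * (m - 1) + 1 := by
  have hne : NeZero p := ⟨hp.ne_zero⟩
  have hfact : Fact p.Prime := ⟨hp⟩
  set i₀ : Fin r := ⟨0, hr⟩ with hi₀
  set e : ℤ → (Fin r → ZMod p) := fun t => Pi.single i₀ (t : ZMod p) with he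
  have hadd : ∀ s t, e (s + t) = e s + e t := by
    intro s t
    simp only [he]
    rw [← Pi.single_add]
    push_cast
    rfl
  have hsmul : ∀ (s t : ℤ), e (s * t) = s • e t := by
    intro s t
    simp only [he]
    ext j
    by_cases hj : j = i₀
    · subst hj; simp
    · simp [Pi.single_eq_of_ne hj]
  have hzero : e 0 = 0 := by simp [he]
  have hsum : ∀ (T : Finset ℕ) (f : ℕ → ℤ), e (∑ i ∈ T, f i) = ∑ i ∈ T, e (f i) := by
    intro T f
    induction T using Finset.induction_on with
    | empty => simp [hzero]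
    | insert a s ha ih => rw [Finset.sum_insert ha, Finset.sum_insert ha, hadd, ih]
  set c : ℕ → ℤ := fun i => 2 * (i : ℤ) - ((m : ℤ) - 1) with hc
  have hinj : Set.InjOn (fun i => e (c i)) (Finset.range m : Set ℕ) := by
    intro i hi j hj hij
    rw [Finset.mem_coe, Finset.mem_range] at hi hj
    have h1 : ((c i : ℤ) : ZMod p) = ((c j : ℤ) : ZMod p) := by
      have := congrFun hij i₀
      simpa [he] using this
    have h2 : ((2 * (i : ℤ) - 2 * (j : ℤ) : ℤ) : ZMod p) = 0 := by
      have : (2 * (i : ℤ) - 2 * (j : ℤ) : ℤ) = c i - c j := by simp only [hc]; ring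
      rw [this]; push_cast; rw [h1]; ring
    rw [ZMod.intCast_zmod_eq_zero_iff_dvd] at h2
    have h3 : (p : ℤ) ∣ (i : ℤ) - j := by
      have : (2 * (i : ℤ) - 2 * (j : ℤ) : ℤ) = 2 * ((i : ℤ) - j) := by ring
      rw [this] at h2
      rcases (Nat.prime_iff_prime_int.1 hp).dvd_or_dvd h2 with h4 | h4
      · exfalso
        have : p ∣ 2 := by exact_mod_cast h4
        exact hp2 ((Nat.prime_dvd_prime_iff_eq hp Nat.prime_two).1 this)
      · exact h4
    have h4 : (i : ℤ) - j = 0 := by
      apply Int.eq_zero_of_abs_lt_dvd h3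
      rw [abs_lt]
      constructor <;> omega
    omega
  set A : Finset (Fin r → ZMod p) := (Finset.range m).image (fun i => e (c i)) with hA
  have hAc : A.card = m := by
    rw [hA, Finset.card_image_of_injOn hinj, Finset.card_range]
  refine ⟨A, hAc, ?_⟩
  have hsub : signedSumset h A ⊆
      ((Finset.range (h * (m - 1) + 1)).image (fun s : ℕ => e (2 * (s : ℤ) - h * ((m : ℤ) - 1))) :
        Set (Fin r → ZMod p)) := by
    rintro x ⟨l, h1, h2⟩
    rw [hA, Finset.sum_image hinj] at h1 h2
    set L : ℕ → ℤ := fun i => l (e (c i)) with hL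
    have h2' : x = e (∑ i ∈ Finset.range m, L i * c i) := by
      rw [hsum, ← h2]
      apply Finset.sum_congr rfl
      intro i _
      rw [hsmul]
    set s : ℕ := ∑ i ∈ Finset.range m, (L i).natAbs * (if 0 ≤ L i then i else m - 1 - i) with hs
    have hsle : s ≤ h * (m - 1) := by
      have h3 : s ≤ ∑ i ∈ Finset.range m, (L i).natAbs * (m - 1) := by
        rw [hs]
        apply Finset.sum_le_sum
        intro i hi
        apply Nat.mul_le_mul_left
        rw [Finset.mem_range] at hi
        split_ifs <;> omega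
      rw [← Finset.sum_mul] at h3
      have h4 : ∑ i ∈ Finset.range m, (L i).natAbs = h := by
        have : ((∑ i ∈ Finset.range m, (L i).natAbs : ℕ) : ℤ) = h := by
          rw [← h1]
          push_cast
          apply Finset.sum_congr rfl
          intro i _
          rfl
        exact_mod_cast this
      rw [h4] at h3
      exact h3
    have hseq : ∑ i ∈ Finset.range m, L i * c i = 2 * (s : ℤ) - h * ((m : ℤ) - 1) := by
      rw [← h1, hs]
      push_cast
      rw [Finset.mul_sum, Finset.sum_mul, ← Finset.sum_sub_distrib]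
      apply Finset.sum_congr rfl
      intro i hi
      rw [Finset.mem_range] at hi
      change L i * c i = 2 * (|L i| * _) - |L i| * _
      by_cases hLi : 0 ≤ L i
      · rw [if_pos hLi, abs_of_nonneg hLi]
        simp only [hc]; ring
      · rw [if_neg hLi, abs_of_neg (not_le.1 hLi)]
        have : ((m - 1 - i : ℕ) : ℤ) = (m : ℤ) - 1 - i := by omega
        rw [this]
        simp only [hc]; ring
    rw [Finset.coe_image, Set.mem_image]
    refine ⟨s, ?_, ?_⟩
    · rw [Finset.mem_coe, Finset.mem_range]; omega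
    · rw [h2', hseq]
  calc (signedSumset h A).ncard ≤ _ := Set.ncard_le_ncard hsub (Finset.finite_toSet _)
    _ = _ := Set.ncard_coe_finset _
    _ ≤ _ := Finset.card_image_le
    _ = _ := Finset.card_range _

end example_part

end Pool.Agent.Helper58
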