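import Mathlib

set_option autoImplicit false

/-!
# Families of tropical polynomials on a finite-dimensional real space: basic facts
-/

namespace Pool.Agent.Helper58.Trop

open Module Filter Topology

/-- A finite family of tropical polynomials on `E`: `A i` is the set of terms of the `i`-th
one, `c i s` the constant and `a i s` the linear part of the term `s`. -/
structure Fam (E ι σ : Type) [AddCommGroup E] [Module ℝ E] where
  A : ι → Finset σ
  c : ι → σ → ℝ
  a : ι → σ → Dual ℝ E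

section basic

variable {E ι σ : Type} [AddCommGroup E] [Module ℝ E]

/-- Value of a term. -/
def Fam.val (F : Fam E ι σ) (i : ι) (s : σ) (x : E) : ℝ := F.c i s + F.a i s x

open Classical in
/-- The maximal terms at `x`. -/
noncomputable def Fam.N (F : Fam E ι σ) (i : ι) (x : E) : Finset σ :=
  (F.A i).filter (fun s => ∀ t ∈ F.A i, F.val i t x ≤ F.val i s x)

/-- The span of differences of linear parts of terms in `B`. -/
def dirSpan (a : σ → Dual ℝ E) (B : Finset σ) : Submodule ℝ (Dual ℝ E) :=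
  Submodule.span ℝ {l | ∃ s ∈ B, ∃ t ∈ B, l = a s - a t}

/-- Direction space at `x`. -/
noncomputable def Fam.D (F : Fam E ι σ) (x : E) (i : ι) : Submodule ℝ (Dual ℝ E) :=
  dirSpan (F.a i) (F.N i x)

/-- Global direction space. -/
def Fam.DG (F : Fam E ι σ) (i : ι) : Submodule ℝ (Dual ℝ E) := dirSpan (F.a i) (F.A i)

/-- Rado independence. -/
def Ind (D : ι → Submodule ℝ (Dual ℝ E)) (K : Finset ι) : Prop :=
  ∀ I : Finset ι, I ⊆ K → I.card ≤ finrank ℝ (I.sup D : Submodule ℝ (Dual ℝ E))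

theorem dirSpan_mono (a : σ → Dual ℝ E) {B B' : Finset σ} (h : B ⊆ B') :
    dirSpan a B ≤ dirSpan a B' := by
  apply Submodule.span_mono
  rintro l ⟨s, hs, t, ht, rfl⟩
  exact ⟨s, h hs, t, h ht, rfl⟩

theorem sub_mem_dirSpan (a : σ → Dual ℝ E) {B : Finset σ} {s t : σ} (hs : s ∈ B) (ht : t ∈ B) :
    a s - a t ∈ dirSpan a B :=
  Submodule.subset_span ⟨s, hs, t, ht, rfl⟩

theorem dirSpan_le (a : σ → Dual ℝ E) {B : Finset σ} {W : Submodule ℝ (Dual ℝ E)}
    (h : ∀ s ∈ B, ∀ t ∈ B, a s - a t ∈ W) : dirSpan a B ≤ W := by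
  apply Submodule.span_le.mpr
  rintro l ⟨s, hs, t, ht, rfl⟩
  exact h s hs t ht

theorem mem_N (F : Fam E ι σ) {i : ι} {x : E} {s : σ} :
    s ∈ F.N i x ↔ s ∈ F.A i ∧ ∀ t ∈ F.A i, F.val i t x ≤ F.val i s x := by
  classical
  unfold Fam.N
  rw [Finset.mem_filter]

theorem N_subset (F : Fam E ι σ) (i : ι) (x : E) : F.N i x ⊆ F.A i := by
  intro s hs
  exact ((mem_N F).mp hs).1

theorem N_nonempty (F : Fam E ι σ) {i : ι} (h : (F.A i).Nonempty) (x : E) :
    (F.N i x).Nonempty := by
  obtain ⟨s, hs, hmax⟩ := Finset.exists_max_image (F.A i) (fun s => F.val i s x) h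
  exact ⟨s, (mem_N F).mpr ⟨hs, hmax⟩⟩

theorem val_eq_of_mem_N (F : Fam E ι σ) {i : ι} {x : E} {s t : σ} (hs : s ∈ F.N i x)
    (ht : t ∈ F.N i x) : F.val i s x = F.val i t x := by
  rw [mem_N] at hs ht
  exact le_antisymm (ht.2 s hs.1) (hs.2 t ht.1)

theorem D_le_DG (F : Fam E ι σ) (x : E) (i : ι) : F.D x i ≤ F.DG i :=
  dirSpan_mono _ (N_subset F i x)

/-- Functionals in the direction space of the `i`-th polynomial at `y` take the same value at
`x` and `y` if all maximal terms at `y` are maximal at `x`. -/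
theorem eq_of_mem_D (F : Fam E ι σ) {i : ι} {x y : E} (h : F.N i y ⊆ F.N i x)
    {u : Dual ℝ E} (hu : u ∈ F.D y i) : u y = u x := by
  have key : ∀ v ∈ F.D y i, v (y - x) = 0 := by
    intro v hv
    have : F.D y i ≤ LinearMap.ker (Module.Dual.eval ℝ E (y - x)) := by
      apply dirSpan_le
      intro s hs t ht
      rw [LinearMap.mem_ker]
      have h1 := val_eq_of_mem_N F hs ht
      have h2 := val_eq_of_mem_N F (h hs) (h ht)
      unfold Fam.val at h1 h2
      simp only [Module.Dual.eval_apply, LinearMap.sub_apply, map_sub]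
      linarith
    have h3 := this hv
    rw [LinearMap.mem_ker, Module.Dual.eval_apply] at h3
    exact h3
  have := key u hu
  rw [map_sub] at this
  linarith

theorem Ind.mono {D D' : ι → Submodule ℝ (Dual ℝ E)} [FiniteDimensional ℝ E] {K : Finset ι}
    (h : Ind D K) (hD : ∀ i ∈ K, D i ≤ D' i) : Ind D' K := by
  intro I hI
  refine (h I hI).trans (Submodule.finrank_mono ?_)
  exact Finset.sup_mono_fun (fun i hi => hD i (hI hi))

theorem Ind.subset {D : ι → Submodule ℝ (Dual ℝ E)} {K K' : Finset ι}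
    (h : Ind D K) (hK : K' ⊆ K) : Ind D K' := fun I hI => h I (hI.trans hK)

/-- Tight sets. -/
def Tight (D : ι → Submodule ℝ (Dual ℝ E)) (I : Finset ι) : Prop :=
  I.card = finrank ℝ (I.sup D : Submodule ℝ (Dual ℝ E))

theorem tight_empty (D : ι → Submodule ℝ (Dual ℝ E)) : Tight D ∅ := by
  unfold Tight
  rw [Finset.sup_empty, Finset.card_empty, finrank_bot]

variable [DecidableEq ι]

theorem tight_lattice [FiniteDimensional ℝ E] {D : ι → Submodule ℝ (Dual ℝ E)} {K I J : Finset ι}
    (hK : Ind D K) (hI : I ⊆ K) (hJ : J ⊆ K) (tI : Tight D I) (tJ : Tight D J) :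
    Tight D (I ∪ J) ∧ Tight D (I ∩ J) ∧ (I ∩ J).sup D = I.sup D ⊓ J.sup D := by
  have h1 := Submodule.finrank_sup_add_finrank_inf_eq (I.sup D) (J.sup D)
  have h2 : (I ∪ J).sup D = I.sup D ⊔ J.sup D := Finset.sup_union
  have h3 : (I ∩ J).sup D ≤ I.sup D ⊓ J.sup D :=
    le_inf (Finset.sup_mono Finset.inter_subset_left) (Finset.sup_mono Finset.inter_subset_right)
  have h4 := Submodule.finrank_mono h3
  have h5 := hK (I ∪ J) (Finset.union_subset hI hJ)
  have h6 := hK (I ∩ J) (Finset.inter_subset_left.trans hI)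
  have h7 := Finset.card_union_add_card_inter I J
  unfold Tight at tI tJ ⊢
  rw [h2] at h5 ⊢
  refine ⟨by omega, by omega, ?_⟩
  exact Submodule.eq_of_le_of_finrank_eq h3 (by omega)

/-- There is a largest tight set. -/
theorem exists_max_tight [FiniteDimensional ℝ E] {D : ι → Submodule ℝ (Dual ℝ E)} {K : Finset ι}
    (hK : Ind D K) : ∃ I, I ⊆ K ∧ Tight D I ∧ ∀ J, J ⊆ K → Tight D J → J ⊆ I := by
  classical
  set T := K.powerset.filter (fun I => Tight D I) with hT
  have hne : T.Nonempty := ⟨∅, by rw [hT, Finset.mem_filter]; exact ⟨by simp, tight_empty D⟩⟩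
  obtain ⟨I, hI, hmax⟩ := Finset.exists_max_image T Finset.card hne
  rw [hT, Finset.mem_filter, Finset.mem_powerset] at hI
  refine ⟨I, hI.1, hI.2, ?_⟩
  intro J hJ tJ
  have h1 := (tight_lattice hK hI.1 hJ hI.2 tJ).1
  have h2 := hmax (I ∪ J) (by
    rw [hT, Finset.mem_filter, Finset.mem_powerset]
    exact ⟨Finset.union_subset hI.1 hJ, h1⟩)
  have h3 : I = I ∪ J := Finset.eq_of_subset_of_card_le Finset.subset_union_left h2
  rw [h3]
  exact Finset.subset_union_right

/-- There is a smallest tight set whose span contains `U`. -/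
theorem exists_min_tight [FiniteDimensional ℝ E] {D : ι → Submodule ℝ (Dual ℝ E)} {K : Finset ι}
    (hK : Ind D K) (U : Submodule ℝ (Dual ℝ E))
    (hU : ∃ I, I ⊆ K ∧ Tight D I ∧ U ≤ I.sup D) :
    ∃ I, I ⊆ K ∧ Tight D I ∧ U ≤ I.sup D ∧
      ∀ J, J ⊆ K → Tight D J → U ≤ J.sup D → I ⊆ J := by
  classical
  set T := K.powerset.filter (fun I => Tight D I ∧ U ≤ I.sup D) with hT
  have hne : T.Nonempty := by
    obtain ⟨I, h1, h2, h3⟩ := hU
    exact ⟨I, by rw [hT, Finset.mem_filter, Finset.mem_powerset]; exact ⟨h1, h2, h3⟩⟩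
  obtain ⟨I, hI, hmin⟩ := Finset.exists_min_image T Finset.card hne
  rw [hT, Finset.mem_filter, Finset.mem_powerset] at hI
  obtain ⟨hI1, hI2, hI3⟩ := hI
  refine ⟨I, hI1, hI2, hI3, ?_⟩
  intro J hJ tJ hUJ
  obtain ⟨-, h1, h2⟩ := tight_lattice hK hI1 hJ hI2 tJ
  have h3 := hmin (I ∩ J) (by
    rw [hT, Finset.mem_filter, Finset.mem_powerset]
    refine ⟨Finset.inter_subset_left.trans hI1, h1, ?_⟩
    rw [h2]
    exact le_inf hI3 hUJ)
  have h4 : I ∩ J = I := Finset.eq_of_subset_of_card_le Finset.inter_subset_left h3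
  rw [← h4]
  exact Finset.inter_subset_right

end basic

section top

variable {E ι σ : Type} [NormedAddCommGroup E] [NormedSpace ℝ E] [FiniteDimensional ℝ E]

theorem continuous_dual (l : Dual ℝ E) : Continuous l := l.continuous_of_finiteDimensional

theorem continuous_val (F : Fam E ι σ) (i : ι) (s : σ) : Continuous (F.val i s) := by
  unfold Fam.val
  exact continuous_const.add (continuous_dual _)

theorem ev_N_subset (F : Fam E ι σ) (i : ι) (x : E) : ∀ᶠ y in 𝓝 x, F.N i y ⊆ F.N i x := by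
  have h : ∀ s ∈ F.A i, ∀ᶠ y in 𝓝 x, s ∈ F.N i y → s ∈ F.N i x := by
    intro s hs
    by_cases hsx : s ∈ F.N i x
    · exact Eventually.of_forall (fun y _ => hsx)
    · rw [mem_N] at hsx
      push Not at hsx
      obtain ⟨t, ht, hlt⟩ := hsx hs
      have h1 : ∀ᶠ y in 𝓝 x, F.val i s y < F.val i t y :=
        (continuous_val F i s).continuousAt.eventually_lt (continuous_val F i t).continuousAt hlt
      filter_upwards [h1] with y hy hsy
      rw [mem_N] at hsy
      exact absurd (hsy.2 t ht) (not_le.mpr hy)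
  have h2 := (Finset.eventually_all (F.A i)).mpr h
  filter_upwards [h2] with y hy s hs
  exact hy s (N_subset F i y hs) hs

theorem ev_all_N_subset (F : Fam E ι σ) (K : Finset ι) (x : E) :
    ∀ᶠ y in 𝓝 x, ∀ i ∈ K, F.N i y ⊆ F.N i x :=
  (Finset.eventually_all K).mpr (fun i _ => ev_N_subset F i x)

omit [FiniteDimensional ℝ E] in
/-- If all functionals of the direction space at `x` agree at `x` and `y` and `y` is close to
`x`, the maximal terms are the same. -/
theorem N_eq (F : Fam E ι σ) {i : ι} {x y : E} (h : F.N i y ⊆ F.N i x)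
    (hD : ∀ u ∈ F.D x i, u y = u x) : F.N i y = F.N i x := by
  apply Finset.Subset.antisymm h
  intro s hs
  have hne : (F.A i).Nonempty := ⟨s, N_subset F i x hs⟩
  obtain ⟨t, ht⟩ := N_nonempty F hne y
  have ht' := h ht
  have h1 := val_eq_of_mem_N F hs ht'
  have h2 := hD _ (sub_mem_dirSpan (F.a i) hs ht')
  rw [mem_N]
  refine ⟨N_subset F i x hs, ?_⟩
  intro r hr
  have h3 := ((mem_N F).mp ht).2 r hr
  have h4 : F.val i s y = F.val i t y := by
    unfold Fam.val at h1 ⊢
    simp only [LinearMap.sub_apply] at h2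
    linarith
  rw [h4]
  exact h3

/-- Local structure near a point where `I` is tight. -/
theorem local_tight (F : Fam E ι σ) {K I : Finset ι} {x y : E} (hI : I ⊆ K)
    (tI : Tight (F.D x) I) (hy : Ind (F.D y) K) (hN : ∀ i ∈ K, F.N i y ⊆ F.N i x) :
    I.sup (F.D y) = I.sup (F.D x) ∧ Tight (F.D y) I ∧ (∀ u ∈ I.sup (F.D x), u y = u x) := by
  have h1 : I.sup (F.D y) ≤ I.sup (F.D x) :=
    Finset.sup_mono_fun (fun i hi => dirSpan_mono _ (hN i (hI hi)))
  have h2 := hy I hI
  have h3 := Submodule.finrank_mono h1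
  unfold Tight at tI ⊢
  have h4 : I.sup (F.D y) = I.sup (F.D x) := Submodule.eq_of_le_of_finrank_eq h1 (by omega)
  refine ⟨h4, by omega, ?_⟩
  intro u hu
  rw [← h4] at hu
  have h5 : I.sup (F.D y) ≤ LinearMap.ker (Module.Dual.eval ℝ E (y - x)) := by
    apply Finset.sup_le
    intro i hi v hv
    rw [LinearMap.mem_ker, Module.Dual.eval_apply, map_sub,
      eq_of_mem_D F (hN i (hI hi)) hv, sub_self]
  have h6 := h5 hu
  rw [LinearMap.mem_ker, Module.Dual.eval_apply, map_sub] at h6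
  linarith

/-- The local fan family at `x`. -/
noncomputable def Fam.loc (F : Fam E ι σ) (x : E) : Fam E ι σ where
  A := fun i => F.N i x
  c := fun _ _ => 0
  a := F.a

theorem ev_dir (F : Fam E ι σ) (i : ι) (x w : E) :
    ∀ᶠ ε : ℝ in 𝓝[>] 0, F.N i (x + ε • w) = (F.loc x).N i w := by
  have hc : Tendsto (fun ε : ℝ => x + ε • w) (𝓝[>] 0) (𝓝 x) := by
    have : Tendsto (fun ε : ℝ => x + ε • w) (𝓝 0) (𝓝 (x + (0 : ℝ) • w)) :=
      (Continuous.tendsto (by fun_prop) 0)
    rw [zero_smul, add_zero] at this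
    exact this.mono_left nhdsWithin_le_nhds
  filter_upwards [hc.eventually (ev_N_subset F i x), self_mem_nhdsWithin] with ε h1 h2
  have hε : (0 : ℝ) < ε := h2
  have hcomp : ∀ s ∈ F.N i x, ∀ t ∈ F.N i x,
      (F.val i t (x + ε • w) ≤ F.val i s (x + ε • w) ↔ F.a i t w ≤ F.a i s w) := by
    intro s hs t ht
    have h3 := val_eq_of_mem_N F hs ht
    unfold Fam.val at h3 ⊢
    rw [map_add, map_add, map_smul, map_smul, smul_eq_mul, smul_eq_mul]
    constructor
    · intro h4
      have h5 : ε * F.a i t w ≤ ε * F.a i s w := by linarith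
      exact le_of_mul_le_mul_left h5 hε
    · intro h4
      have h5 : ε * F.a i t w ≤ ε * F.a i s w := mul_le_mul_of_nonneg_left h4 hε.le
      linarith
  ext s
  constructor
  · intro hs
    have hsx := h1 hs
    rw [mem_N] at hs ⊢
    refine ⟨hsx, ?_⟩
    intro t ht
    have h3 := (hcomp s hsx t ht).mp (hs.2 t (N_subset F i x ht))
    unfold Fam.val Fam.loc
    simpa using h3
  · intro hs
    rw [mem_N] at hs
    obtain ⟨hsx, hs2⟩ := hs
    have hsx' : s ∈ F.N i x := hsx
    have hsA := N_subset F i x hsx'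
    obtain ⟨t, ht⟩ := N_nonempty F ⟨s, hsA⟩ (x + ε • w)
    have htx := h1 ht
    rw [mem_N] at ht ⊢
    refine ⟨hsA, ?_⟩
    intro r hr
    refine (ht.2 r hr).trans ?_
    rw [hcomp s hsx' t htx]
    have h3 := hs2 t htx
    unfold Fam.val Fam.loc at h3
    simpa using h3

end top

end Pool.Agent.Helper58.Trop
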