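import Mathlib
import Pool.Agent.Helper58.Trop1

set_option autoImplicit false

/-!
# The key lemma: moving in a direction increasing `u`
-/

namespace Pool.Agent.Helper58.Trop

open Module Filter Topology

/-- Existence of independent points in dimension `d`. -/
def PropE (ι σ : Type) (d : ℕ) : Prop :=
  ∀ (E : Type) [NormedAddCommGroup E] [NormedSpace ℝ E] [FiniteDimensional ℝ E]
    (F : Fam E ι σ) (K : Finset ι), finrank ℝ E = d → Ind F.DG K → ∃ x, Ind (F.D x) K

section

variable {E E' ι σ : Type} [AddCommGroup E] [Module ℝ E] [AddCommGroup E'] [Module ℝ E']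

theorem map_dirSpan (r : Dual ℝ E →ₗ[ℝ] Dual ℝ E') (a : σ → Dual ℝ E) (B : Finset σ) :
    (dirSpan a B).map r = dirSpan (fun s => r (a s)) B := by
  unfold dirSpan
  rw [Submodule.map_span]
  congr 1
  ext l
  constructor
  · rintro ⟨l', ⟨s, hs, t, ht, rfl⟩, rfl⟩
    exact ⟨s, hs, t, ht, by rw [map_sub]⟩
  · rintro ⟨s, hs, t, ht, rfl⟩
    exact ⟨a s - a t, ⟨s, hs, t, ht, rfl⟩, by rw [map_sub]⟩

theorem map_sup (r : Dual ℝ E →ₗ[ℝ] Dual ℝ E') (D : ι → Submodule ℝ (Dual ℝ E)) (I : Finset ι) :
    (I.sup D).map r = I.sup (fun i => (D i).map r) := by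
  classical
  induction I using Finset.induction_on with
  | empty => rw [Finset.sup_empty, Finset.sup_empty, Submodule.map_bot]
  | insert i I _ ih => rw [Finset.sup_insert, Finset.sup_insert, Submodule.map_sup, ih]

end

variable {E ι σ : Type} [NormedAddCommGroup E] [NormedSpace ℝ E] [FiniteDimensional ℝ E]

theorem finrank_map_ge (u : Dual ℝ E) (W : Submodule ℝ (Dual ℝ E)) :
    finrank ℝ W ≤ finrank ℝ (W.map (Submodule.dualRestrict (LinearMap.ker u))) + 1 ∧
    (u ∉ W → finrank ℝ W ≤ finrank ℝ (W.map (Submodule.dualRestrict (LinearMap.ker u)))) := by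
  set r := Submodule.dualRestrict (LinearMap.ker u) with hr
  have hker : ∀ v : Dual ℝ E, r v = 0 → v ∈ Submodule.span ℝ {u} := by
    intro v hv
    have h0 : ∀ z, u z = 0 → v z = 0 := by
      intro z hz
      have h1 := LinearMap.congr_fun hv (⟨z, hz⟩ : LinearMap.ker u)
      simpa [hr, Submodule.dualRestrict_apply] using h1
    by_cases hu : u = 0
    · have : v = 0 := by
        ext z
        exact h0 z (by rw [hu]; rfl)
      rw [this]
      exact Submodule.zero_mem _
    · obtain ⟨z, hz⟩ : ∃ z, u z ≠ 0 := by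
        by_contra hcon
        push Not at hcon
        exact hu (LinearMap.ext hcon)
      rw [Submodule.mem_span_singleton]
      refine ⟨v z / u z, ?_⟩
      ext y
      have h1 := h0 (y - (u y / u z) • z) (by
        rw [map_sub, map_smul, smul_eq_mul]
        field_simp
        ring)
      rw [map_sub, map_smul, smul_eq_mul] at h1
      rw [LinearMap.smul_apply, smul_eq_mul]
      field_simp at h1 ⊢
      linarith
  set g : W →ₗ[ℝ] Dual ℝ (LinearMap.ker u) := r ∘ₗ W.subtype with hg
  have h1 := LinearMap.finrank_range_add_finrank_ker (K := ℝ) (V := W)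
    (V₂ := Dual ℝ (LinearMap.ker u)) g
  have hrange : LinearMap.range g = W.map r := by
    rw [hg, LinearMap.range_comp, Submodule.range_subtype]
  rw [hrange] at h1
  constructor
  · have h2 : finrank ℝ (LinearMap.ker g) ≤ 1 := by
      have h3 : finrank ℝ ((LinearMap.ker g).map W.subtype) =
          finrank ℝ (LinearMap.ker g) :=
        Submodule.finrank_map_subtype_eq W _
      rw [← h3]
      have h4 : (LinearMap.ker g).map W.subtype ≤ Submodule.span ℝ {u} := by
        rintro v ⟨v', hv', rfl⟩
        apply hker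
        have h5 : g v' = 0 := hv'
        exact h5
      refine (Submodule.finrank_mono h4).trans ?_
      exact (finrank_span_le_card ({u} : Set (Dual ℝ E))).trans (by simp)
    omega
  · intro hu
    have h2 : LinearMap.ker g = ⊥ := by
      rw [Submodule.eq_bot_iff]
      intro v hv
      have h5 : g v = 0 := hv
      have h6 := hker _ h5
      rw [Submodule.mem_span_singleton] at h6
      obtain ⟨c, hc⟩ := h6
      by_cases hc0 : c = 0
      · rw [hc0, zero_smul] at hc
        exact Subtype.ext hc.symm
      · exfalso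
        apply hu
        have h7 : u = c⁻¹ • (v : Dual ℝ E) := by
          have h8 : (v : Dual ℝ E) = c • u := hc.symm
          rw [h8, smul_smul, inv_mul_cancel₀ hc0, one_smul]
        rw [h7]
        exact W.smul_mem _ v.2
    rw [h2, finrank_bot] at h1
    omega

theorem key_lemma (hP : ∀ d < finrank ℝ E, PropE ι σ d) (F : Fam E ι σ) (K : Finset ι)
    (x : E) (hK : Ind (F.D x) K) (u : Dual ℝ E)
    (hu : ∀ I, I ⊆ K → Tight (F.D x) I → u ∉ I.sup (F.D x)) :
    ∃ w : E, 0 < u w ∧ Ind ((F.loc x).D w) K := by
  have hu0 : u ≠ 0 := by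
    intro h0
    apply hu ∅ (Finset.empty_subset _) (tight_empty _)
    rw [h0]
    exact Submodule.zero_mem _
  obtain ⟨z, hz⟩ : ∃ z, u z ≠ 0 := by
    by_contra hcon
    push Not at hcon
    exact hu0 (LinearMap.ext hcon)
  set w₀ := (u z)⁻¹ • z with hw₀
  have huw : u w₀ = 1 := by
    rw [hw₀, map_smul, smul_eq_mul, inv_mul_cancel₀ hz]
  set r := Submodule.dualRestrict (LinearMap.ker u) with hr
  set G : Fam (LinearMap.ker u) ι σ :=
    { A := fun i => F.N i x
      c := fun i s => F.a i s w₀
      a := fun i s => r (F.a i s) } with hG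
  have hlt : finrank ℝ (LinearMap.ker u) < finrank ℝ E := by
    apply Submodule.finrank_lt
    intro htop
    have : w₀ ∈ LinearMap.ker u := by rw [htop]; exact Submodule.mem_top
    rw [LinearMap.mem_ker, huw] at this
    exact one_ne_zero this
  have hDG : ∀ I : Finset ι, I.sup G.DG = (I.sup (F.D x)).map r := by
    intro I
    rw [map_sup]
    congr 1
    ext1 i
    exact (map_dirSpan r (F.a i) (F.N i x)).symm
  have hInd : Ind G.DG K := by
    intro I hI
    rw [hDG]
    obtain ⟨h1, h2⟩ := finrank_map_ge u (I.sup (F.D x))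
    rw [← hr] at h1 h2
    have h3 := hK I hI
    by_cases hT : Tight (F.D x) I
    · have h4 := h2 (hu I hI hT)
      unfold Tight at hT
      omega
    · unfold Tight at hT
      omega
  obtain ⟨y, hy⟩ := hP _ hlt (LinearMap.ker u) G K rfl hInd
  refine ⟨w₀ + y, ?_, ?_⟩
  · rw [map_add, huw, LinearMap.mem_ker.mp y.2]
    norm_num
  · have hN : ∀ i, G.N i y = (F.loc x).N i (w₀ + y) := by
      intro i
      ext s
      rw [mem_N G, mem_N (F.loc x)]
      have hval : ∀ t, G.val i t y = (F.loc x).val i t (w₀ + y) := by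
        intro t
        unfold Fam.val Fam.loc
        simp only [hG, hr, Submodule.dualRestrict_apply, map_add]
        ring
      simp only [hval]
      rfl
    have hD : ∀ I : Finset ι, I.sup (G.D y) = (I.sup ((F.loc x).D (w₀ + y))).map r := by
      intro I
      rw [map_sup]
      congr 1
      ext1 i
      unfold Fam.D
      rw [hN, map_dirSpan]
      rfl
    intro I hI
    have h1 := hy I hI
    rw [hD] at h1
    exact h1.trans (Submodule.finrank_map_le _ _)

end Pool.Agent.Helper58.Trop
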