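import Mathlib
import Pool.Agent.Helper58.Trop2

set_option autoImplicit false

/-!
# Components of the locus where `K` is independent
-/

namespace Pool.Agent.Helper58.Trop

open Module Filter Topology

/-- A function locally constant on a preconnected set is constant on it. -/
theorem const_of_locally_const {X α : Type} [TopologicalSpace X] {T : Set X}
    (hT : IsPreconnected T) (f : X → α) (h : ∀ x ∈ T, ∀ᶠ y in 𝓝[T] x, f y = f x) :
    ∀ x ∈ T, ∀ y ∈ T, f x = f y := by
  intro x hx y hy
  have : PreconnectedSpace T := isPreconnected_iff_preconnectedSpace.mp hT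
  have hlc : IsLocallyConstant (fun z : T => f z) := by
    rw [IsLocallyConstant.iff_eventually_eq]
    intro z
    have h1 := h z z.2
    rw [eventually_nhdsWithin_iff, ] at h1
    have h2 : Tendsto (fun w : T => (w : X)) (𝓝 z) (𝓝 (z : X)) := continuous_subtype_val.tendsto z
    filter_upwards [h2.eventually h1] with w hw
    exact hw w.2
  exact hlc.apply_eq_of_preconnectedSpace ⟨x, hx⟩ ⟨y, hy⟩

variable {E ι σ : Type} [NormedAddCommGroup E] [NormedSpace ℝ E] [FiniteDimensional ℝ E]

/-- `T` is a component of the locus where `K` is independent. -/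
structure IsComp (F : Fam E ι σ) (K : Finset ι) (T : Set E) : Prop where
  conn : IsPreconnected T
  ind : ∀ x ∈ T, Ind (F.D x) K
  maxl : ∀ x ∈ T, ∀ V : Set E, IsPreconnected V → x ∈ V → (∀ y ∈ V, Ind (F.D y) K) → V ⊆ T

omit [FiniteDimensional ℝ E] in
theorem isComp_connectedComponentIn (F : Fam E ι σ) (K : Finset ι) (x : E) :
    IsComp F K (connectedComponentIn {x | Ind (F.D x) K} x) where
  conn := isPreconnected_connectedComponentIn
  ind := fun y hy => connectedComponentIn_subset _ _ hy
  maxl := by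
    intro y hy V hV hyV hVS
    rw [connectedComponentIn_eq hy]
    exact hV.subset_connectedComponentIn hyV hVS

omit [FiniteDimensional ℝ E] in
theorem IsComp.segment {F : Fam E ι σ} {K : Finset ι} {T : Set E} (hT : IsComp F K T) {x w : E}
    (hx : x ∈ T) {ε : ℝ} (hε : 0 ≤ ε) (h : ∀ t ∈ Set.Icc 0 ε, Ind (F.D (x + t • w)) K) :
    x + ε • w ∈ T := by
  have h1 : IsPreconnected ((fun t : ℝ => x + t • w) '' Set.Icc 0 ε) :=
    isPreconnected_Icc.image _ (by fun_prop)
  refine hT.maxl x hx _ h1 ⟨0, ⟨le_rfl, hε⟩, by simp⟩ ?_ ⟨ε, ⟨hε, le_rfl⟩, rfl⟩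
  rintro y ⟨t, ht, rfl⟩
  exact h t ht

theorem ind_congr {F G : Fam E ι σ} {K : Finset ι} {x y : E} (ha : F.a = G.a)
    (h : ∀ i ∈ K, F.N i x = G.N i y) (hI : Ind (G.D y) K) : Ind (F.D x) K := by
  apply hI.mono
  intro i hi
  unfold Fam.D
  rw [h i hi, ha]

theorem IsComp.move {F : Fam E ι σ} {K : Finset ι} {T : Set E} (hT : IsComp F K T) {x w : E}
    (hx : x ∈ T) (hw : Ind ((F.loc x).D w) K) : ∃ ε : ℝ, 0 < ε ∧ x + ε • w ∈ T := by
  have h1 : ∀ᶠ ε : ℝ in 𝓝[>] 0, ∀ i ∈ K, F.N i (x + ε • w) = (F.loc x).N i w :=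
    (Finset.eventually_all K).mpr (fun i _ => ev_dir F i x w)
  obtain ⟨u, hu, hsub⟩ := mem_nhdsGT_iff_exists_Ioo_subset.mp h1
  have hu' : (0 : ℝ) < u := hu
  refine ⟨u / 2, by linarith, hT.segment hx (by linarith) ?_⟩
  intro t ht
  rcases eq_or_lt_of_le ht.1 with h0 | h0
  · rw [← h0, zero_smul, add_zero]
    exact hT.ind x hx
  · have h2 : ∀ i ∈ K, F.N i (x + t • w) = (F.loc x).N i w :=
      hsub (show t ∈ Set.Ioo 0 u from ⟨h0, by linarith [ht.2]⟩)
    exact ind_congr (F := F) (G := F.loc x) rfl h2 hw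

/-- Functionals in the span of a tight set are locally constant. -/
theorem IsComp.near {F : Fam E ι σ} {K : Finset ι} {T : Set E} (hT : IsComp F K T) {x : E}
    (i : ι) :
    ∀ᶠ y in 𝓝[T] x, Ind (F.D y) K ∧ (∀ i ∈ K, F.N i y ⊆ F.N i x) ∧ F.N i y ⊆ F.N i x := by
  rw [eventually_nhdsWithin_iff]
  filter_upwards [ev_all_N_subset F K x, ev_N_subset F i x] with y h1 h2 h3
  exact ⟨hT.ind y h3, h1, h2⟩

theorem IsComp.near' {F : Fam E ι σ} {K : Finset ι} {T : Set E} (hT : IsComp F K T) {x : E} :
    ∀ᶠ y in 𝓝[T] x, Ind (F.D y) K ∧ (∀ i ∈ K, F.N i y ⊆ F.N i x) := by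
  rw [eventually_nhdsWithin_iff]
  filter_upwards [ev_all_N_subset F K x] with y h1 h3
  exact ⟨hT.ind y h3, h1⟩

/-- Either `u` can be increased within `T` or `u` lies in the span of a tight set. -/
theorem IsComp.increase (hP : ∀ d < finrank ℝ E, PropE ι σ d) {F : Fam E ι σ} {K : Finset ι}
    {T : Set E} (hT : IsComp F K T) {x : E} (hx : x ∈ T) (u : Dual ℝ E)
    (hu : ∀ y ∈ T, u y ≤ u x) : ∃ I, I ⊆ K ∧ Tight (F.D x) I ∧ u ∈ I.sup (F.D x) := by
  by_contra hcon
  push Not at hcon
  obtain ⟨w, hw, hI⟩ := key_lemma hP F K x (hT.ind x hx) u hcon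
  obtain ⟨ε, hε, hy⟩ := hT.move hx hI
  have h1 := hu _ hy
  rw [map_add, map_smul, smul_eq_mul] at h1
  have h2 : 0 < ε * u w := mul_pos hε hw
  linarith

/-- Sliding along a direction in which all maximal terms stay maximal. -/
theorem IsComp.slide {F : Fam E ι σ} {K : Finset ι} {T : Set E} (hT : IsComp F K T) {x w : E}
    (hx : x ∈ T) (hw : ∀ i ∈ K, ∀ u ∈ F.D x i, u w = 0) (l : Dual ℝ E) (hl : 0 < l w)
    {M : ℝ} (hM : ∀ y ∈ T, l y ≤ M) :
    ∃ x' ∈ T, l x ≤ l x' ∧ (∀ i ∈ K, F.N i x ⊆ F.N i x') ∧ ∃ i ∈ K, F.N i x ≠ F.N i x' := by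
  set C : Set ℝ := {t | 0 ≤ t ∧ ∀ i ∈ K, ∀ a ∈ F.N i x, ∀ b ∈ F.A i,
    F.val i b (x + t • w) ≤ F.val i a (x + t • w)} with hC
  have hCN : ∀ t ∈ C, ∀ i ∈ K, F.N i x ⊆ F.N i (x + t • w) := by
    intro t ht i hi s hs
    rw [mem_N]
    exact ⟨N_subset F i x hs, ht.2 i hi s hs⟩
  have h0 : (0 : ℝ) ∈ C := by
    refine ⟨le_rfl, ?_⟩
    intro i _ a ha b hb
    rw [zero_smul, add_zero]
    exact ((mem_N F).mp ha).2 b hb
  have hint : ∀ t ∈ C, ∀ s ∈ Set.Icc 0 t, s ∈ C := by
    intro t ht s hs
    refine ⟨hs.1, ?_⟩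
    intro i hi a ha b hb
    rcases eq_or_lt_of_le hs.1 with h | h
    · rw [← h]
      exact h0.2 i hi a ha b hb
    · have ht0 : 0 < t := lt_of_lt_of_le h hs.2
      have h1 := ht.2 i hi a ha b hb
      have h2 := h0.2 i hi a ha b hb
      unfold Fam.val at h1 h2 ⊢
      simp only [map_add, map_smul, smul_eq_mul, zero_mul, add_zero] at h1 h2 ⊢
      have h3 : s * (F.a i b w - F.a i a w) * t ≤
          (F.c i a + F.a i a x - (F.c i b + F.a i b x)) * t := by
        have h4 : t * (F.a i b w - F.a i a w) ≤ F.c i a + F.a i a x - (F.c i b + F.a i b x) := by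
          linarith
        have h5 : s * (t * (F.a i b w - F.a i a w)) ≤
            s * (F.c i a + F.a i a x - (F.c i b + F.a i b x)) :=
          mul_le_mul_of_nonneg_left h4 hs.1
        have h6 : s * (F.c i a + F.a i a x - (F.c i b + F.a i b x)) ≤
            t * (F.c i a + F.a i a x - (F.c i b + F.a i b x)) :=
          mul_le_mul_of_nonneg_right hs.2 (by linarith)
        nlinarith
      have h7 := le_of_mul_le_mul_right h3 ht0
      linarith
  have hCT : ∀ t ∈ C, x + t • w ∈ T := by
    intro t ht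
    apply hT.segment hx ht.1
    intro s hs
    apply (hT.ind x hx).mono
    intro i hi
    exact dirSpan_mono _ (hCN s (hint t ht s hs) i hi)
  have hbdd : BddAbove C := by
    refine ⟨(M - l x) / l w, ?_⟩
    intro t ht
    rw [le_div_iff₀ hl]
    have h1 := hM _ (hCT t ht)
    rw [map_add, map_smul, smul_eq_mul] at h1
    linarith
  have hclosed : IsClosed C := by
    have h1 : C = Set.Ici 0 ∩ ⋂ i ∈ K, ⋂ a ∈ F.N i x, ⋂ b ∈ F.A i,
        {t : ℝ | F.val i b (x + t • w) ≤ F.val i a (x + t • w)} := by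
      ext t
      simp [hC]
    rw [h1]
    refine isClosed_Ici.inter (isClosed_biInter fun i _ => isClosed_biInter fun a _ =>
      isClosed_biInter fun b _ => ?_)
    have hcont : ∀ s, Continuous (fun t : ℝ => F.val i s (x + t • w)) := fun s =>
      (continuous_val F i s).comp (by fun_prop)
    exact isClosed_le (hcont b) (hcont a)
  have hsup : sSup C ∈ C := hclosed.csSup_mem ⟨0, h0⟩ hbdd
  set ε := sSup C with hε
  refine ⟨x + ε • w, hCT ε hsup, ?_, hCN ε hsup, ?_⟩
  · rw [map_add, map_smul, smul_eq_mul]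
    have : 0 ≤ ε * l w := mul_nonneg hsup.1 hl.le
    linarith
  · by_contra hcon
    push Not at hcon
    set x' := x + ε • w with hx'
    have hc : Tendsto (fun δ : ℝ => x' + δ • w) (𝓝[>] 0) (𝓝 x') := by
      have : Tendsto (fun δ : ℝ => x' + δ • w) (𝓝 0) (𝓝 (x' + (0 : ℝ) • w)) :=
        (Continuous.tendsto (by fun_prop) 0)
      rw [zero_smul, add_zero] at this
      exact this.mono_left nhdsWithin_le_nhds
    have h1 := hc.eventually (ev_all_N_subset F K x')
    obtain ⟨δ, hδ, hδ0⟩ := (h1.and self_mem_nhdsWithin).exists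
    have hδ0' : (0 : ℝ) < δ := hδ0
    have hmem : ε + δ ∈ C := by
      refine ⟨by linarith [hsup.1], ?_⟩
      intro i hi a ha b hb
      have h2 : F.N i (x' + δ • w) = F.N i x' := by
        apply N_eq F (hδ i hi)
        intro u hu
        have h3 : u ∈ F.D x i := by
          unfold Fam.D at hu ⊢
          rw [hcon i hi]
          exact hu
        rw [map_add, map_smul, hw i hi u h3, smul_zero, add_zero]
      have h4 : x + (ε + δ) • w = x' + δ • w := by
        rw [hx', add_smul, add_assoc]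
      rw [h4]
      have h5 : a ∈ F.N i (x' + δ • w) := by
        rw [h2, ← hcon i hi]
        exact ha
      exact ((mem_N F).mp h5).2 b hb
    have := le_csSup hbdd hmem
    linarith

/-- From every point of `T` one can climb to a point where `l` is a combination of
directions. -/
theorem IsComp.climb {F : Fam E ι σ} {K : Finset ι} {T : Set E} (hT : IsComp F K T)
    (l : Dual ℝ E) {M : ℝ} (hM : ∀ y ∈ T, l y ≤ M) :
    ∀ (n : ℕ) (x : E), x ∈ T → ∑ i ∈ K, ((F.A i).card - (F.N i x).card) = n →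
      ∃ x' ∈ T, l x ≤ l x' ∧ l ∈ K.sup (F.D x') := by
  intro n
  induction n using Nat.strong_induction_on with
  | _ n ih =>
    intro x hx hn
    by_cases hl : l ∈ K.sup (F.D x)
    · exact ⟨x, hx, le_rfl, hl⟩
    · -- find a direction
      obtain ⟨w, hw, hlw⟩ : ∃ w : E, (∀ u ∈ K.sup (F.D x), u w = 0) ∧ 0 < l w := by
        set W := K.sup (F.D x) with hW
        have h1 : ∃ w ∈ W.dualCoannihilator, l w ≠ 0 := by
          by_contra hcon
          push Not at hcon
          apply hl
          rw [← Subspace.dualCoannihilator_dualAnnihilator_eq (W := W),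
            Submodule.mem_dualAnnihilator]
          exact hcon
        obtain ⟨w, hw, hlw⟩ := h1
        rw [Submodule.mem_dualCoannihilator] at hw
        rcases lt_or_gt_of_ne hlw with h | h
        · refine ⟨-w, ?_, ?_⟩
          · intro u hu
            rw [map_neg, hw u hu, neg_zero]
          · rw [map_neg]
            linarith
        · exact ⟨w, hw, h⟩
      obtain ⟨x', hx', hle, hsub, i, hi, hne⟩ := hT.slide hx
        (fun i hi u hu => hw u ((Finset.le_sup (f := F.D x) hi) hu)) l hlw hM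
      have hlt : ∑ i ∈ K, ((F.A i).card - (F.N i x').card) < n := by
        rw [← hn]
        apply Finset.sum_lt_sum
        · intro k hk
          have := Finset.card_le_card (hsub k hk)
          omega
        · refine ⟨i, hi, ?_⟩
          have h1 := Finset.card_lt_card (Finset.ssubset_iff_subset_ne.mpr ⟨hsub i hi, hne⟩)
          have h2 := Finset.card_le_card (N_subset F i x')
          omega
      obtain ⟨x'', hx'', hle', hmem⟩ := ih _ hlt x' hx' rfl
      exact ⟨x'', hx'', hle.trans hle', hmem⟩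

/-- A functional bounded above on `T` attains its maximum. -/
theorem IsComp.attains {F : Fam E ι σ} {K : Finset ι} {T : Set E} (hT : IsComp F K T)
    (hne : T.Nonempty) (l : Dual ℝ E) {M : ℝ} (hM : ∀ y ∈ T, l y ≤ M) :
    ∃ x ∈ T, ∀ y ∈ T, l y ≤ l x := by
  classical
  set P : Set E := {x | x ∈ T ∧ l ∈ K.sup (F.D x)} with hP
  have hPne : P.Nonempty := by
    obtain ⟨x, hx⟩ := hne
    obtain ⟨x', hx', -, h⟩ := hT.climb l hM _ x hx rfl
    exact ⟨x', hx', h⟩
  -- the values of `l` on `P` only depend on the maximal terms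
  have hfin : (l '' P).Finite := by
    set code : E → (K → (K.biUnion (fun i => F.A i)).powerset) := fun x i =>
      ⟨F.N i x, by
        rw [Finset.mem_powerset]
        exact (N_subset F i x).trans (Finset.subset_biUnion_of_mem (fun i => F.A i) i.2)⟩
      with hcode
    have hcodefin : (code '' P).Finite := Set.toFinite _
    have hdep : ∀ x ∈ P, ∀ y ∈ P, code x = code y → l x = l y := by
      intro x hx y hy hxy
      have hN : ∀ i ∈ K, F.N i x = F.N i y := by
        intro i hi
        have := congrFun hxy ⟨i, hi⟩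
        exact congrArg Subtype.val this
      have h5 : K.sup (F.D x) ≤ LinearMap.ker (Module.Dual.eval ℝ E (x - y)) := by
        apply Finset.sup_le
        intro i hi v hv
        rw [LinearMap.mem_ker, Module.Dual.eval_apply, map_sub,
          eq_of_mem_D F (hN i hi).subset hv, sub_self]
      have h6 := h5 hx.2
      rw [LinearMap.mem_ker, Module.Dual.eval_apply, map_sub] at h6
      linarith
    -- factor through the code
    choose! g hg using (fun (c : K → (K.biUnion (fun i => F.A i)).powerset)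
      (hc : c ∈ code '' P) => hc)
    refine (hcodefin.image (fun c => l (g c))).subset ?_
    rintro v ⟨x, hx, rfl⟩
    refine ⟨code x, ⟨x, hx, rfl⟩, ?_⟩
    obtain ⟨h1, h2⟩ := hg (code x) ⟨x, hx, rfl⟩
    exact hdep _ h1 _ hx h2
  obtain ⟨v, hv, hmax⟩ := hfin.exists_maximal (hPne.image l)
  obtain ⟨x, hx, rfl⟩ := hv
  refine ⟨x, hx.1, ?_⟩
  intro y hy
  obtain ⟨y', hy', h1, h2⟩ := hT.climb l hM _ y hy rfl
  refine h1.trans ?_
  by_contra hcon
  push Not at hcon
  have h3 := hmax (show l y' ∈ l '' P from ⟨y', ⟨hy', h2⟩, rfl⟩) hcon.le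
  linarith

/-- A functional bounded above on `T` is constant on `T`. -/
theorem IsComp.const_of_bdd (hP : ∀ d < finrank ℝ E, PropE ι σ d) {F : Fam E ι σ} {K : Finset ι}
    {T : Set E} (hT : IsComp F K T) (l : Dual ℝ E) {M : ℝ}
    (hM : ∀ y ∈ T, l y ≤ M) : ∀ x ∈ T, ∀ y ∈ T, l x = l y := by
  by_cases hne : T.Nonempty
  · obtain ⟨z, hz, hmax⟩ := hT.attains hne l hM
    have key := const_of_locally_const hT.conn (fun x => l x = l z) (by
      intro x hx
      by_cases hxz : l x = l z
      · obtain ⟨I, hI, tI, hl⟩ := hT.increase hP hx l (fun y hy => by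
          rw [hxz]; exact hmax y hy)
        filter_upwards [hT.near' (x := x)] with y hy
        have h1 := (local_tight F hI tI hy.1 hy.2).2.2 l hl
        rw [h1]
      · have h1 : ∀ᶠ y in 𝓝 x, l y ≠ l z :=
          (continuous_dual l).continuousAt.eventually_ne hxz
        filter_upwards [nhdsWithin_le_nhds h1] with y hy
        rw [eq_iff_iff]
        exact ⟨fun h => absurd h hy, fun h => absurd h hxz⟩)
    intro x hx y hy
    have h1 : l x = l z := by
      have := key x hx z hz
      rw [this]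
    have h2 : l y = l z := by
      have := key y hy z hz
      rw [this]
    rw [h1, h2]
  · intro x hx
    exact absurd ⟨x, hx⟩ hne

end Pool.Agent.Helper58.Trop
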