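import Mathlib
import Pool.Agent.Helper58.Trop3

set_option autoImplicit false

/-!
# The main claim: extending independent sets inside a component
-/

namespace Pool.Agent.Helper58.Trop

open Module Filter Topology

variable {E ι σ : Type} [NormedAddCommGroup E] [NormedSpace ℝ E] [FiniteDimensional ℝ E]

/-- Functionals constant on `T`. -/
def constOn (T : Set E) : Submodule ℝ (Dual ℝ E) where
  carrier := {u | ∀ x ∈ T, ∀ y ∈ T, u x = u y}
  add_mem' := by
    intro u v hu hv x hx y hy
    rw [LinearMap.add_apply, LinearMap.add_apply, hu x hx y hy, hv x hx y hy]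
  zero_mem' := by
    intro x _ y _
    rfl
  smul_mem' := by
    intro c u hu x hx y hy
    rw [LinearMap.smul_apply, LinearMap.smul_apply, hu x hx y hy]

/-- `I` is the smallest tight set at `x` whose span contains `U`. -/
def IsMin (F : Fam E ι σ) (K : Finset ι) (U : Submodule ℝ (Dual ℝ E)) (x : E)
    (I : Finset ι) : Prop :=
  I ⊆ K ∧ Tight (F.D x) I ∧ U ≤ I.sup (F.D x) ∧
    ∀ J, J ⊆ K → Tight (F.D x) J → U ≤ J.sup (F.D x) → I ⊆ J

/-- The maximal terms of polynomials whose direction space lies in the span of a tight set are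
locally constant. -/
theorem N_eq_of_tight (F : Fam E ι σ) {K I : Finset ι} {x y : E} (hI : I ⊆ K)
    (tI : Tight (F.D x) I) (hy : Ind (F.D y) K) (hN : ∀ i ∈ K, F.N i y ⊆ F.N i x) {j : ι}
    (hj : F.N j y ⊆ F.N j x) (hD : F.D x j ≤ I.sup (F.D x)) : F.N j y = F.N j x :=
  N_eq F hj (fun u hu => (local_tight F hI tI hy hN).2.2 u (hD hu))

theorem isMin_local [DecidableEq ι] (F : Fam E ι σ) {K I : Finset ι}
    {U : Submodule ℝ (Dual ℝ E)} {x y : E} (hI : IsMin F K U x I) (hy : Ind (F.D y) K)
    (hN : ∀ i ∈ K, F.N i y ⊆ F.N i x) : IsMin F K U y I := by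
  obtain ⟨hIK, tI, hUI, hmin⟩ := hI
  obtain ⟨h1, h2, -⟩ := local_tight F hIK tI hy hN
  obtain ⟨I', hI'K, tI', hUI', hmin'⟩ := exists_min_tight hy U ⟨I, hIK, h2, by rw [h1]; exact hUI⟩
  have h3 : I' ⊆ I := hmin' I hIK h2 (by rw [h1]; exact hUI)
  have h4 : ∀ i ∈ I, F.D y i = F.D x i := by
    intro i hi
    unfold Fam.D
    rw [N_eq_of_tight F hIK tI hy hN (hN i (hIK hi)) (Finset.le_sup (f := F.D x) hi)]
  have h5 : I'.sup (F.D y) = I'.sup (F.D x) := Finset.sup_congr rfl (fun i hi => h4 i (h3 hi))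
  have h6 : I ⊆ I' := by
    apply hmin I' hI'K
    · unfold Tight at tI' ⊢
      rw [← h5]
      exact tI'
    · rw [← h5]
      exact hUI'
  have h7 : I = I' := Finset.Subset.antisymm h6 h3
  rw [h7]
  exact ⟨hI'K, tI', hUI', hmin'⟩

omit [FiniteDimensional ℝ E] in
theorem IsMin.unique {F : Fam E ι σ} {K I I' : Finset ι} {U : Submodule ℝ (Dual ℝ E)} {x : E}
    (h : IsMin F K U x I) (h' : IsMin F K U x I') : I = I' :=
  Finset.Subset.antisymm (h.2.2.2 I' h'.1 h'.2.1 h'.2.2.1) (h'.2.2.2 I h.1 h.2.1 h.2.2.1)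

theorem main_claim [DecidableEq ι] (hP : ∀ d < finrank ℝ E, PropE ι σ d) {F : Fam E ι σ}
    {K : Finset ι} {T : Set E} (hT : IsComp F K T) (hne : T.Nonempty) (j : ι) (hj : j ∉ K)
    (hG : Ind F.DG (insert j K)) : ∃ x ∈ T, Ind (F.D x) (insert j K) := by
  by_contra hcon
  push Not at hcon
  obtain ⟨x₀, hx₀⟩ := hne
  -- step 0
  have step0 : ∀ x ∈ T, ∃ I, I ⊆ K ∧ Tight (F.D x) I ∧ F.D x j ≤ I.sup (F.D x) := by
    intro x hx
    have h1 := hcon x hx
    unfold Ind at h1
    push Not at h1
    obtain ⟨I', hI', hlt⟩ := h1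
    have hjI : j ∈ I' := by
      by_contra hjn
      have h2 : I' ⊆ K := by
        intro i hi
        rcases Finset.mem_insert.mp (hI' hi) with h | h
        · rw [h] at hi
          exact absurd hi hjn
        · exact h
      have := hT.ind x hx I' h2
      omega
    have hIK : I'.erase j ⊆ K := by
      intro i hi
      rw [Finset.mem_erase] at hi
      rcases Finset.mem_insert.mp (hI' hi.2) with h | h
      · exact absurd h hi.1
      · exact h
    have h3 := hT.ind x hx _ hIK
    have h4 : (I'.erase j).sup (F.D x) ≤ I'.sup (F.D x) :=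
      Finset.sup_mono (Finset.erase_subset _ _)
    have h5 := Submodule.finrank_mono h4
    have h6 : (I'.erase j).card = I'.card - 1 := Finset.card_erase_of_mem hjI
    have h7 : 0 < I'.card := Finset.card_pos.mpr ⟨j, hjI⟩
    refine ⟨I'.erase j, hIK, ?_, ?_⟩
    · unfold Tight
      omega
    · rw [Submodule.eq_of_le_of_finrank_eq h4 (by omega)]
      exact Finset.le_sup (f := F.D x) hjI
  -- `N j` is constant on `T`
  have hNj : ∀ x ∈ T, ∀ y ∈ T, F.N j x = F.N j y := by
    apply const_of_locally_const hT.conn (fun x => F.N j x)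
    intro x hx
    obtain ⟨I, hI, tI, hD⟩ := step0 x hx
    filter_upwards [hT.near (x := x) j] with y hy
    exact N_eq_of_tight F hI tI hy.1 hy.2.1 hy.2.2 hD
  -- functionals constant on `T`
  set U := constOn T with hU
  have hUtight : ∀ x ∈ T, ∃ I, I ⊆ K ∧ Tight (F.D x) I ∧ U ≤ I.sup (F.D x) := by
    intro x hx
    obtain ⟨I, hI, tI, hmax⟩ := exists_max_tight (hT.ind x hx)
    refine ⟨I, hI, tI, ?_⟩
    intro u hu
    obtain ⟨J, hJ, tJ, huJ⟩ := hT.increase hP hx u (fun y hy => (hu y hy x hx).le)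
    exact (Finset.sup_mono (f := F.D x) (hmax J hJ tJ)) huJ
  have hmin : ∀ x ∈ T, ∃ I, IsMin F K U x I := fun x hx =>
    exists_min_tight (hT.ind x hx) U (hUtight x hx)
  obtain ⟨I₀, hI₀⟩ := hmin x₀ hx₀
  have hI₀all : ∀ x ∈ T, IsMin F K U x I₀ := by
    have h1 := const_of_locally_const hT.conn (fun x => IsMin F K U x I₀) (by
      intro x hx
      obtain ⟨I, hI⟩ := hmin x hx
      filter_upwards [hT.near' (x := x)] with y hy
      have h2 := isMin_local F hI hy.1 hy.2
      rw [eq_iff_iff]
      constructor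
      · intro h3
        rw [← h2.unique h3]
        exact hI
      · intro h3
        rw [← hI.unique h3]
        exact h2)
    intro x hx
    have h2 : IsMin F K U x₀ I₀ = IsMin F K U x I₀ := h1 x₀ hx₀ x hx
    rw [← h2]
    exact hI₀
  -- `N i`, `i ∈ insert j I₀`, is constant on `T`
  have hNi : ∀ i ∈ insert j I₀, ∀ x ∈ T, ∀ y ∈ T, F.N i x = F.N i y := by
    intro i hi
    rcases Finset.mem_insert.mp hi with h | h
    · rw [h]
      exact hNj
    · apply const_of_locally_const hT.conn (fun x => F.N i x)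
      intro x hx
      obtain ⟨hIK, tI, -, -⟩ := hI₀all x hx
      filter_upwards [hT.near' (x := x)] with y hy
      exact N_eq_of_tight F hIK tI hy.1 hy.2 (hy.2 i (hIK h)) (Finset.le_sup (f := F.D x) h)
  obtain ⟨hIK, tI, hUI, -⟩ := hI₀
  -- the direction spaces at `x₀` consist of functionals constant on `T`
  have hDU : I₀.sup (F.D x₀) ≤ U := by
    apply Finset.sup_le
    intro i hi
    intro u hu x hx y hy
    have h1 : F.N i x = F.N i x₀ := hNi i (Finset.mem_insert_of_mem hi) x hx x₀ hx₀
    have h2 : F.N i y = F.N i x₀ := hNi i (Finset.mem_insert_of_mem hi) y hy x₀ hx₀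
    have h3 := eq_of_mem_D F h1.symm.subset hu
    have h4 := eq_of_mem_D F h2.symm.subset hu
    rw [← h3, ← h4]
  have hUeq : U = I₀.sup (F.D x₀) := le_antisymm hUI hDU
  -- the global direction spaces consist of functionals constant on `T`
  have hDGU : (insert j I₀).sup F.DG ≤ U := by
    apply Finset.sup_le
    intro i hi
    have hconst : ∀ s ∈ F.A i, ∀ t ∈ F.N i x₀, F.a i s - F.a i t ∈ U := by
      intro s hs t ht
      intro x hx y hy
      apply hT.const_of_bdd hP (F.a i s - F.a i t) (M := F.c i t - F.c i s) ?_ x hx y hy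
      intro z hz
      have h1 : t ∈ F.N i z := by
        rw [hNi i hi z hz x₀ hx₀]
        exact ht
      have h2 := ((mem_N F).mp h1).2 s hs
      unfold Fam.val at h2
      rw [LinearMap.sub_apply]
      linarith
    apply dirSpan_le
    intro s hs t ht
    obtain ⟨r, hr⟩ := N_nonempty F ⟨s, hs⟩ x₀
    have h1 := U.sub_mem (hconst s hs r hr) (hconst t ht r hr)
    rw [sub_sub_sub_cancel_right] at h1
    exact h1
  have h1 := hG (insert j I₀) (Finset.insert_subset_insert j hIK)
  have h2 := Submodule.finrank_mono hDGU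
  rw [hUeq] at h2
  rw [Finset.card_insert_of_notMem (fun h => hj (hIK h))] at h1
  unfold Tight at tI
  omega

theorem propE_all (ι σ : Type) [DecidableEq ι] (d : ℕ) : PropE ι σ d := by
  induction d using Nat.strong_induction_on with
  | _ d ih =>
    intro E _ _ _ F K hd
    induction K using Finset.induction_on with
    | empty =>
      intro _
      refine ⟨0, ?_⟩
      intro I hI
      rw [Finset.subset_empty.mp hI]
      simp
    | insert j K hj ihK =>
      intro hG
      obtain ⟨x₀, hx₀⟩ := ihK (hG.subset (Finset.subset_insert j K))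
      have hT := isComp_connectedComponentIn F K x₀
      obtain ⟨x, -, hx⟩ := main_claim (by rw [hd]; exact ih) hT
        ⟨x₀, mem_connectedComponentIn hx₀⟩ j hj hG
      exact ⟨x, hx⟩

end Pool.Agent.Helper58.Trop
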