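import Mathlib
import Pool.Agent.Helper58.Trop4

set_option autoImplicit false

/-!
# Stable intersection points and independence
-/

namespace Pool.Agent.Helper58.Trop

open Module Filter Topology

section

variable {E ι σ : Type} [NormedAddCommGroup E] [NormedSpace ℝ E] [FiniteDimensional ℝ E]

/-- If the direction spaces at `q` are independent then for all translations `v` there is a
direction `y` such that `q + ε y - ε v_i` is in the `i`-th corner locus. -/
theorem exists_direction [DecidableEq ι] (F : Fam E ι σ) (K : Finset ι) (q : E)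
    (hK : Ind (F.D q) K) (v : ι → E) :
    ∃ y : E, ∀ᶠ ε : ℝ in 𝓝[>] 0, ∀ i ∈ K, F.D (q + ε • (y - v i)) i ≠ ⊥ := by
  set G : Fam E ι σ :=
    { A := fun i => F.N i q
      c := fun i s => - F.a i s (v i)
      a := F.a } with hG
  have hInd : Ind G.DG K := hK
  obtain ⟨y, hy⟩ := propE_all ι σ (finrank ℝ E) E G K rfl hInd
  refine ⟨y, ?_⟩
  rw [Finset.eventually_all]
  intro i hi
  filter_upwards [ev_dir F i q (y - v i)] with ε hε
  have h1 : G.N i y = F.N i (q + ε • (y - v i)) := by
    rw [hε]
    ext s
    rw [mem_N G, mem_N (F.loc q)]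
    have hval : ∀ t, G.val i t y = (F.loc q).val i t (y - v i) := by
      intro t
      unfold Fam.val Fam.loc
      simp only [hG, map_sub]
      ring
    simp only [hval]
    rfl
  intro hbot
  have h2 := hy {i} (Finset.singleton_subset_iff.mpr hi)
  rw [Finset.sup_singleton] at h2
  have h3 : G.D y i = F.D (q + ε • (y - v i)) i := by
    unfold Fam.D
    rw [h1]
  rw [h3, hbot, finrank_bot, Finset.card_singleton] at h2
  omega

theorem exists_relation {V : Type} [AddCommGroup V] [Module ℝ V] [FiniteDimensional ℝ V]
    {I : Type} [Fintype I] (d : I → V) (W : Submodule ℝ V) (hd : ∀ j, d j ∈ W)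
    (h : finrank ℝ W < Fintype.card I) : ∃ g : I → ℝ, ∑ j, g j • d j = 0 ∧ ∃ j, g j ≠ 0 := by
  rw [← Fintype.not_linearIndependent_iff]
  intro hli
  have h1 := finrank_span_eq_card hli
  have h2 : Submodule.span ℝ (Set.range d) ≤ W := by
    rw [Submodule.span_le]
    rintro _ ⟨j, rfl⟩
    exact hd j
  have h3 := Submodule.finrank_mono h2
  omega

/-- If the global direction spaces are dependent, then for generic `v` the translates meet only
for finitely many `ε`. -/
theorem finite_of_not_ind {n : ℕ} (F : Fam E (Fin n) σ) (J : Finset (Fin n))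
    (hJ : ¬ Ind F.DG J) (Z : Finset (Dual ℝ (Fin n → E))) (hZ : ∀ l ∈ Z, l ≠ 0) :
    ∃ v : Fin n → E, (∀ l ∈ Z, l v ≠ 0) ∧
      {ε : ℝ | ∃ x : E, ∀ j ∈ J, ∃ s ∈ F.A j, ∃ t ∈ F.A j, F.a j s ≠ F.a j t ∧
        F.val j s (x - ε • v j) = F.val j t (x - ε • v j)}.Finite := by
  classical
  unfold Ind at hJ
  push Not at hJ
  obtain ⟨I, hIJ, hlt⟩ := hJ
  -- choices of pairs
  let Ch := (j : I) → {p : F.A j × F.A j // F.a j p.1 ≠ F.a j p.2}
  have hfin : Finite Ch := inferInstance
  have hlam : ∀ ch : Ch, ∃ g : I → ℝ,
      ∑ j, g j • (F.a j (ch j).1.1 - F.a j (ch j).1.2) = 0 ∧ ∃ j, g j ≠ 0 := by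
    intro ch
    apply exists_relation (fun j : I => F.a j (ch j).1.1 - F.a j (ch j).1.2) (I.sup F.DG)
    · intro j
      exact (Finset.le_sup (f := F.DG) j.2) (sub_mem_dirSpan _ (ch j).1.1.2 (ch j).1.2.2)
    · rw [Fintype.card_coe]
      exact hlt
  choose g hg hgne using hlam
  -- the functionals
  let Lam : Ch → Dual ℝ (Fin n → E) := fun ch =>
    ∑ j : I, g ch j • ((F.a j (ch j).1.1 - F.a j (ch j).1.2) ∘ₗ LinearMap.proj (j : Fin n))
  have hLam : ∀ ch : Ch, ∃ v, Lam ch v ≠ 0 := by
    intro ch
    obtain ⟨j, hj⟩ := hgne ch
    obtain ⟨z, hz⟩ : ∃ z, (F.a j (ch j).1.1 - F.a j (ch j).1.2) z ≠ 0 := by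
      by_contra hcon
      push Not at hcon
      exact (ch j).2 (sub_eq_zero.mp (LinearMap.ext hcon))
    refine ⟨Pi.single (j : Fin n) z, ?_⟩
    have h1 : Lam ch (Pi.single (j : Fin n) z) =
        g ch j * (F.a j (ch j).1.1 - F.a j (ch j).1.2) z := by
      simp only [Lam, LinearMap.sum_apply, LinearMap.smul_apply, LinearMap.comp_apply,
        LinearMap.proj_apply, smul_eq_mul]
      rw [Finset.sum_eq_single j]
      · rw [Pi.single_eq_same]
      · intro b _ hb
        have h2 : (b : Fin n) ≠ (j : Fin n) := fun h => hb (Subtype.ext h)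
        rw [Pi.single_eq_of_ne h2, map_zero, mul_zero]
      · intro h
        exact absurd (Finset.mem_univ _) h
    rw [h1]
    exact mul_ne_zero hj hz
  obtain ⟨v, hv⟩ := Module.Dual.exists_forall_ne_zero_of_forall_exists
    (ι := Z ⊕ Ch) (Sum.elim (fun l => (l : Dual ℝ (Fin n → E))) Lam) (by
      rintro (l | ch)
      · simp only [Sum.elim_inl]
        by_contra hcon
        push Not at hcon
        exact hZ l l.2 (LinearMap.ext hcon)
      · exact hLam ch)
  refine ⟨v, fun l hl => hv (Sum.inl ⟨l, hl⟩), ?_⟩
  have hvLam : ∀ ch, Lam ch v ≠ 0 := fun ch => hv (Sum.inr ch)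
  apply (Set.finite_range (fun ch : Ch =>
    (∑ j : I, g ch j * (F.c j (ch j).1.1 - F.c j (ch j).1.2)) / Lam ch v)).subset
  rintro ε ⟨x, hx⟩
  have hx' : ∀ j : I, ∃ s ∈ F.A j, ∃ t ∈ F.A j, F.a j s ≠ F.a j t ∧
      F.val j s (x - ε • v j) = F.val j t (x - ε • v j) := fun j => hx j (hIJ j.2)
  choose s hs t ht hst heq using hx'
  let ch : Ch := fun j => ⟨(⟨s j, hs j⟩, ⟨t j, ht j⟩), hst j⟩
  refine ⟨ch, ?_⟩
  simp only
  rw [div_eq_iff (hvLam ch)]
  have h1 : ∀ j : I, (F.c j (s j) - F.c j (t j)) =
      ε * ((F.a j (s j) - F.a j (t j)) (v j)) - (F.a j (s j) - F.a j (t j)) x := by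
    intro j
    have h2 := heq j
    unfold Fam.val at h2
    simp only [map_sub, map_smul, smul_eq_mul] at h2
    simp only [LinearMap.sub_apply]
    linarith
  have h2 : (∑ j : I, g ch j * (F.a j (s j) - F.a j (t j)) x) = 0 := by
    have h3 := LinearMap.congr_fun (hg ch) x
    simpa only [LinearMap.sum_apply, LinearMap.smul_apply, smul_eq_mul, LinearMap.zero_apply] using h3
  have h3 : Lam ch v = ∑ j : I, g ch j * ((F.a j (s j) - F.a j (t j)) (v j)) := by
    simp only [Lam, LinearMap.sum_apply, LinearMap.smul_apply, LinearMap.comp_apply,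
        LinearMap.proj_apply, smul_eq_mul]
    rfl
  rw [h3, Finset.mul_sum]
  have h4 : ∀ j : I, g ch j * (F.c j (ch j).1.1 - F.c j (ch j).1.2) =
      ε * (g ch j * ((F.a j (s j) - F.a j (t j)) (v j))) -
        g ch j * (F.a j (s j) - F.a j (t j)) x := by
    intro j
    have : F.c j (ch j).1.1 - F.c j (ch j).1.2 = F.c j (s j) - F.c j (t j) := rfl
    rw [this, h1 j]
    ring
  rw [Finset.sum_congr rfl (fun j _ => h4 j), Finset.sum_sub_distrib, h2, sub_zero]

/-- The core theorem for families: a component of the intersection of the corner loci contains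
a point where some family of `finrank E` direction spaces is independent. -/
theorem exists_ind_in_component [DecidableEq ι] (F : Fam E ι σ) (U : Finset ι)
    (hU : ∀ J, J ⊆ U → J.card = finrank ℝ E → Ind F.DG J) (hcard : finrank ℝ E ≤ U.card)
    (x : E) (hx : ∀ i ∈ U, F.D x i ≠ ⊥) :
    ∃ y ∈ connectedComponentIn {z | ∀ i ∈ U, F.D z i ≠ ⊥} x, ∃ J, J ⊆ U ∧
      J.card = finrank ℝ E ∧ Ind (F.D y) J := by
  classical
  set X : Set E := {z | ∀ i ∈ U, F.D z i ≠ ⊥} with hX
  set C := connectedComponentIn X x with hC
  have hxC : x ∈ C := mem_connectedComponentIn hx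
  have hXclosed : IsClosed X := by
    rw [← isOpen_compl_iff, isOpen_iff_mem_nhds]
    intro z hz
    rw [Set.mem_compl_iff, hX, Set.mem_ofPred_eq] at hz
    push Not at hz
    obtain ⟨i, hi, hbot⟩ := hz
    filter_upwards [ev_N_subset F i z] with w hw hwX
    apply hwX i hi
    rw [← le_bot_iff, ← hbot]
    exact dirSpan_mono _ hw
  have hCclosed : IsClosed C := by
    have hxX : x ∈ X := hx
    rw [hC, connectedComponentIn_eq_image hxX]
    exact hXclosed.isClosedEmbedding_subtypeVal.isClosedMap _ isClosed_connectedComponent
  -- largest independent family over `C`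
  set P : Finset (Finset ι) := U.powerset.filter (fun K => ∃ y ∈ C, Ind (F.D y) K) with hPdef
  have hPne : P.Nonempty := by
    refine ⟨∅, ?_⟩
    rw [hPdef, Finset.mem_filter]
    refine ⟨by simp, x, hxC, ?_⟩
    intro I hI
    rw [Finset.subset_empty.mp hI]
    simp
  obtain ⟨K, hK, hmax⟩ := Finset.exists_max_image P Finset.card hPne
  rw [hPdef, Finset.mem_filter, Finset.mem_powerset] at hK
  obtain ⟨hKU, q, hq, hqK⟩ := hK
  have hmax' : ∀ y ∈ C, ∀ K', K' ⊆ U → Ind (F.D y) K' → K'.card ≤ K.card := by
    intro y hy K' hK' hI
    apply hmax K'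
    rw [hPdef, Finset.mem_filter, Finset.mem_powerset]
    exact ⟨hK', y, hy, hI⟩
  have hKcard : K.card ≤ finrank ℝ E := by
    have h1 := hqK K (Finset.Subset.refl K)
    have h2 := Submodule.finrank_le (K.sup (F.D q))
    rw [Subspace.dual_finrank_eq] at h2
    omega
  by_cases hKn : K.card = finrank ℝ E
  · exact ⟨q, hq, K, hKU, hKn, hqK⟩
  exfalso
  have hlt : K.card < U.card := by omega
  obtain ⟨j, hjU, hjK⟩ : ∃ j ∈ U, j ∉ K := by
    by_contra hcon
    push Not at hcon
    have := Finset.card_le_card hcon
    omega
  have hins : insert j K ⊆ U := Finset.insert_subset hjU hKU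
  have hinsc : (insert j K).card = K.card + 1 := Finset.card_insert_of_notMem hjK
  obtain ⟨J, hJ1, hJ2, hJ3⟩ := Finset.exists_subsuperset_card_eq hins
    (show (insert j K).card ≤ finrank ℝ E by omega) hcard
  have hG : Ind F.DG (insert j K) := (hU J hJ2 hJ3).subset hJ1
  set T := connectedComponentIn {z | Ind (F.D z) K} q with hTdef
  have hT : IsComp F K T := isComp_connectedComponentIn F K q
  have hqT : q ∈ T := mem_connectedComponentIn hqK
  -- `T ⊆ C`
  have hTC : ∀ y ∈ T, y ∈ C := by
    have hconst := const_of_locally_const hT.conn (fun y => y ∈ C) (by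
      intro y hy
      by_cases hyC : y ∈ C
      · -- near `y`, all direction spaces outside `K` are unchanged
        have hyK := hT.ind y hy
        have hev : ∀ᶠ z in 𝓝 y, ∀ i ∈ U, F.N i z ⊆ F.N i y := ev_all_N_subset F U y
        obtain ⟨δ, hδ, hball⟩ := Metric.eventually_nhds_iff_ball.mp hev
        have hstep : ∀ z ∈ Metric.ball y δ ∩ T, z ∈ C := by
          intro z hz
          have hsubT : segment ℝ y z ⊆ X := by
            -- every point of the segment
            have hzK := hT.ind z hz.2
            have hNz := hball z hz.1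
            intro w hw
            rw [segment_eq_image] at hw
            obtain ⟨θ, hθ, rfl⟩ := hw
            rw [hX, Set.mem_ofPred_eq]
            intro i hi hbot
            -- the maximal terms at `w` contain the maximal terms at `z`
            have hsub : F.N i z ⊆ F.N i ((1 - θ) • y + θ • z) := by
              intro s hs
              rw [mem_N]
              refine ⟨N_subset F i z hs, ?_⟩
              intro t ht
              have h1 := ((mem_N F).mp hs).2 t ht
              have h2 := ((mem_N F).mp (hNz i hi hs)).2 t ht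
              unfold Fam.val at h1 h2 ⊢
              simp only [map_add, map_smul, smul_eq_mul]
              have h3 := mul_le_mul_of_nonneg_left h1 hθ.1
              have h4 := mul_le_mul_of_nonneg_left h2 (show 0 ≤ 1 - θ by linarith [hθ.2])
              nlinarith
            have hDz : F.D z i ≤ ⊥ := by
              rw [← hbot]
              exact dirSpan_mono _ hsub
            have hDz' : F.D z i = ⊥ := le_bot_iff.mp hDz
            by_cases hiK : i ∈ K
            · have h5 := hzK {i} (Finset.singleton_subset_iff.mpr hiK)
              rw [Finset.sup_singleton, hDz', finrank_bot, Finset.card_singleton] at h5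
              omega
            · -- maximality of `K` gives a tight set at `y`
              have hiX : F.D y i ≠ ⊥ := (connectedComponentIn_subset X x hyC) i hi
              have hnot : ¬ Ind (F.D y) (insert i K) := by
                intro hI
                have h5 := hmax' y hyC _ (Finset.insert_subset hi hKU) hI
                rw [Finset.card_insert_of_notMem hiK] at h5
                omega
              unfold Ind at hnot
              push Not at hnot
              obtain ⟨I', hI', hlt'⟩ := hnot
              have hjI : i ∈ I' := by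
                by_contra hjn
                have h2 : I' ⊆ K := by
                  intro k hk
                  rcases Finset.mem_insert.mp (hI' hk) with h | h
                  · rw [h] at hk
                    exact absurd hk hjn
                  · exact h
                have := hyK I' h2
                omega
              have hIK : I'.erase i ⊆ K := by
                intro k hk
                rw [Finset.mem_erase] at hk
                rcases Finset.mem_insert.mp (hI' hk.2) with h | h
                · exact absurd h hk.1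
                · exact h
              have h3 := hyK _ hIK
              have h4 : (I'.erase i).sup (F.D y) ≤ I'.sup (F.D y) :=
                Finset.sup_mono (Finset.erase_subset _ _)
              have h5 := Submodule.finrank_mono h4
              have h6 : (I'.erase i).card = I'.card - 1 := Finset.card_erase_of_mem hjI
              have h7 : 0 < I'.card := Finset.card_pos.mpr ⟨i, hjI⟩
              have htight : Tight (F.D y) (I'.erase i) := by
                unfold Tight
                omega
              have h8 : F.D y i ≤ (I'.erase i).sup (F.D y) := by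
                rw [Submodule.eq_of_le_of_finrank_eq h4 (by omega)]
                exact Finset.le_sup (f := F.D y) hjI
              have h9 := N_eq_of_tight F hIK htight hzK (fun k hk => hNz k (hKU hk))
                (hNz i hi) h8
              apply hiX
              unfold Fam.D at hDz' ⊢
              rw [← h9]
              exact hDz'
          have h1 : segment ℝ y z ⊆ connectedComponentIn X y :=
            (convex_segment y z).isPreconnected.subset_connectedComponentIn
              (left_mem_segment ℝ y z) hsubT
          rw [hC, connectedComponentIn_eq hyC]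
          exact h1 (right_mem_segment ℝ y z)
        have hnear : ∀ᶠ z in 𝓝[T] y, z ∈ C := by
          rw [eventually_nhdsWithin_iff]
          filter_upwards [Metric.ball_mem_nhds y hδ] with z hz hzT
          exact hstep z ⟨hz, hzT⟩
        filter_upwards [hnear] with z hz
        rw [eq_iff_iff]
        exact ⟨fun _ => hyC, fun _ => hz⟩
      · have h1 : ∀ᶠ z in 𝓝 y, z ∉ C := hCclosed.isOpen_compl.mem_nhds hyC
        filter_upwards [nhdsWithin_le_nhds h1] with z hz
        rw [eq_iff_iff]
        exact ⟨fun h => absurd h hz, fun h => absurd h hyC⟩)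
    intro y hy
    have h1 : (q ∈ C) = (y ∈ C) := hconst q hqT y hy
    rw [← h1]
    exact hq
  obtain ⟨y, hyT, hy⟩ := main_claim (fun d _ => propE_all ι σ d) hT ⟨q, hqT⟩ j hjK hG
  have := hmax' y (hTC y hyT) _ hins hy
  omega

end

end Pool.Agent.Helper58.Trop
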