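import Mathlib

set_option autoImplicit false

namespace Pool.Agent.Helper58.TropDefs

open Filter Topology

/-- A tropical polynomial in `n` variables: a finite set of exponents in `ℤⁿ` with real
coefficients. -/
structure TropicalPolynomial (n : ℕ) where
  exponents : Finset (Fin n → ℤ)
  coeff : (Fin n → ℤ) → ℝ

/-- The value at `x` of the term with exponent `a`. -/
def TropicalPolynomial.term {n : ℕ} (f : TropicalPolynomial n) (a : Fin n → ℤ)
    (x : Fin n → ℝ) : ℝ :=
  f.coeff a + ∑ i, (a i : ℝ) * x i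

/-- The corner locus: the points where the maximum is attained by two different terms. -/
def TropicalPolynomial.hypersurface {n : ℕ} (f : TropicalPolynomial n) : Set (Fin n → ℝ) :=
  {x | ∃ a ∈ f.exponents, ∃ b ∈ f.exponents, a ≠ b ∧ f.term a x = f.term b x ∧
    ∀ d ∈ f.exponents, f.term d x ≤ f.term a x}

/-- `P v` holds for generic `v`: for all `v` outside finitely many hyperplanes. -/
def Generic {V : Type} [AddCommGroup V] [Module ℝ V] (P : V → Prop) : Prop :=
  ∃ Z : Finset (Module.Dual ℝ V), (∀ l ∈ Z, l ≠ 0) ∧ ∀ v, (∀ l ∈ Z, l v ≠ 0) → P v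

/-- `p` is a limit, as `ε → 0+`, of points of the intersection of the translates
`Σ_j + ε v_j`, `j ∈ J`. -/
def IsLimitOfTranslates {n k : ℕ} (f : Fin k → TropicalPolynomial n) (J : Finset (Fin k))
    (v : Fin k → (Fin n → ℝ)) (p : Fin n → ℝ) : Prop :=
  ∃ x : ℝ → (Fin n → ℝ), Tendsto x (𝓝[>] 0) (𝓝 p) ∧
    ∀ᶠ ε in 𝓝[>] 0, ∀ j ∈ J, ∃ y ∈ (f j).hypersurface, x ε = y + ε • v j

/-- The support of the stable intersection of the hypersurfaces of `f j`, `j ∈ J`. -/
def stableIntersection {n k : ℕ} (f : Fin k → TropicalPolynomial n) (J : Finset (Fin k)) :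
    Set (Fin n → ℝ) :=
  {p | Generic (fun v : Fin k → (Fin n → ℝ) => IsLimitOfTranslates f J v p)}

end Pool.Agent.Helper58.TropDefs
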