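import Mathlib
import Pool.Agent.Helper58.Trop5
import Pool.Agent.Helper58.TropDefs

set_option autoImplicit false

/-!
# Every component of an overdetermined intersection contains a stable intersection point
-/

namespace Pool.Agent.Helper58.Trop

open Module Filter Topology Pool.Agent.Helper58.TropDefs

variable {n k : ℕ}

/-- The linear functional of an exponent. -/
noncomputable def lin (a : Fin n → ℤ) : Dual ℝ (Fin n → ℝ) :=
  ∑ i, (a i : ℝ) • LinearMap.proj i

theorem lin_apply (a : Fin n → ℤ) (x : Fin n → ℝ) : lin a x = ∑ i, (a i : ℝ) * x i := by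
  unfold lin
  simp

theorem lin_injective : Function.Injective (lin : (Fin n → ℤ) → Dual ℝ (Fin n → ℝ)) := by
  intro a b h
  ext i
  have h1 := LinearMap.congr_fun h (Pi.single i 1)
  rw [lin_apply, lin_apply] at h1
  have h2 : ∀ c : Fin n → ℤ, ∑ j, (c j : ℝ) * (Pi.single i (1 : ℝ) : Fin n → ℝ) j = c i := by
    intro c
    rw [Finset.sum_eq_single i]
    · rw [Pi.single_eq_same, mul_one]
    · intro j _ hj
      rw [Pi.single_eq_of_ne hj, mul_zero]
    · intro h
      exact absurd (Finset.mem_univ i) h
  rw [h2, h2] at h1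
  exact_mod_cast h1

/-- The family of the tropical polynomials `f`. -/
noncomputable def fam (f : Fin k → TropicalPolynomial n) :
    Fam (Fin n → ℝ) (Fin k) (Fin n → ℤ) where
  A := fun i => (f i).exponents
  c := fun i s => (f i).coeff s
  a := fun _ s => lin s

theorem fam_val (f : Fin k → TropicalPolynomial n) (i : Fin k) (s : Fin n → ℤ) (x : Fin n → ℝ) :
    (fam f).val i s x = (f i).term s x := by
  unfold Fam.val fam TropicalPolynomial.term
  simp only
  rw [lin_apply]

theorem mem_hypersurface_iff (f : Fin k → TropicalPolynomial n) (i : Fin k) (x : Fin n → ℝ) :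
    x ∈ (f i).hypersurface ↔ (fam f).D x i ≠ ⊥ := by
  constructor
  · rintro ⟨a, ha, b, hb, hne, heq, hmax⟩ hbot
    have haN : a ∈ (fam f).N i x := by
      rw [mem_N]
      refine ⟨ha, ?_⟩
      intro t ht
      rw [fam_val, fam_val]
      exact hmax t ht
    have hbN : b ∈ (fam f).N i x := by
      rw [mem_N]
      refine ⟨hb, ?_⟩
      intro t ht
      rw [fam_val, fam_val, ← heq]
      exact hmax t ht
    have h1 : (fam f).a i a - (fam f).a i b ∈ (fam f).D x i := sub_mem_dirSpan _ haN hbN
    rw [hbot, Submodule.mem_bot] at h1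
    exact hne (lin_injective (sub_eq_zero.mp h1))
  · intro hD
    by_contra hcon
    apply hD
    rw [← le_bot_iff]
    apply dirSpan_le
    intro s hs t ht
    rw [Submodule.mem_bot, sub_eq_zero]
    by_cases hst : s = t
    · rw [hst]
    · exfalso
      apply hcon
      have h1 := val_eq_of_mem_N _ hs ht
      rw [mem_N] at hs ht
      refine ⟨s, hs.1, t, ht.1, hst, ?_, ?_⟩
      · rw [fam_val, fam_val] at h1
        exact h1
      · intro d hd
        have h2 := hs.2 d hd
        rw [fam_val, fam_val] at h2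
        exact h2

/-- Points where the direction spaces are independent belong to the stable intersection. -/
theorem mem_stable_of_ind (f : Fin k → TropicalPolynomial n) (J : Finset (Fin k))
    (q : Fin n → ℝ) (hJ : Ind ((fam f).D q) J) : q ∈ stableIntersection f J := by
  refine ⟨∅, by simp, ?_⟩
  intro v _
  obtain ⟨y, hy⟩ := exists_direction (fam f) J q hJ v
  refine ⟨fun ε => q + ε • y, ?_, ?_⟩
  · have : Tendsto (fun ε : ℝ => q + ε • y) (𝓝 0) (𝓝 (q + (0 : ℝ) • y)) :=
      (Continuous.tendsto (by fun_prop) 0)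
    rw [zero_smul, add_zero] at this
    exact this.mono_left nhdsWithin_le_nhds
  · filter_upwards [hy] with ε hε j hj
    refine ⟨q + ε • (y - v j), (mem_hypersurface_iff f j _).mpr (hε j hj), ?_⟩
    rw [smul_sub]
    abel

/-- If the stable intersection is nonempty, the global direction spaces are independent. -/
theorem ind_of_stable_nonempty (f : Fin k → TropicalPolynomial n) (J : Finset (Fin k))
    (h : (stableIntersection f J).Nonempty) : Ind (fam f).DG J := by
  by_contra hcon
  obtain ⟨p, Z, hZ, hgen⟩ := h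
  obtain ⟨v, hv, hfin⟩ := finite_of_not_ind (fam f) J hcon Z hZ
  obtain ⟨x, -, hx⟩ := hgen v hv
  have hsub : ∀ᶠ ε : ℝ in 𝓝[>] 0, ε ∈ {ε : ℝ | ∃ x : Fin n → ℝ, ∀ j ∈ J,
      ∃ s ∈ (fam f).A j, ∃ t ∈ (fam f).A j, (fam f).a j s ≠ (fam f).a j t ∧
        (fam f).val j s (x - ε • v j) = (fam f).val j t (x - ε • v j)} := by
    filter_upwards [hx] with ε hε
    refine ⟨x ε, ?_⟩
    intro j hj
    obtain ⟨y, ⟨a, ha, b, hb, hne, heq, -⟩, hxy⟩ := hε j hj
    refine ⟨a, ha, b, hb, fun h => hne (lin_injective h), ?_⟩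
    rw [hxy, add_sub_cancel_right, fam_val, fam_val]
    exact heq
  obtain ⟨u, hu, hIoo⟩ := mem_nhdsGT_iff_exists_Ioo_subset.mp hsub
  exact (Set.Ioo_infinite (show (0 : ℝ) < u from hu)) (hfin.subset hIoo)

theorem main (hk : n ≤ k) (f : Fin k → TropicalPolynomial n)
    (hstab : ∀ J : Finset (Fin k), J.card = n → (stableIntersection f J).Nonempty) :
    ∀ x ∈ ⋂ i, (f i).hypersurface, ∃ J : Finset (Fin k), J.card = n ∧
      (connectedComponentIn (⋂ i, (f i).hypersurface) x ∩ stableIntersection f J).Nonempty := by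
  intro x hx
  have hfr : finrank ℝ (Fin n → ℝ) = n := by simp
  have hX : (⋂ i, (f i).hypersurface) =
      {z | ∀ i ∈ (Finset.univ : Finset (Fin k)), (fam f).D z i ≠ ⊥} := by
    ext z
    rw [Set.mem_iInter, Set.mem_ofPred_eq]
    constructor
    · intro h i _
      exact (mem_hypersurface_iff f i z).mp (h i)
    · intro h i
      exact (mem_hypersurface_iff f i z).mpr (h i (Finset.mem_univ i))
  rw [hX] at hx
  obtain ⟨y, hy, J, -, hJ, hInd⟩ := exists_ind_in_component (fam f) Finset.univ
    (by
      intro J _ hJ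
      rw [hfr] at hJ
      exact ind_of_stable_nonempty f J (hstab J hJ))
    (by rw [hfr, Finset.card_univ, Fintype.card_fin]; exact hk) x hx
  rw [hfr] at hJ
  refine ⟨J, hJ, y, ?_, mem_stable_of_ind f J y hInd⟩
  rw [hX]
  exact hy

end Pool.Agent.Helper58.Trop
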